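import Pool.Agent.Q169.CW.Resample

/-!
The field of arrows, the transition operator of the chain of down-steps, and the inequalities for
this operator.
-/

namespace Q169.CW

open Finset Filter Topology MeasureTheory
open scoped ENNReal

/-- The law of the stack and the coins at one site. -/
noncomputable def site (ν : Measure (ℕ → ℝ)) : Measure ((ℕ → ℝ) × (ℕ → ℝ)) := ν.prod coin

instance (ν : Measure (ℕ → ℝ)) [IsProbabilityMeasure ν] : IsProbabilityMeasure (site ν) := by
  unfold site; infer_instance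

/-- The law of the stacks and the coins. -/
noncomputable def PP (ν : Measure (ℕ → ℝ)) [IsProbabilityMeasure ν] :
    Measure (ℤ → (ℕ → ℝ) × (ℕ → ℝ)) := Measure.infinitePi fun _ : ℤ => site ν

instance (ν : Measure (ℕ → ℝ)) [IsProbabilityMeasure ν] : IsProbabilityMeasure (PP ν) := by
  unfold PP; infer_instance

/-- The arrows. -/
noncomputable def af (ω : ℤ → (ℕ → ℝ) × (ℕ → ℝ)) : ℤ → ℕ → Bool := fun z => ar (ω z).1 (ω z).2

theorem measurable_af (z : ℤ) : Measurable fun ω : ℤ → (ℕ → ℝ) × (ℕ → ℝ) => af ω z :=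
  measurable_ar.comp (measurable_pi_apply z)

/-- The transition operator. -/
noncomputable def KK (ν : Measure (ℕ → ℝ)) (G : ℕ → ℝ≥0∞) (n : ℕ) : ℝ≥0∞ :=
  ∫⁻ x, G (FF (ar x.1 x.2) n) ∂(site ν)

theorem measurable_ch (k : ℤ) (i : ℕ) :
    Measurable fun ω : ℤ → (ℕ → ℝ) × (ℕ → ℝ) => ch (af ω) k i := by
  induction i with
  | zero => exact measurable_const
  | succ i ih => exact measurable_FF2.comp (ih.prodMk (measurable_af _))

theorem ch_congr {a a' : ℤ → ℕ → Bool} {k : ℤ} {i : ℕ}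
    (h : ∀ j < i, a (k - 1 - (j : ℕ)) = a' (k - 1 - (j : ℕ))) : ch a k i = ch a' k i := by
  induction i with
  | zero => rfl
  | succ i ih => simp only [ch]; rw [ih fun j hj => h j (by omega), h i (by omega)]

variable (ν : Measure (ℕ → ℝ)) [IsProbabilityMeasure ν]

theorem lintegral_ch (G : ℕ → ℝ≥0∞) (k : ℤ) (i : ℕ) :
    ∫⁻ ω, G (ch (af ω) k (i + 1)) ∂(PP ν) = ∫⁻ ω, KK ν G (ch (af ω) k i) ∂(PP ν) := by
  have hm : Measurable fun ω : ℤ → (ℕ → ℝ) × (ℕ → ℝ) => G (ch (af ω) k (i + 1)) :=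
    (Measurable.of_discrete (f := G)).comp (measurable_ch k (i + 1))
  unfold PP
  rw [lintegral_update (site ν) (k - 1 - (i : ℕ)) hm]
  refine lintegral_congr fun ω => ?_
  unfold KK
  refine lintegral_congr fun x => ?_
  simp only [ch]
  congr 2
  · unfold af
    rw [Function.update_self]
  · refine ch_congr fun j hj => ?_
    unfold af
    rw [Function.update_of_ne (by omega)]

/-- The law of the chain does not depend on the starting site. -/
theorem lintegral_ch_eq (G : ℕ → ℝ≥0∞) (k : ℤ) (i : ℕ) :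
    ∫⁻ ω, G (ch (af ω) k i) ∂(PP ν) = ∫⁻ ω, G (ch (af ω) 0 i) ∂(PP ν) := by
  induction i generalizing G with
  | zero => rfl
  | succ i ih => rw [lintegral_ch, lintegral_ch, ih]

omit [IsProbabilityMeasure ν] in
theorem KK_eq (G : ℕ → ℝ≥0∞) (n : ℕ) :
    KK ν G n = ∫⁻ s, ∫⁻ u, G (FF (ar s u) n) ∂coin ∂ν := by
  unfold KK site
  rw [lintegral_prod]
  exact ((Measurable.of_discrete (f := G)).comp
    ((measurable_FF n).comp measurable_ar)).aemeasurable

theorem KK_real (hA : ∀ᵐ s ∂ν, Adm s) (h : ℕ → ℝ) (h0 : ∀ f, 0 ≤ h f) (n : ℕ)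
    (hsm : ∀ s, Adm s → Summable fun f => h f * qq s n f) :
    KK ν (fun f => ENNReal.ofReal (h f)) n = ∫⁻ s, ENNReal.ofReal (EE s n h) ∂ν := by
  rw [KK_eq]
  refine lintegral_congr_ae ?_
  filter_upwards [hA] with s hs
  exact lintegral_FF_real hs n h h0 (hsm s hs)

/-- The mean drift of the cookie number `l`. -/
noncomputable def ee (l : ℕ) : ℝ≥0∞ := ∫⁻ s, ENNReal.ofReal (dd s l) ∂ν

/-- The drift parameter. -/
noncomputable def del : ℝ≥0∞ := ∫⁻ s, ∑' l, ENNReal.ofReal (dd s l) ∂ν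

theorem measurable_dd (l : ℕ) : Measurable fun s : ℕ → ℝ => ENNReal.ofReal (dd s l) := by
  unfold dd
  fun_prop

omit [IsProbabilityMeasure ν] in
theorem del_eq : del ν = ∑' l, ee ν l := by
  unfold del ee
  exact lintegral_tsum fun l => (measurable_dd l).aemeasurable

theorem ee_le_one (hA : ∀ᵐ s ∂ν, Adm s) (l : ℕ) : ee ν l ≤ 1 := by
  unfold ee
  calc ∫⁻ s, ENNReal.ofReal (dd s l) ∂ν ≤ ∫⁻ _, 1 ∂ν := by
        refine lintegral_mono_ae ?_
        filter_upwards [hA] with s hs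
        exact ENNReal.ofReal_le_one.mpr (dd_le_one hs l)
    _ = 1 := by simp

omit [IsProbabilityMeasure ν] in
theorem sum_ee (M : ℕ) : ∑ l ∈ range M, ee ν l = ∫⁻ s, ∑ l ∈ range M, ENNReal.ofReal (dd s l) ∂ν := by
  unfold ee
  rw [lintegral_finsetSum]
  exact fun l _ => measurable_dd l

theorem sum_dd {s : ℕ → ℝ} (hs : Adm s) (M : ℕ) :
    ∑ l ∈ range M, ENNReal.ofReal (dd s l) = ENNReal.ofReal (∑ l ∈ range M, dd s l) :=
  (ENNReal.ofReal_sum_of_nonneg fun l _ => dd_nonneg hs l).symm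

theorem sum_ee_ne_top (hA : ∀ᵐ s ∂ν, Adm s) (M : ℕ) : ∑ l ∈ range M, ee ν l ≠ ∞ :=
  ENNReal.sum_ne_top.mpr fun l _ => ne_top_of_le_ne_top ENNReal.one_ne_top (ee_le_one ν hA l)

theorem nat_eq_ofReal (f : ℕ) : (f : ℝ≥0∞) = ENNReal.ofReal (f : ℝ) := (ENNReal.ofReal_natCast f).symm

theorem KK_one_le (hA : ∀ᵐ s ∂ν, Adm s) (n : ℕ) : KK ν (fun f => (f : ℝ≥0∞)) n ≤ n + 1 := by
  have h1 := KK_real ν hA (fun f => (f : ℝ)) (fun f => Nat.cast_nonneg f) n fun s hs => sm1 hs n
  simp only [ENNReal.ofReal_natCast] at h1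
  rw [h1]
  calc ∫⁻ s, ENNReal.ofReal (EE s n fun f => (f : ℝ)) ∂ν ≤ ∫⁻ _, (n + 1 : ℝ≥0∞) ∂ν := by
        refine lintegral_mono_ae ?_
        filter_upwards [hA] with s hs
        have h2 := EE1_le hs n
        have h3 : 0 ≤ ∑ l ∈ range (n + 1), dd s l := sum_nonneg fun l _ => dd_nonneg hs l
        have h4 : (n + 1 : ℝ≥0∞) = ENNReal.ofReal ((n : ℝ) + 1) := by
          rw [ENNReal.ofReal_add (Nat.cast_nonneg n) zero_le_one, ENNReal.ofReal_natCast,
            ENNReal.ofReal_one]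
        rw [h4]
        exact ENNReal.ofReal_le_ofReal (by linarith)
    _ = n + 1 := by simp

theorem KK_sq_eq (hA : ∀ᵐ s ∂ν, Adm s) (n : ℕ) : KK ν (fun f => (f : ℝ≥0∞) ^ 2) n =
    ∫⁻ s, ENNReal.ofReal (EE s n fun f => (f : ℝ) ^ 2) ∂ν := by
  rw [← KK_real ν hA (fun f => (f : ℝ) ^ 2) (fun f => by positivity) n fun s hs => sm2 hs n]
  congr 1
  funext f
  rw [ENNReal.ofReal_pow (Nat.cast_nonneg f), ENNReal.ofReal_natCast]

theorem KK_sq_le (hA : ∀ᵐ s ∂ν, Adm s) (n : ℕ) :
    KK ν (fun f => (f : ℝ≥0∞) ^ 2) n ≤ ENNReal.ofReal ((n + 1) * (n + 3)) := by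
  rw [KK_sq_eq ν hA]
  calc ∫⁻ s, ENNReal.ofReal (EE s n fun f => (f : ℝ) ^ 2) ∂ν
      ≤ ∫⁻ _, ENNReal.ofReal ((n + 1) * (n + 3)) ∂ν := by
        refine lintegral_mono_ae ?_
        filter_upwards [hA] with s hs
        exact ENNReal.ofReal_le_ofReal (EE2_le hs n)
    _ = _ := by simp

theorem KK_sq_le' (hA : ∀ᵐ s ∂ν, Adm s) (n M : ℕ) (hM : M ≤ n) :
    KK ν (fun f => (f : ℝ≥0∞) ^ 2) n + ENNReal.ofReal (2 * n + 3) * ∑ l ∈ range M, ee ν l ≤
      ENNReal.ofReal ((n + 1) * (n + 3) + 2 * M ^ 2) := by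
  have hm : Measurable fun s : ℕ → ℝ => ENNReal.ofReal (2 * n + 3) *
      ∑ l ∈ range M, ENNReal.ofReal (dd s l) :=
    Measurable.const_mul (Finset.measurable_fun_sum _ fun l _ => measurable_dd l) _
  rw [KK_sq_eq ν hA, sum_ee, ← lintegral_const_mul _
    (Finset.measurable_fun_sum _ fun l _ => measurable_dd l), ← lintegral_add_right _ hm]
  calc ∫⁻ s, (ENNReal.ofReal (EE s n fun f => (f : ℝ) ^ 2) + ENNReal.ofReal (2 * n + 3) *
          ∑ l ∈ range M, ENNReal.ofReal (dd s l)) ∂ν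
      ≤ ∫⁻ _, ENNReal.ofReal ((n + 1) * (n + 3) + 2 * M ^ 2) ∂ν := by
        refine lintegral_mono_ae ?_
        filter_upwards [hA] with s hs
        have h0 : 0 ≤ ∑ l ∈ range M, dd s l := sum_nonneg fun l _ => dd_nonneg hs l
        have h1 : 0 ≤ EE s n fun f => (f : ℝ) ^ 2 :=
          tsum_nonneg fun f => mul_nonneg (by positivity) (qq_nonneg hs n f)
        have h2 : (0 : ℝ) ≤ 2 * n + 3 := by positivity
        rw [sum_dd hs, ← ENNReal.ofReal_mul h2, ← ENNReal.ofReal_add h1 (mul_nonneg h2 h0)]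
        exact ENNReal.ofReal_le_ofReal (EE2_le' hs n M hM)
    _ = _ := by simp

/-- Strictly subcritical second moments for `δ > 2`. -/
theorem KK_sq_drift (hA : ∀ᵐ s ∂ν, Adm s) (hd : 2 < del ν) :
    ∃ c C : ℝ, 0 < c ∧ 0 < C ∧ ∀ n : ℕ,
      KK ν (fun f => (f : ℝ≥0∞) ^ 2) n + ENNReal.ofReal c * n ≤ (n : ℝ≥0∞) ^ 2 + ENNReal.ofReal C := by
  rw [del_eq] at hd
  obtain ⟨M, hM⟩ := ((ENNReal.tendsto_nat_tsum (ee ν)).eventually_const_lt hd).exists
  have hfin := sum_ee_ne_top ν hA M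
  set D : ℝ := (∑ l ∈ range M, ee ν l).toReal with hD
  have hDeq : ∑ l ∈ range M, ee ν l = ENNReal.ofReal D := (ENNReal.ofReal_toReal hfin).symm
  have hD2 : 2 < D := by
    rw [hDeq] at hM
    have h2 : (2 : ℝ≥0∞) = ENNReal.ofReal 2 := by simp
    rw [h2] at hM
    exact (ENNReal.ofReal_lt_ofReal_iff_of_nonneg (by norm_num)).mp hM
  refine ⟨2 * (D - 2), 3 + 2 * M ^ 2 + 4 * M + 2 * (D - 2) * M, by linarith, ?_, fun n => ?_⟩
  · have : (0 : ℝ) ≤ 2 * (D - 2) * M := mul_nonneg (by linarith) (Nat.cast_nonneg M)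
    positivity
  have hne : KK ν (fun f => (f : ℝ≥0∞) ^ 2) n ≠ ∞ :=
    ne_top_of_le_ne_top ENNReal.ofReal_ne_top (KK_sq_le ν hA n)
  obtain ⟨k2, hk0, hk⟩ : ∃ k2 : ℝ, 0 ≤ k2 ∧ KK ν (fun f => (f : ℝ≥0∞) ^ 2) n = ENNReal.ofReal k2 :=
    ⟨_, ENNReal.toReal_nonneg, (ENNReal.ofReal_toReal hne).symm⟩
  have hn0 : (0 : ℝ) ≤ n := Nat.cast_nonneg n
  have hM0 : (0 : ℝ) ≤ M := Nat.cast_nonneg M
  have hc0 : (0 : ℝ) ≤ 2 * (D - 2) := by linarith
  have hC0 : (0 : ℝ) ≤ 3 + 2 * M ^ 2 + 4 * M + 2 * (D - 2) * M := by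
    have := mul_nonneg hc0 hM0
    positivity
  rw [hk, ← ENNReal.ofReal_natCast n, ← ENNReal.ofReal_mul hc0, ← ENNReal.ofReal_pow hn0,
    ← ENNReal.ofReal_add hk0 (mul_nonneg hc0 hn0), ← ENNReal.ofReal_add (by positivity) hC0]
  apply ENNReal.ofReal_le_ofReal
  rcases Nat.lt_or_ge n M with h | h
  · have h1 := KK_sq_le ν hA n
    rw [hk] at h1
    have h2 : k2 ≤ (n + 1) * (n + 3) := (ENNReal.ofReal_le_ofReal_iff (by positivity)).mp h1
    have h3 : (n : ℝ) ≤ M := by exact_mod_cast h.le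
    nlinarith [mul_le_mul_of_nonneg_left h3 hc0]
  · have h1 := KK_sq_le' ν hA n M h
    rw [hk, hDeq, ← ENNReal.ofReal_mul (by positivity), ← ENNReal.ofReal_add hk0
      (mul_nonneg (by positivity) (by linarith))] at h1
    have h2 := (ENNReal.ofReal_le_ofReal_iff (by positivity)).mp h1
    have h3 := mul_nonneg hc0 hM0
    nlinarith

/-- The chain can jump to zero. -/
theorem KK_zero_ge (hA : ∀ᵐ s ∂ν, Adm s) (n : ℕ) :
    ENNReal.ofReal ((1 / 2) ^ (n + 1)) ≤ KK ν (fun f => if f = 0 then 1 else 0) n := by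
  rw [KK_eq]
  calc ENNReal.ofReal ((1 / 2) ^ (n + 1)) = ∫⁻ _, ENNReal.ofReal ((1 / 2) ^ (n + 1)) ∂ν := by simp
    _ ≤ _ := by
        refine lintegral_mono_ae ?_
        filter_upwards [hA] with s hs
        refine le_trans ?_ (lintegral_FF hs n (fun f => if f = 0 then 1 else 0)).ge
        refine le_trans ?_ (ENNReal.le_tsum 0)
        rw [if_pos rfl, one_mul]
        apply ENNReal.ofReal_le_ofReal
        unfold qq
        have h1 : ∀ m, (1 / 2) ^ m ≤ pp s m m := by
          intro m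
          induction m with
          | zero => simp [pp]
          | succ m ih =>
            simp only [pp]
            rw [pp_zero_of_lt m (m + 1) (Nat.lt_succ_self m), mul_zero, add_zero, pow_succ, mul_comm]
            exact mul_le_mul (hs m).1 ih (by positivity) (by linarith [(hs m).1])
        rw [add_zero, pow_succ, mul_comm]
        exact mul_le_mul (hs n).1 (h1 n) (by positivity) (by linarith [(hs n).1])

theorem pp_no {s : ℕ → ℝ} (L : ℕ) : pp s L 0 = ∏ l ∈ range L, (1 - s l) := by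
  induction L with
  | zero => simp [pp]
  | succ L ih => rw [prod_range_succ, ← ih]; simp only [pp]; ring

theorem le_FF {b : ℕ → Bool} {n L : ℕ} (h : ∃ m, n < tr b m) (hL : tr b L = 0) : L ≤ FF b n := by
  have h1 := tr_NN h
  have h2 : L ≤ NN b n := by
    by_contra hlt
    push Not at hlt
    have := tr_mono b hlt.le
    omega
  have h3 := fl_mono b h2
  have h4 := tr_add_fl b L
  unfold FF
  omega

/-- The chain can make a large jump. -/
theorem KK_large (hA : ∀ᵐ s ∂ν, Adm s) (hW : 0 < ν {s | ∀ i, s i < 1}) (L : ℕ) :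
    ∃ b : ℝ, 0 < b ∧ ∀ n, ENNReal.ofReal b ≤ KK ν (fun f => if L ≤ f then 1 else 0) n := by
  set B : ℝ≥0∞ := ∫⁻ s, ENNReal.ofReal (pp s L 0) ∂ν with hB
  have hmeas : Measurable fun s : ℕ → ℝ => ENNReal.ofReal (pp s L 0) := by
    simp only [pp_no]
    exact ENNReal.measurable_ofReal.comp (Finset.measurable_fun_prod _ fun l _ => by fun_prop)
  have hB1 : B ≤ 1 := by
    calc B ≤ ∫⁻ _, 1 ∂ν := by
          refine lintegral_mono_ae ?_
          filter_upwards [hA] with s hs
          refine ENNReal.ofReal_le_one.mpr ?_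
          rw [pp_no]
          exact Finset.prod_le_one (fun l _ => by linarith [(hs l).2]) fun l _ => by
            linarith [(hs l).1]
      _ = 1 := by simp
  have hB0 : B ≠ 0 := by
    intro h0
    rw [hB, lintegral_eq_zero_iff hmeas] at h0
    have h1 : ν {s | ∀ i, s i < 1} = 0 := by
      refine measure_mono_null ?_ (show ν {s | ¬ (ENNReal.ofReal (pp s L 0) = 0)} = 0 from h0)
      intro s hs
      have : 0 < pp s L 0 := by
        rw [pp_no]
        exact Finset.prod_pos fun l _ => by linarith [hs l]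
      simpa using this
    exact hW.ne' h1
  have hBt : B ≠ ∞ := ne_top_of_le_ne_top ENNReal.one_ne_top hB1
  refine ⟨B.toReal, ENNReal.toReal_pos hB0 hBt, fun n => ?_⟩
  rw [ENNReal.ofReal_toReal hBt, KK_eq, hB]
  refine lintegral_mono_ae ?_
  filter_upwards [hA] with s hs
  rw [← coin_tr hs L 0]
  have hms : MeasurableSet {u | tr (ar s u) L = 0} :=
    ((measurable_tr L).comp (measurable_ar' s)) (measurableSet_singleton 0)
  calc coin {u | tr (ar s u) L = 0} = ∫⁻ u, {u | tr (ar s u) L = 0}.indicator (fun _ => 1) u ∂coin := by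
        rw [lintegral_indicator_const hms, one_mul]
    _ ≤ _ := by
        refine lintegral_mono_ae ?_
        filter_upwards [ae_rich hs] with u hu
        by_cases h : tr (ar s u) L = 0
        · rw [if_pos (le_FF (hu n) h)]
          exact Set.indicator_le (fun _ _ => le_rfl) u
        · have h' : u ∉ {u | tr (ar s u) L = 0} := h
          rw [Set.indicator_of_notMem h']
          exact zero_le

/-- The drift of the test function for `δ ≤ 2`. -/
theorem KK_tf (hA : ∀ᵐ s ∂ν, Adm s) (hW : 0 < ν {s | ∀ i, s i < 1}) (hd : del ν ≤ 2) :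
    ∃ x1 : ℕ, 8 ≤ x1 ∧ ∀ x0 ≥ x1, ∃ b : ℝ, 0 < b ∧ ∀ x : ℕ, x0 < 4 * x → ∀ n : ℕ,
      ENNReal.ofReal (tf x0 (4 * x) n) + ENNReal.ofReal b * (if n ≤ x0 then 1 else 0) ≤
        KK ν (fun f => ENNReal.ofReal (tf x0 (4 * x) f)) n + ENNReal.ofReal (eps x) +
          ENNReal.ofReal (8 * x) * (if x < n then 1 else 0) := by
  have hdt : del ν ≠ ∞ := ne_top_of_le_ne_top (by norm_num) hd
  -- the total drift of almost every stack is finite
  have hfin : ∀ᵐ s ∂ν, ∑' l, ENNReal.ofReal (dd s l) < ∞ :=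
    ae_lt_top (Measurable.tsum fun l => measurable_dd l) hdt
  have hDt : ∀ s, Adm s → ∑' l, ENNReal.ofReal (dd s l) < ∞ → ∀ m, ∑ l ∈ range m, dd s l ≤
      (∑' l, ENNReal.ofReal (dd s l)).toReal := by
    intro s hs hf m
    have h1 := ENNReal.sum_le_tsum (f := fun l => ENNReal.ofReal (dd s l)) (range m)
    rw [sum_dd hs] at h1
    exact (ENNReal.ofReal_le_iff_le_toReal hf.ne).mp h1
  -- the tolerance
  set D : ℝ := (del ν).toReal with hD
  have hD2 : D ≤ 2 := by
    have := ENNReal.toReal_mono (by norm_num : (2 : ℝ≥0∞) ≠ ∞) hd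
    simpa using this
  have hD0 : 0 ≤ D := ENNReal.toReal_nonneg
  have hDeq : del ν = ENNReal.ofReal D := (ENNReal.ofReal_toReal hdt).symm
  have hev : ∀ᶠ M in atTop, D - 5 / 7 ≤ (∑ l ∈ range M, ee ν l).toReal := by
    have h1 : Tendsto (fun M => (∑ l ∈ range M, ee ν l).toReal) atTop (𝓝 D) := by
      have h2 := ENNReal.tendsto_nat_tsum (ee ν)
      rw [← del_eq] at h2
      exact (ENNReal.tendsto_toReal hdt).comp h2
    exact (h1.eventually_const_lt (by linarith : D - 5 / 7 < D)).mono fun _ h => h.le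
  obtain ⟨x1, hx1⟩ := eventually_atTop.mp hev
  refine ⟨max x1 8, le_max_right _ _, fun x0 hx0 => ?_⟩
  have h80 : 8 ≤ x0 := (le_max_right _ _).trans hx0
  obtain ⟨b, hb, hbK⟩ := KK_large ν hA hW (x0 + 1)
  refine ⟨b, hb, fun x hx n => ?_⟩
  have hKK := KK_real ν hA (tf x0 (4 * x)) (tf_nonneg h80 hx) n fun s hs => sm_tf hs h80 hx n
  have hKt : KK ν (fun f => ENNReal.ofReal (tf x0 (4 * x) f)) n ≠ ∞ := by
    rw [hKK]
    refine ne_top_of_le_ne_top (b := ENNReal.ofReal (2 * (4 * x : ℕ) * (n + 1)))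
      ENNReal.ofReal_ne_top ?_
    calc ∫⁻ s, ENNReal.ofReal (EE s n (tf x0 (4 * x))) ∂ν
        ≤ ∫⁻ _, ENNReal.ofReal (2 * (4 * x : ℕ) * (n + 1)) ∂ν := by
          refine lintegral_mono_ae ?_
          filter_upwards [hA] with s hs
          exact ENNReal.ofReal_le_ofReal (EE_tf_le hs h80 hx n)
      _ = _ := by simp
  by_cases hn0 : n ≤ x0
  · rw [tf_eq_zero hn0, if_pos hn0, ENNReal.ofReal_zero, zero_add, mul_one]
    refine le_trans ((hbK n).trans ?_) (le_trans le_self_add le_self_add)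
    unfold KK
    refine lintegral_mono fun y => ?_
    simp only
    split_ifs with h
    · have := tf_one_le h80 hx h
      rw [← ENNReal.ofReal_one]
      exact ENNReal.ofReal_le_ofReal this
    · exact zero_le
  · rw [if_neg hn0, mul_zero, add_zero]
    push Not at hn0
    by_cases hnx : n ≤ x
    · rw [if_neg (by omega), mul_zero, add_zero]
      have hn5 : (5 : ℝ) ≤ n := by exact_mod_cast (by omega : 5 ≤ n)
      have hx0' : (8 : ℝ) ≤ x0 := by exact_mod_cast h80
      have hg0 : (0 : ℝ) ≤ (x0 : ℝ) ^ 2 - 8 * x0 := by nlinarith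
      have hA0 : (0 : ℝ) ≤ (n + 1) * (n - 5) := mul_nonneg (by linarith) (by linarith)
      have key : ENNReal.ofReal (((n : ℝ) + 1) * (n - 5)) +
          ENNReal.ofReal 7 * ∑ l ∈ range (n + 1), ee ν l ≤
          KK ν (fun f => ENNReal.ofReal (tf x0 (4 * x) f)) n +
            (ENNReal.ofReal (2 * (n + 1)) * del ν +
              ENNReal.ofReal (((x0 : ℝ) ^ 2 - 8 * x0) + eps x)) := by
        have hm1 : Measurable fun s : ℕ → ℝ => ENNReal.ofReal 7 *
            ∑ l ∈ range (n + 1), ENNReal.ofReal (dd s l) :=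
          Measurable.const_mul (Finset.measurable_fun_sum _ fun l _ => measurable_dd l) _
        have hm2 : Measurable fun s : ℕ → ℝ => ∑' l, ENNReal.ofReal (dd s l) :=
          Measurable.tsum fun l => measurable_dd l
        have e1 : ENNReal.ofReal (((n : ℝ) + 1) * (n - 5)) +
            ENNReal.ofReal 7 * ∑ l ∈ range (n + 1), ee ν l =
            ∫⁻ s, (ENNReal.ofReal (((n : ℝ) + 1) * (n - 5)) + ENNReal.ofReal 7 *
              ∑ l ∈ range (n + 1), ENNReal.ofReal (dd s l)) ∂ν := by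
          rw [lintegral_add_right _ hm1, lintegral_const_mul _
            (Finset.measurable_fun_sum _ fun l _ => measurable_dd l), sum_ee]
          simp
        have e2 : KK ν (fun f => ENNReal.ofReal (tf x0 (4 * x) f)) n +
            (ENNReal.ofReal (2 * (n + 1)) * del ν +
              ENNReal.ofReal (((x0 : ℝ) ^ 2 - 8 * x0) + eps x)) =
            ∫⁻ s, (ENNReal.ofReal (EE s n (tf x0 (4 * x))) +
              (ENNReal.ofReal (2 * (n + 1)) * ∑' l, ENNReal.ofReal (dd s l) +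
              ENNReal.ofReal (((x0 : ℝ) ^ 2 - 8 * x0) + eps x))) ∂ν := by
          have hm3 : Measurable fun s : ℕ → ℝ => ENNReal.ofReal (2 * (n + 1)) *
              ∑' l, ENNReal.ofReal (dd s l) + ENNReal.ofReal (((x0 : ℝ) ^ 2 - 8 * x0) + eps x) :=
            (hm2.const_mul _).add measurable_const
          rw [lintegral_add_right _ hm3,
            lintegral_add_right _ measurable_const, lintegral_const_mul _ hm2, hKK]
          simp [del]
        rw [e1, e2]
        refine lintegral_mono_ae ?_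
        filter_upwards [hA, hfin] with s hs hf
        have h1 := EE_tf_mid hs _ (hDt s hs hf) h80 hx n hnx
        have h2 := EE_tf_nonneg hs h80 hx n
        have h3 : 0 ≤ ∑ l ∈ range (n + 1), dd s l := sum_nonneg fun l _ => dd_nonneg hs l
        have h4 := eps_nonneg x
        rw [sum_dd hs, ← ENNReal.ofReal_toReal hf.ne, ← ENNReal.ofReal_mul (by norm_num),
          ← ENNReal.ofReal_mul (by positivity), ← ENNReal.ofReal_add hA0 (by positivity),
          ← ENNReal.ofReal_add (by positivity) (by linarith),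
          ← ENNReal.ofReal_add h2 (by positivity)]
        exact ENNReal.ofReal_le_ofReal (by linarith)
      -- to the reals
      obtain ⟨kt, hkt0, hkt⟩ : ∃ kt : ℝ, 0 ≤ kt ∧
          KK ν (fun f => ENNReal.ofReal (tf x0 (4 * x) f)) n = ENNReal.ofReal kt :=
        ⟨_, ENNReal.toReal_nonneg, (ENNReal.ofReal_toReal hKt).symm⟩
      have h7 := hx1 (n + 1) (by have := le_max_left x1 8; omega)
      set S : ℝ := (∑ l ∈ range (n + 1), ee ν l).toReal with hS
      have hSeq : ∑ l ∈ range (n + 1), ee ν l = ENNReal.ofReal S :=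
        (ENNReal.ofReal_toReal (sum_ee_ne_top ν hA _)).symm
      have hS0 : 0 ≤ S := ENNReal.toReal_nonneg
      have he := eps_nonneg x
      rw [hkt, hSeq, hDeq, ← ENNReal.ofReal_mul (by norm_num), ← ENNReal.ofReal_mul (by positivity),
        ← ENNReal.ofReal_add hA0 (by positivity), ← ENNReal.ofReal_add (by positivity) (by linarith),
        ← ENNReal.ofReal_add hkt0 (by positivity)] at key
      have key2 := (ENNReal.ofReal_le_ofReal_iff (by positivity)).mp key
      rw [hkt, ← ENNReal.ofReal_add hkt0 he]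
      apply ENNReal.ofReal_le_ofReal
      have h8 := tf_upper (x0 := x0) (a := 4 * x) n hn0.le
      nlinarith [mul_nonneg (by linarith : (0 : ℝ) ≤ 2 - D) (by linarith : (0 : ℝ) ≤ 2 * n - 5)]
    · rw [if_pos (by omega), mul_one]
      have hi0 := inc_nonneg h80 hx n
      have hi1 := inc_le (x0 := x0) (a := 4 * x) n
      have ht0 := tf_nonneg h80 hx n
      have key : ENNReal.ofReal (tf x0 (4 * x) n + inc x0 (4 * x) n) ≤
          KK ν (fun f => ENNReal.ofReal (tf x0 (4 * x) f)) n +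
            ENNReal.ofReal (inc x0 (4 * x) n) * del ν := by
        have hm2 : Measurable fun s : ℕ → ℝ => ∑' l, ENNReal.ofReal (dd s l) :=
          Measurable.tsum fun l => measurable_dd l
        have e1 : ENNReal.ofReal (tf x0 (4 * x) n + inc x0 (4 * x) n) =
            ∫⁻ _, ENNReal.ofReal (tf x0 (4 * x) n + inc x0 (4 * x) n) ∂ν := by simp
        have e2 : KK ν (fun f => ENNReal.ofReal (tf x0 (4 * x) f)) n +
            ENNReal.ofReal (inc x0 (4 * x) n) * del ν =
            ∫⁻ s, (ENNReal.ofReal (EE s n (tf x0 (4 * x))) +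
              ENNReal.ofReal (inc x0 (4 * x) n) * ∑' l, ENNReal.ofReal (dd s l)) ∂ν := by
          rw [lintegral_add_right _ (hm2.const_mul _), lintegral_const_mul _ hm2, hKK]
          rfl
        rw [e1, e2]
        refine lintegral_mono_ae ?_
        filter_upwards [hA, hfin] with s hs hf
        have h1 := EE_tf_gen hs _ (hDt s hs hf) h80 hx n
        have h2 := EE_tf_nonneg hs h80 hx n
        have h3 : 0 ≤ (∑' l, ENNReal.ofReal (dd s l)).toReal := ENNReal.toReal_nonneg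
        rw [← ENNReal.ofReal_toReal hf.ne, ← ENNReal.ofReal_mul hi0,
          ← ENNReal.ofReal_add h2 (mul_nonneg hi0 h3)]
        exact ENNReal.ofReal_le_ofReal (by linarith)
      obtain ⟨kt, hkt0, hkt⟩ : ∃ kt : ℝ, 0 ≤ kt ∧
          KK ν (fun f => ENNReal.ofReal (tf x0 (4 * x) f)) n = ENNReal.ofReal kt :=
        ⟨_, ENNReal.toReal_nonneg, (ENNReal.ofReal_toReal hKt).symm⟩
      rw [hkt, hDeq, ← ENNReal.ofReal_mul hi0, ← ENNReal.ofReal_add hkt0 (mul_nonneg hi0 hD0)] at key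
      have key2 := (ENNReal.ofReal_le_ofReal_iff (by positivity)).mp key
      have he := eps_nonneg x
      rw [hkt, ← ENNReal.ofReal_add hkt0 he, ← ENNReal.ofReal_add (by positivity) (by positivity)]
      apply ENNReal.ofReal_le_ofReal
      push_cast at hi1
      nlinarith [mul_le_mul_of_nonneg_left hD2 hi0]

end Q169.CW
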