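import Pool.Agent.Q169.CW.Anneal

/-!
The chain of the numbers of down-steps.
-/

namespace Q169.CW

open Finset Filter Topology MeasureTheory
open scoped ENNReal

variable (ν : Measure (ℕ → ℝ)) [IsProbabilityMeasure ν]

/-- Expectation under the law of the chain at time `i`. -/
noncomputable def Lw (i : ℕ) (G : ℕ → ℝ≥0∞) : ℝ≥0∞ := ∫⁻ ω, G (ch (af ω) 0 i) ∂(PP ν)

theorem Lw_zero (G : ℕ → ℝ≥0∞) : Lw ν 0 G = G 0 := by
  unfold Lw
  simp [ch]

theorem Lw_succ (i : ℕ) (G : ℕ → ℝ≥0∞) : Lw ν (i + 1) G = Lw ν i (KK ν G) := lintegral_ch ν G 0 i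

theorem Lw_eq (k : ℤ) (i : ℕ) (G : ℕ → ℝ≥0∞) :
    ∫⁻ ω, G (ch (af ω) k i) ∂(PP ν) = Lw ν i G := lintegral_ch_eq ν G k i

theorem Lw_mono (i : ℕ) {G H : ℕ → ℝ≥0∞} (h : ∀ n, G n ≤ H n) : Lw ν i G ≤ Lw ν i H :=
  lintegral_mono fun _ => h _

theorem measurable_G (G : ℕ → ℝ≥0∞) (k : ℤ) (i : ℕ) :
    Measurable fun ω : ℤ → (ℕ → ℝ) × (ℕ → ℝ) => G (ch (af ω) k i) :=
  (Measurable.of_discrete (f := G)).comp (measurable_ch k i)

theorem Lw_add (i : ℕ) (G H : ℕ → ℝ≥0∞) :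
    Lw ν i (fun n => G n + H n) = Lw ν i G + Lw ν i H :=
  lintegral_add_right _ (measurable_G H 0 i)

theorem Lw_const_mul (i : ℕ) (c : ℝ≥0∞) (G : ℕ → ℝ≥0∞) :
    Lw ν i (fun n => c * G n) = c * Lw ν i G :=
  lintegral_const_mul _ (measurable_G G 0 i)

theorem Lw_const (i : ℕ) (c : ℝ≥0∞) : Lw ν i (fun _ => c) = c := by
  unfold Lw
  simp

theorem Lw_one_le (hA : ∀ᵐ s ∂ν, Adm s) (i : ℕ) : Lw ν i (fun f => (f : ℝ≥0∞)) ≤ i := by
  induction i with
  | zero => rw [Lw_zero]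
  | succ i ih =>
    rw [Lw_succ]
    refine (Lw_mono ν i (KK_one_le ν hA)).trans ?_
    rw [Lw_add, Lw_const]
    push_cast
    gcongr

theorem Lw_sq_le (hA : ∀ᵐ s ∂ν, Adm s) (i : ℕ) :
    Lw ν i (fun f => (f : ℝ≥0∞) ^ 2) ≤ ((2 * i ^ 2 + i : ℕ) : ℝ≥0∞) := by
  induction i with
  | zero => rw [Lw_zero]; simp
  | succ i ih =>
    rw [Lw_succ]
    have h1 : ∀ n : ℕ, KK ν (fun f => (f : ℝ≥0∞) ^ 2) n ≤ ((n : ℝ≥0∞) ^ 2 + 4 * n) + 3 := by
      intro n
      refine (KK_sq_le ν hA n).trans ?_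
      have : ((n : ℝ) + 1) * (n + 3) = ((n ^ 2 + 4 * n + 3 : ℕ) : ℝ) := by push_cast; ring
      rw [this, ENNReal.ofReal_natCast]
      push_cast
      exact le_rfl
    refine (Lw_mono ν i h1).trans ?_
    rw [Lw_add, Lw_add, Lw_const, Lw_const_mul]
    calc Lw ν i (fun f => (f : ℝ≥0∞) ^ 2) + 4 * Lw ν i (fun f => (f : ℝ≥0∞)) + 3
        ≤ ((2 * i ^ 2 + i : ℕ) : ℝ≥0∞) + 4 * i + 3 := by
          gcongr
          exact Lw_one_le ν hA i
      _ = ((2 * (i + 1) ^ 2 + (i + 1) : ℕ) : ℝ≥0∞) := by push_cast; ring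

section Super

/-- The sum of the first moments. -/
theorem sum_first (c C : ℝ) (h : ∀ n : ℕ,
      KK ν (fun f => (f : ℝ≥0∞) ^ 2) n + ENNReal.ofReal c * n ≤ (n : ℝ≥0∞) ^ 2 + ENNReal.ofReal C)
    (k : ℕ) : Lw ν k (fun f => (f : ℝ≥0∞) ^ 2) +
      ENNReal.ofReal c * ∑ i ∈ range k, Lw ν i (fun f => (f : ℝ≥0∞)) ≤ k * ENNReal.ofReal C := by
  induction k with
  | zero => rw [Lw_zero]; simp
  | succ k ih =>
    have h1 := Lw_mono ν k h
    rw [Lw_add, Lw_add, Lw_const, Lw_const_mul, ← Lw_succ] at h1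
    rw [sum_range_succ, mul_add]
    calc Lw ν (k + 1) (fun f => (f : ℝ≥0∞) ^ 2) +
          (ENNReal.ofReal c * ∑ i ∈ range k, Lw ν i (fun f => (f : ℝ≥0∞)) +
            ENNReal.ofReal c * Lw ν k (fun f => (f : ℝ≥0∞)))
        = (Lw ν (k + 1) (fun f => (f : ℝ≥0∞) ^ 2) +
            ENNReal.ofReal c * Lw ν k (fun f => (f : ℝ≥0∞))) +
            ENNReal.ofReal c * ∑ i ∈ range k, Lw ν i (fun f => (f : ℝ≥0∞)) := by ring
      _ ≤ (Lw ν k (fun f => (f : ℝ≥0∞) ^ 2) + ENNReal.ofReal C) +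
            ENNReal.ofReal c * ∑ i ∈ range k, Lw ν i (fun f => (f : ℝ≥0∞)) := by gcongr
      _ = (Lw ν k (fun f => (f : ℝ≥0∞) ^ 2) +
            ENNReal.ofReal c * ∑ i ∈ range k, Lw ν i (fun f => (f : ℝ≥0∞))) +
            ENNReal.ofReal C := by ring
      _ ≤ k * ENNReal.ofReal C + ENNReal.ofReal C := by gcongr
      _ = ((k + 1 : ℕ) : ℝ≥0∞) * ENNReal.ofReal C := by push_cast; ring

theorem ae_rich_all (hA : ∀ᵐ s ∂ν, Adm s) :
    ∀ᵐ ω ∂(PP ν), ∀ z n, ∃ m, n < tr (af ω z) m := by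
  rw [ae_all_iff]
  intro z
  have h1 : ∀ᵐ x ∂(site ν), ∀ n, ∃ m, n < tr (ar x.1 x.2) m := by
    unfold site
    have hms : MeasurableSet {x : (ℕ → ℝ) × (ℕ → ℝ) | ∀ n, ∃ m, n < tr (ar x.1 x.2) m} := by
      have : {x : (ℕ → ℝ) × (ℕ → ℝ) | ∀ n, ∃ m, n < tr (ar x.1 x.2) m} =
          ⋂ n, ⋃ m, {x : (ℕ → ℝ) × (ℕ → ℝ) | n < tr (ar x.1 x.2) m} := by
        ext x
        simp
      rw [this]
      exact MeasurableSet.iInter fun n => MeasurableSet.iUnion fun m =>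
        ((measurable_tr m).comp measurable_ar) (measurableSet_Ioi (a := n))
    rw [Measure.ae_prod_iff_ae_ae hms]
    filter_upwards [hA] with s hs
    exact ae_rich hs
  exact (measurePreserving_eval_infinitePi (fun _ : ℤ => site ν) z).quasiMeasurePreserving.ae h1

/-- For `δ > 2` the walk hits distant points in linear time with positive probability. -/
theorem super (hA : ∀ᵐ s ∂ν, Adm s) (hd : 2 < del ν) :
    ∃ (B : ℕ) (p : ℝ≥0∞), p ≠ 0 ∧ ∃ᶠ k : ℕ in atTop,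
      p ≤ PP ν {ω | ∃ m ≤ B * k, pos (af ω) m = k} := by
  obtain ⟨c, C, hc, hC, hKK⟩ := KK_sq_drift ν hA hd
  -- bounds for the sums of the first moments
  have hS : ∀ k : ℕ, ∑ i ∈ range k, Lw ν i (fun f => (f : ℝ≥0∞)) ≤
      k * ENNReal.ofReal (C / c) := by
    intro k
    have h1 := (le_add_self).trans (sum_first ν c C hKK k)
    have hc' : ENNReal.ofReal c ≠ 0 := by simpa using hc
    rw [mul_comm, ← ENNReal.le_div_iff_mul_le (Or.inl hc') (Or.inl ENNReal.ofReal_ne_top)] at h1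
    rwa [mul_div_assoc, ← ENNReal.ofReal_div_of_pos hc] at h1
  set C1 : ℝ := C / c with hC1
  have hC1p : 0 < C1 := div_pos hC hc
  have hC1' : ENNReal.ofReal C1 ≠ 0 := by simpa using hC1p
  -- infinitely many times with a small first moment
  have hfreq : ∃ᶠ i : ℕ in atTop, Lw ν i (fun f => (f : ℝ≥0∞)) ≤ 2 * ENNReal.ofReal C1 := by
    rw [frequently_atTop]
    intro K0
    by_contra hcon
    push Not at hcon
    have h1 := hS (2 * K0 + 1)
    have h2 : ((K0 + 1 : ℕ) : ℝ≥0∞) * (2 * ENNReal.ofReal C1) ≤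
        ∑ i ∈ range (2 * K0 + 1), Lw ν i (fun f => (f : ℝ≥0∞)) := by
      calc ((K0 + 1 : ℕ) : ℝ≥0∞) * (2 * ENNReal.ofReal C1)
          = ∑ i ∈ Ico K0 (2 * K0 + 1), 2 * ENNReal.ofReal C1 := by
            rw [sum_const, Nat.card_Ico, nsmul_eq_mul]
            congr 2
            omega
        _ ≤ ∑ i ∈ Ico K0 (2 * K0 + 1), Lw ν i (fun f => (f : ℝ≥0∞)) :=
            sum_le_sum fun i hi => (hcon i (mem_Ico.mp hi).1).le
        _ ≤ _ := sum_le_sum_of_subset fun i hi => by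
            have := mem_Ico.mp hi
            exact mem_range.mpr this.2
    have h3 := h2.trans h1
    rw [← mul_assoc, ENNReal.mul_le_mul_iff_left hC1' ENNReal.ofReal_ne_top] at h3
    have h4 : (K0 + 1) * 2 ≤ 2 * K0 + 1 := by exact_mod_cast h3
    omega
  obtain ⟨R, hR⟩ := exists_nat_ge (4 * C1)
  have hR0 : 0 < R := by
    have : (0 : ℝ) < R := lt_of_lt_of_le (by positivity) hR
    exact_mod_cast this
  set q : ℝ := (1 / 2) ^ (R + 1) with hq
  have hq0 : 0 < q := by positivity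
  obtain ⟨B, hB⟩ := exists_nat_ge (4 * C1 / q)
  have hB0 : 0 < B := by
    have : (0 : ℝ) < B := lt_of_lt_of_le (by positivity) hB
    exact_mod_cast this
  refine ⟨1 + 2 * B, ENNReal.ofReal (q / 4), by simpa using hq0, ?_⟩
  have hshift : ∃ᶠ k : ℕ in atTop, 1 ≤ k ∧ Lw ν (k - 1) (fun f => (f : ℝ≥0∞)) ≤
      2 * ENNReal.ofReal C1 := by
    rw [frequently_atTop] at hfreq ⊢
    intro K0
    obtain ⟨i, hi, h⟩ := hfreq K0
    exact ⟨i + 1, by omega, by omega, by simpa using h⟩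
  refine hshift.mono fun k hk => ?_
  obtain ⟨hk1, hk⟩ := hk
  obtain ⟨i, rfl⟩ : ∃ i, k = i + 1 := ⟨k - 1, by omega⟩
  rw [Nat.add_sub_cancel] at hk
  -- the chain is below `R` at time `i` with probability at least one half
  have hR1 : ENNReal.ofReal (1 / 2) ≤ Lw ν i (fun f => if f < R then 1 else 0) := by
    have h1 : Lw ν i (fun f => if R ≤ f then 1 else 0) ≤ ENNReal.ofReal (1 / 2) := by
      have h2 : (R : ℝ≥0∞) * Lw ν i (fun f => if R ≤ f then 1 else 0) ≤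
          Lw ν i (fun f => (f : ℝ≥0∞)) := by
        rw [← Lw_const_mul]
        refine Lw_mono ν i fun n => ?_
        split_ifs with h
        · rw [mul_one]; exact_mod_cast h
        · simp
      have h3 := h2.trans hk
      have h4 : (2 : ℝ≥0∞) * ENNReal.ofReal C1 ≤ R * ENNReal.ofReal (1 / 2) := by
        rw [← ENNReal.ofReal_natCast, ← ENNReal.ofReal_mul (Nat.cast_nonneg R)]
        have : (2 : ℝ≥0∞) = ENNReal.ofReal 2 := by simp
        rw [this, ← ENNReal.ofReal_mul (by norm_num)]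
        exact ENNReal.ofReal_le_ofReal (by linarith)
      have h5 := h3.trans h4
      rwa [ENNReal.mul_le_mul_iff_right (by exact_mod_cast hR0.ne') (ENNReal.natCast_ne_top R)] at h5
    have h2 : Lw ν i (fun f => if f < R then 1 else 0) + Lw ν i (fun f => if R ≤ f then 1 else 0) =
        1 := by
      rw [← Lw_add]
      have : (fun n : ℕ => (if n < R then 1 else 0 : ℝ≥0∞) + (if R ≤ n then 1 else 0)) =
          fun _ => 1 := by
        funext n
        rcases Nat.lt_or_ge n R with h | h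
        · rw [if_pos h, if_neg (by omega), add_zero]
        · rw [if_neg (by omega), if_pos h, zero_add]
      rw [this, Lw_const]
    have h3 : (1 : ℝ≥0∞) ≤ Lw ν i (fun f => if f < R then 1 else 0) + ENNReal.ofReal (1 / 2) := by
      exact h2.symm.le.trans (add_le_add le_rfl h1)
    have h4 : ENNReal.ofReal (1 / 2) + ENNReal.ofReal (1 / 2) = 1 := by
      rw [← ENNReal.ofReal_add (by norm_num) (by norm_num)]; norm_num
    exact (ENNReal.add_le_add_iff_right ENNReal.ofReal_ne_top).mp (h4.le.trans h3)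
  -- the chain is zero at time `i + 1` with probability at least `q / 2`
  have hz : ENNReal.ofReal (q / 2) ≤ PP ν {ω | ch (af ω) (i + 1 : ℕ) (i + 1) = 0} := by
    have hms : MeasurableSet {ω : ℤ → (ℕ → ℝ) × (ℕ → ℝ) | ch (af ω) (i + 1 : ℕ) (i + 1) = 0} :=
      (measurable_ch _ _) (measurableSet_singleton 0)
    have h1 : PP ν {ω | ch (af ω) (i + 1 : ℕ) (i + 1) = 0} =
        Lw ν (i + 1) (fun f => if f = 0 then 1 else 0) := by
      rw [← Lw_eq ν (i + 1 : ℕ) (i + 1), ← lintegral_indicator_one hms]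
      refine lintegral_congr fun ω => ?_
      by_cases h : ch (af ω) (i + 1 : ℕ) (i + 1) = 0
      · have h' : ω ∈ {ω | ch (af ω) (i + 1 : ℕ) (i + 1) = 0} := h
        rw [Set.indicator_of_mem h', if_pos h]; rfl
      · have h' : ω ∉ {ω | ch (af ω) (i + 1 : ℕ) (i + 1) = 0} := h
        rw [Set.indicator_of_notMem h', if_neg h]
    rw [h1, Lw_succ]
    calc ENNReal.ofReal (q / 2) = ENNReal.ofReal q * ENNReal.ofReal (1 / 2) := by
          rw [← ENNReal.ofReal_mul hq0.le]; congr 1; ring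
      _ ≤ ENNReal.ofReal q * Lw ν i (fun f => if f < R then 1 else 0) := by gcongr
      _ = Lw ν i (fun f => ENNReal.ofReal q * (if f < R then 1 else 0)) := (Lw_const_mul _ _ _ _).symm
      _ ≤ _ := by
          refine Lw_mono ν i fun n => ?_
          split_ifs with h
          · rw [mul_one]
            refine le_trans (ENNReal.ofReal_le_ofReal ?_) (KK_zero_ge ν hA n)
            exact pow_le_pow_of_le_one (by norm_num) (by norm_num) (by omega)
          · simp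
  -- the sum is small
  set bad : Set (ℤ → (ℕ → ℝ) × (ℕ → ℝ)) :=
    {ω | ((B * (i + 1) : ℕ) : ℝ≥0∞) ≤ ∑ j ∈ range (i + 1), (ch (af ω) (i + 1 : ℕ) j : ℝ≥0∞)} with hbad
  have hmeas : Measurable fun ω : ℤ → (ℕ → ℝ) × (ℕ → ℝ) =>
      ∑ j ∈ range (i + 1), (ch (af ω) (i + 1 : ℕ) j : ℝ≥0∞) :=
    Finset.measurable_fun_sum _ fun j _ => measurable_G (fun f => (f : ℝ≥0∞)) _ _
  have hbadP : PP ν bad ≤ ENNReal.ofReal (q / 4) := by
    have h1 := mul_meas_ge_le_lintegral hmeas ((B * (i + 1) : ℕ) : ℝ≥0∞) (μ := PP ν)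
    rw [lintegral_finsetSum] at h1
    · have h2 : ∑ j ∈ range (i + 1), ∫⁻ ω, (ch (af ω) (i + 1 : ℕ) j : ℝ≥0∞) ∂(PP ν) ≤
          ((i + 1 : ℕ) : ℝ≥0∞) * ENNReal.ofReal C1 := by
        refine le_trans (le_of_eq (sum_congr rfl fun j _ => ?_)) (hS (i + 1))
        exact Lw_eq ν (i + 1 : ℕ) j fun f => (f : ℝ≥0∞)
      have h3 := h1.trans h2
      have h4 : ((i + 1 : ℕ) : ℝ≥0∞) * ENNReal.ofReal C1 ≤
          ((B * (i + 1) : ℕ) : ℝ≥0∞) * ENNReal.ofReal (q / 4) := by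
        rw [← ENNReal.ofReal_natCast, ← ENNReal.ofReal_natCast, ← ENNReal.ofReal_mul (by positivity),
          ← ENNReal.ofReal_mul (by positivity)]
        apply ENNReal.ofReal_le_ofReal
        have h5 : 4 * C1 ≤ B * q := by
          rwa [div_le_iff₀ hq0] at hB
        push_cast
        have h6 : (0 : ℝ) ≤ (i : ℝ) + 1 := by positivity
        nlinarith
      have h5 := h3.trans h4
      have h6 : ((B * (i + 1) : ℕ) : ℝ≥0∞) ≠ 0 := by
        have : B * (i + 1) ≠ 0 := Nat.mul_ne_zero hB0.ne' (Nat.succ_ne_zero i)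
        exact_mod_cast this
      exact (ENNReal.mul_le_mul_iff_right h6 (ENNReal.natCast_ne_top _)).mp h5
    · exact fun j _ => measurable_G (fun f => (f : ℝ≥0∞)) _ _
  -- conclusion
  have hincl : {ω | ch (af ω) (i + 1 : ℕ) (i + 1) = 0} ≤ᵐ[PP ν]
      (bad ∪ {ω | ∃ m ≤ (1 + 2 * B) * (i + 1), pos (af ω) m = (i + 1 : ℕ)} :
        Set (ℤ → (ℕ → ℝ) × (ℕ → ℝ))) := by
    filter_upwards [ae_rich_all ν hA] with ω hω h0
    by_cases hb : ω ∈ bad
    · exact Or.inl hb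
    · right
      obtain ⟨m, hm, hpos⟩ := hits (a := af ω) (k := i + 1) (by omega) hω h0
      refine ⟨m, hm.trans ?_, hpos⟩
      have hb' : ¬ ((B * (i + 1) : ℕ) : ℝ≥0∞) ≤
        ∑ j ∈ range (i + 1), (ch (af ω) (i + 1 : ℕ) j : ℝ≥0∞) := hb
      push Not at hb'
      have h7 : ∑ j ∈ range (i + 1), ch (af ω) (i + 1 : ℕ) j < B * (i + 1) := by
        exact_mod_cast hb'
      nlinarith
  have h8 := (measure_mono_ae hincl).trans (measure_union_le _ _)
  have h9 : ENNReal.ofReal (q / 2) ≤ ENNReal.ofReal (q / 4) +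
      PP ν {ω | ∃ m ≤ (1 + 2 * B) * (i + 1), pos (af ω) m = (i + 1 : ℕ)} :=
    hz.trans (h8.trans (by gcongr))
  have h10 : ENNReal.ofReal (q / 2) = ENNReal.ofReal (q / 4) + ENNReal.ofReal (q / 4) := by
    rw [← ENNReal.ofReal_add (by positivity) (by positivity)]; congr 1; ring
  rw [h10] at h9
  exact (ENNReal.add_le_add_iff_left ENNReal.ofReal_ne_top).mp h9

end Super

end Q169.CW
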