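import Pool.Agent.Q169.CW.Chain

/-!
The chain for `δ ≤ 2`: the walk does not have positive speed.
-/

namespace Q169.CW

open Finset Filter Topology MeasureTheory
open scoped ENNReal

theorem measurable_arrow {Ω : Type*} [MeasurableSpace Ω] {a : Ω → ℤ → ℕ → Bool}
    (ha : ∀ z i, Measurable fun ω => a ω z i) {p : Ω → ℤ} {c : Ω → ℕ} (hp : Measurable p)
    (hc : Measurable c) : Measurable fun ω => a ω (p ω) (c ω) := by
  have h : Measurable fun q : (ℤ × ℕ) × Ω => a q.2 q.1.1 q.1.2 :=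
    measurable_from_prod_countable_right fun zi => ha zi.1 zi.2
  exact h.comp ((hp.prodMk hc).prodMk measurable_id)

theorem measurable_st {Ω : Type*} [MeasurableSpace Ω] {a : Ω → ℤ → ℕ → Bool}
    (ha : ∀ z i, Measurable fun ω => a ω z i) (n : ℕ) :
    (Measurable fun ω => pos (a ω) n) ∧ ∀ z, Measurable fun ω => cnt (a ω) n z := by
  induction n with
  | zero => exact ⟨measurable_const, fun _ => measurable_const⟩
  | succ n ih =>
    obtain ⟨h1, h2⟩ := ih
    have h3 : Measurable fun ω => cnt (a ω) n (pos (a ω) n) := by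
      have h : Measurable fun q : ℤ × Ω => cnt (a q.2) n q.1 :=
        measurable_from_prod_countable_right fun z => h2 z
      exact h.comp (h1.prodMk measurable_id)
    constructor
    · simp only [pos_succ]
      have h4 : Measurable fun ω => (if a ω (pos (a ω) n) (cnt (a ω) n (pos (a ω) n))
          then 1 else -1 : ℤ) :=
        (Measurable.of_discrete (f := fun c : Bool => (if c then 1 else -1 : ℤ))).comp
          (measurable_arrow ha h1 h3)
      exact h1.add h4
    · intro z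
      simp only [cnt_succ_apply]
      have h4 : Measurable fun ω => (if pos (a ω) n = z then 1 else 0 : ℕ) :=
        (Measurable.of_discrete (f := fun y : ℤ => (if y = z then 1 else 0 : ℕ))).comp h1
      exact (h2 z).add h4

theorem measurable_af' (z : ℤ) (i : ℕ) :
    Measurable fun ω : ℤ → (ℕ → ℝ) × (ℕ → ℝ) => af ω z i :=
  (measurable_pi_apply i).comp (measurable_af z)

theorem measurable_pos (n : ℕ) :
    Measurable fun ω : ℤ → (ℕ → ℝ) × (ℕ → ℝ) => pos (af ω) n :=
  (measurable_st (a := af) measurable_af' n).1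

theorem measurable_cnt (n : ℕ) (z : ℤ) :
    Measurable fun ω : ℤ → (ℕ → ℝ) × (ℕ → ℝ) => cnt (af ω) n z :=
  (measurable_st (a := af) measurable_af' n).2 z

variable (ν : Measure (ℕ → ℝ)) [IsProbabilityMeasure ν]

/-- The event that the walk is slow. -/
def bad (C k : ℕ) : Set (ℤ → (ℕ → ℝ) × (ℕ → ℝ)) := {ω | pos (af ω) (C * k) < k}

theorem measurableSet_bad (C k : ℕ) : MeasurableSet (bad C k) :=
  (measurable_pos _) (measurableSet_Iio (a := (k : ℤ)))

/-- Occupation sums are bounded by the time. -/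
theorem occ_le (C k A : ℕ) (φ : ℕ → ℕ) (h1 : ∀ v, φ v ≤ v) (h2 : ∀ v, φ v ≤ A) :
    ∑ i ∈ range k, Lw ν i (fun f => (φ f : ℝ≥0∞)) ≤
      ((C * k : ℕ) : ℝ≥0∞) + ((k * A : ℕ) : ℝ≥0∞) * PP ν (bad C k) := by
  have e1 : ∑ i ∈ range k, Lw ν i (fun f => (φ f : ℝ≥0∞)) =
      ∫⁻ ω, ∑ i ∈ range k, (φ (ch (af ω) k i) : ℝ≥0∞) ∂(PP ν) := by
    rw [lintegral_finsetSum]
    · exact sum_congr rfl fun i _ => (Lw_eq ν k i fun f => (φ f : ℝ≥0∞)).symm
    · exact fun i _ => measurable_G (fun f => (φ f : ℝ≥0∞)) _ _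
  have e2 : ((C * k : ℕ) : ℝ≥0∞) + ((k * A : ℕ) : ℝ≥0∞) * PP ν (bad C k) =
      ∫⁻ ω, (((C * k : ℕ) : ℝ≥0∞) + (bad C k).indicator (fun _ => ((k * A : ℕ) : ℝ≥0∞)) ω)
        ∂(PP ν) := by
    rw [lintegral_add_right _ (measurable_const.indicator (measurableSet_bad C k)),
      lintegral_indicator_const (measurableSet_bad C k)]
    simp
  rw [e1, e2]
  refine lintegral_mono fun ω => ?_
  simp only
  by_cases hb : ω ∈ bad C k
  · rw [Set.indicator_of_mem hb]
    refine le_trans ?_ le_add_self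
    calc ∑ i ∈ range k, (φ (ch (af ω) k i) : ℝ≥0∞) ≤ ∑ i ∈ range k, (A : ℝ≥0∞) :=
          sum_le_sum fun i _ => by exact_mod_cast h2 _
      _ = ((k * A : ℕ) : ℝ≥0∞) := by rw [sum_const, card_range, nsmul_eq_mul]; push_cast; ring
  · rw [Set.indicator_of_notMem hb, add_zero]
    have hb' : (k : ℤ) ≤ pos (af ω) (C * k) := by
      have : ¬ pos (af ω) (C * k) < k := hb
      exact not_lt.mp this
    have h3 := sum_ch_le hb'
    have h4 : ∑ i ∈ range k, ch (af ω) k i ≤ ∑ i ∈ range k, ch (af ω) k (i + 1) := by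
      have h5 := sum_range_succ (ch (af ω) k) k
      have h6 := sum_range_succ' (ch (af ω) k) k
      have h7 : ch (af ω) k 0 = 0 := rfl
      omega
    have h5 : ∑ i ∈ range k, φ (ch (af ω) k i) ≤ C * k :=
      (sum_le_sum fun i _ => h1 _).trans (h4.trans h3)
    exact_mod_cast h5

/-- The first moment at time `k`. -/
theorem first_le (hA : ∀ᵐ s ∂ν, Adm s) (C k J : ℕ) :
    ((4 * J * k : ℕ) : ℝ≥0∞) * Lw ν k (fun f => (f : ℝ≥0∞)) ≤
      ((4 * J * k : ℕ) : ℝ≥0∞) * ∑ m ∈ range (C * k), PP ν {ω | pos (af ω) m = 0} +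
        ((2 * k ^ 2 + k : ℕ) : ℝ≥0∞) + (((2 * J * k) ^ 2 : ℕ) : ℝ≥0∞) * PP ν (bad C k) := by
  have e0 : Lw ν k (fun f => (f : ℝ≥0∞)) = ∫⁻ ω, (ch (af ω) k k : ℝ≥0∞) ∂(PP ν) :=
    (Lw_eq ν k k fun f => (f : ℝ≥0∞)).symm
  have e1 : ∑ m ∈ range (C * k), PP ν {ω | pos (af ω) m = 0} =
      ∫⁻ ω, (cnt (af ω) (C * k) 0 : ℝ≥0∞) ∂(PP ν) := by
    have h1 : ∀ ω : ℤ → (ℕ → ℝ) × (ℕ → ℝ), (cnt (af ω) (C * k) 0 : ℝ≥0∞) =
        ∑ m ∈ range (C * k), ({ω | pos (af ω) m = 0} : Set _).indicator (fun _ => 1) ω := by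
      intro ω
      rw [cnt_eq_sum]
      push_cast
      refine sum_congr rfl fun m _ => ?_
      by_cases h : pos (af ω) m = 0
      · have h' : ω ∈ {ω | pos (af ω) m = 0} := h
        rw [if_pos h, Set.indicator_of_mem h']
      · have h' : ω ∉ {ω | pos (af ω) m = 0} := h
        rw [if_neg h, Set.indicator_of_notMem h']
    have hms : ∀ m, MeasurableSet {ω : ℤ → (ℕ → ℝ) × (ℕ → ℝ) | pos (af ω) m = 0} := fun m =>
      (measurable_pos m) (measurableSet_singleton 0)
    simp only [h1]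
    rw [lintegral_finsetSum]
    · exact sum_congr rfl fun m _ => by rw [lintegral_indicator_const (hms m), one_mul]
    · exact fun m _ => measurable_const.indicator (hms m)
  have hmc : Measurable fun ω : ℤ → (ℕ → ℝ) × (ℕ → ℝ) => (cnt (af ω) (C * k) 0 : ℝ≥0∞) :=
    (Measurable.of_discrete (f := fun y : ℕ => (y : ℝ≥0∞))).comp (measurable_cnt _ _)
  have hmv : Measurable fun ω : ℤ → (ℕ → ℝ) × (ℕ → ℝ) => (ch (af ω) k k : ℝ≥0∞) :=
    measurable_G (fun f => (f : ℝ≥0∞)) _ _
  have hmv2 : Measurable fun ω : ℤ → (ℕ → ℝ) × (ℕ → ℝ) => (ch (af ω) k k : ℝ≥0∞) ^ 2 :=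
    measurable_G (fun f => (f : ℝ≥0∞) ^ 2) _ _
  have e3 : ∫⁻ ω, (ch (af ω) k k : ℝ≥0∞) ^ 2 ∂(PP ν) ≤ ((2 * k ^ 2 + k : ℕ) : ℝ≥0∞) :=
    (Lw_eq ν k k fun f => (f : ℝ≥0∞) ^ 2).le.trans (Lw_sq_le ν hA k)
  rw [e0, e1]
  have e4 : ((4 * J * k : ℕ) : ℝ≥0∞) * ∫⁻ ω, (cnt (af ω) (C * k) 0 : ℝ≥0∞) ∂(PP ν) +
      ∫⁻ ω, (ch (af ω) k k : ℝ≥0∞) ^ 2 ∂(PP ν) +
      (((2 * J * k) ^ 2 : ℕ) : ℝ≥0∞) * PP ν (bad C k) =
      ∫⁻ ω, (((4 * J * k : ℕ) : ℝ≥0∞) * (cnt (af ω) (C * k) 0 : ℝ≥0∞) +
        (ch (af ω) k k : ℝ≥0∞) ^ 2 +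
        (bad C k).indicator (fun _ => (((2 * J * k) ^ 2 : ℕ) : ℝ≥0∞)) ω) ∂(PP ν) := by
    rw [lintegral_add_right _ (measurable_const.indicator (measurableSet_bad C k)),
      lintegral_indicator_const (measurableSet_bad C k), lintegral_add_right _ hmv2,
      lintegral_const_mul _ hmc]
  calc ((4 * J * k : ℕ) : ℝ≥0∞) * ∫⁻ ω, (ch (af ω) k k : ℝ≥0∞) ∂(PP ν)
      = ∫⁻ ω, ((4 * J * k : ℕ) : ℝ≥0∞) * (ch (af ω) k k : ℝ≥0∞) ∂(PP ν) :=
        (lintegral_const_mul _ hmv).symm
    _ ≤ _ := by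
        refine lintegral_mono fun ω => ?_
        simp only
        by_cases hb : ω ∈ bad C k
        · rw [Set.indicator_of_mem hb]
          have h1 : 4 * J * k * ch (af ω) k k ≤ ch (af ω) k k ^ 2 + (2 * J * k) ^ 2 := by
            have := two_mul_le_add_sq (ch (af ω) k k) (2 * J * k)
            linarith
          have h2 : ((4 * J * k : ℕ) : ℝ≥0∞) * (ch (af ω) k k : ℝ≥0∞) ≤
              (ch (af ω) k k : ℝ≥0∞) ^ 2 + (((2 * J * k) ^ 2 : ℕ) : ℝ≥0∞) := by exact_mod_cast h1
          refine h2.trans ?_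
          rw [add_assoc]
          exact le_add_self
        · rw [Set.indicator_of_notMem hb, add_zero]
          have hb' : (k : ℤ) ≤ pos (af ω) (C * k) := by
            have : ¬ pos (af ω) (C * k) < k := hb
            exact not_lt.mp this
          have h1 := ch_le_cnt hb'
          refine le_trans ?_ le_self_add
          gcongr
    _ = _ := e4.symm
    _ ≤ _ := by gcongr

/-- The summed drift inequality. -/
theorem drift_sum {x0 : ℕ} {b : ℝ} {x : ℕ}
    (h : ∀ n : ℕ, ENNReal.ofReal (tf x0 (4 * x) n) + ENNReal.ofReal b * (if n ≤ x0 then 1 else 0) ≤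
        KK ν (fun f => ENNReal.ofReal (tf x0 (4 * x) f)) n + ENNReal.ofReal (eps x) +
          ENNReal.ofReal (8 * x) * (if x < n then 1 else 0)) (k : ℕ) :
    (k : ℝ≥0∞) * ENNReal.ofReal b ≤ Lw ν k (fun f => ENNReal.ofReal (tf x0 (4 * x) f)) +
      k * ENNReal.ofReal (eps x) +
      ENNReal.ofReal (8 * x) * ∑ i ∈ range k, Lw ν i (fun n => if x < n then 1 else 0) +
      ENNReal.ofReal b * ∑ i ∈ range k, Lw ν i (fun n => if x0 < n then 1 else 0) := by
  have h' : ∀ n : ℕ, ENNReal.ofReal (tf x0 (4 * x) n) + ENNReal.ofReal b ≤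
      (KK ν (fun f => ENNReal.ofReal (tf x0 (4 * x) f)) n + ENNReal.ofReal (eps x) +
        ENNReal.ofReal (8 * x) * (if x < n then 1 else 0)) +
        ENNReal.ofReal b * (if x0 < n then 1 else 0) := by
    intro n
    have h1 := add_le_add (h n) (le_refl (ENNReal.ofReal b * (if x0 < n then 1 else 0)))
    refine le_trans (le_of_eq ?_) h1
    rw [add_assoc, ← mul_add]
    congr 1
    by_cases hn : n ≤ x0
    · rw [if_pos hn, if_neg (by omega), add_zero, mul_one]
    · rw [if_neg hn, if_pos (by omega), zero_add, mul_one]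
  induction k with
  | zero => simp
  | succ k ih =>
    have h2 := Lw_mono ν k h'
    rw [Lw_add, Lw_const, Lw_add, Lw_const_mul, Lw_add, Lw_const_mul, Lw_add, Lw_const,
      ← Lw_succ] at h2
    rw [sum_range_succ, sum_range_succ, mul_add, mul_add]
    calc ((k + 1 : ℕ) : ℝ≥0∞) * ENNReal.ofReal b =
          k * ENNReal.ofReal b + ENNReal.ofReal b := by push_cast; ring
      _ ≤ (Lw ν k (fun f => ENNReal.ofReal (tf x0 (4 * x) f)) +
            k * ENNReal.ofReal (eps x) +
            ENNReal.ofReal (8 * x) * ∑ i ∈ range k, Lw ν i (fun n => if x < n then 1 else 0) +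
            ENNReal.ofReal b * ∑ i ∈ range k, Lw ν i (fun n => if x0 < n then 1 else 0)) +
            ENNReal.ofReal b := by gcongr
      _ = (Lw ν k (fun f => ENNReal.ofReal (tf x0 (4 * x) f)) + ENNReal.ofReal b) +
            (k * ENNReal.ofReal (eps x) +
            ENNReal.ofReal (8 * x) * ∑ i ∈ range k, Lw ν i (fun n => if x < n then 1 else 0) +
            ENNReal.ofReal b * ∑ i ∈ range k, Lw ν i (fun n => if x0 < n then 1 else 0)) := by ring
      _ ≤ (Lw ν (k + 1) (fun f => ENNReal.ofReal (tf x0 (4 * x) f)) + ENNReal.ofReal (eps x) +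
            ENNReal.ofReal (8 * x) * Lw ν k (fun n => if x < n then 1 else 0) +
            ENNReal.ofReal b * Lw ν k (fun n => if x0 < n then 1 else 0)) +
            (k * ENNReal.ofReal (eps x) +
            ENNReal.ofReal (8 * x) * ∑ i ∈ range k, Lw ν i (fun n => if x < n then 1 else 0) +
            ENNReal.ofReal b * ∑ i ∈ range k, Lw ν i (fun n => if x0 < n then 1 else 0)) := by
          gcongr
      _ = _ := by push_cast; ring

theorem Lw_ind_le (i x : ℕ) : Lw ν i (fun n => if x < n then 1 else 0) ≤ 1 := by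
  refine (Lw_mono ν i (H := fun _ => 1) fun n => ?_).trans (Lw_const ν i 1).le
  split_ifs
  · exact le_rfl
  · exact zero_le_one

/-- The tail probabilities of the chain. -/
noncomputable def pr (i x : ℕ) : ℝ := (Lw ν i (fun n => if x < n then 1 else 0)).toReal

theorem pr_eq (i x : ℕ) : Lw ν i (fun n => if x < n then 1 else 0) = ENNReal.ofReal (pr ν i x) :=
  (ENNReal.ofReal_toReal (ne_top_of_le_ne_top ENNReal.one_ne_top (Lw_ind_le ν i x))).symm

theorem pr_nonneg (i x : ℕ) : 0 ≤ pr ν i x := ENNReal.toReal_nonneg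

/-- The first moments of the chain. -/
noncomputable def al (k : ℕ) : ℝ := (Lw ν k (fun f => (f : ℝ≥0∞))).toReal

theorem al_eq (hA : ∀ᵐ s ∂ν, Adm s) (k : ℕ) :
    Lw ν k (fun f => (f : ℝ≥0∞)) = ENNReal.ofReal (al ν k) :=
  (ENNReal.ofReal_toReal (ne_top_of_le_ne_top (ENNReal.natCast_ne_top k) (Lw_one_le ν hA k))).symm

theorem al_nonneg (k : ℕ) : 0 ≤ al ν k := ENNReal.toReal_nonneg

theorem al_small (hA : ∀ᵐ s ∂ν, Adm s) (C : ℕ)
    (h1 : Tendsto (fun k : ℕ => (PP ν (bad C k)).toReal) atTop (𝓝 0))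
    (h2 : Tendsto (fun k : ℕ => (∑ m ∈ range (C * k), PP ν {ω | pos (af ω) m = 0}).toReal / k)
      atTop (𝓝 0)) (ε : ℝ) (hε : 0 < ε) : ∀ᶠ k : ℕ in atTop, al ν k ≤ ε * k := by
  obtain ⟨J, hJ⟩ := exists_nat_gt (3 / ε)
  have hJ0 : (0 : ℝ) < J := lt_trans (by positivity) hJ
  have h3 : Tendsto (fun k : ℕ => (∑ m ∈ range (C * k), PP ν {ω | pos (af ω) m = 0}).toReal / k +
      3 / (4 * J) + J * (PP ν (bad C k)).toReal) atTop (𝓝 (0 + 3 / (4 * J) + J * 0)) :=
    (h2.add tendsto_const_nhds).add (h1.const_mul _)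
  have h4 : (0 : ℝ) + 3 / (4 * J) + J * 0 < ε := by
    rw [zero_add, mul_zero, add_zero, div_lt_iff₀ (by positivity)]
    rw [div_lt_iff₀ hε] at hJ
    nlinarith
  filter_upwards [h3.eventually_lt_const h4, eventually_ge_atTop 1] with k hk hk1
  have hk0 : (0 : ℝ) < k := by exact_mod_cast hk1
  have h5 := first_le ν hA C k J
  have hZ : ∑ m ∈ range (C * k), PP ν {ω | pos (af ω) m = 0} ≠ ∞ :=
    ENNReal.sum_ne_top.mpr fun m _ => measure_ne_top _ _
  have hbt : PP ν (bad C k) ≠ ∞ := measure_ne_top _ _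
  rw [al_eq ν hA, ← ENNReal.ofReal_toReal hZ, ← ENNReal.ofReal_toReal hbt, ← ENNReal.ofReal_natCast,
    ← ENNReal.ofReal_natCast, ← ENNReal.ofReal_natCast, ← ENNReal.ofReal_mul (by positivity),
    ← ENNReal.ofReal_mul (by positivity), ← ENNReal.ofReal_mul (by positivity),
    ← ENNReal.ofReal_add (by positivity) (by positivity),
    ← ENNReal.ofReal_add (by positivity) (by positivity)] at h5
  have h6 := (ENNReal.ofReal_le_ofReal_iff (by positivity)).mp h5
  set z := (∑ m ∈ range (C * k), PP ν {ω | pos (af ω) m = 0}).toReal with hz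
  set r := (PP ν (bad C k)).toReal with hr
  push_cast at h6
  have h7 : al ν k * (4 * J * k) ≤ (z / k + 3 / (4 * J) + J * r) * k * (4 * J * k) := by
    have e1 : (z / k + 3 / (4 * J) + J * r) * k * (4 * J * k) =
        4 * J * k * z + 3 * k ^ 2 + (2 * J * k) ^ 2 * r := by
      field_simp
      ring
    rw [e1]
    have h8 : (1 : ℝ) ≤ k := by exact_mod_cast hk1
    nlinarith
  have h9 := le_of_mul_le_mul_right h7 (by positivity)
  nlinarith

theorem harmonic_unbounded (x2 : ℕ) (B : ℝ) : ∃ X, x2 ≤ X ∧ B < ∑ x ∈ Ico x2 X, 1 / (x : ℝ) := by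
  have h1 : Tendsto (fun n => ∑ i ∈ range n, 1 / (i : ℝ)) atTop atTop :=
    (not_summable_iff_tendsto_nat_atTop_of_nonneg fun _ => by positivity).mp
      Real.not_summable_one_div_natCast
  obtain ⟨X, hX, hX2⟩ := ((h1.eventually_gt_atTop (B + ∑ i ∈ range x2, 1 / (i : ℝ))).and
    (eventually_ge_atTop x2)).exists
  refine ⟨X, hX2, ?_⟩
  rw [sum_Ico_eq_sub _ hX2]
  linarith

/-- For `δ ≤ 2` the walk does not have positive speed. -/
theorem sub (hA : ∀ᵐ s ∂ν, Adm s) (hW : 0 < ν {s | ∀ i, s i < 1}) (hd : del ν ≤ 2) (C : ℕ)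
    (h1 : Tendsto (fun k : ℕ => (PP ν (bad C k)).toReal) atTop (𝓝 0))
    (h2 : Tendsto (fun k : ℕ => (∑ m ∈ range (C * k), PP ν {ω | pos (af ω) m = 0}).toReal / k)
      atTop (𝓝 0)) : False := by
  obtain ⟨x1, hx1, hK⟩ := KK_tf ν hA hW hd
  set x0 : ℕ := max x1 (4 * C) with hx0
  obtain ⟨b, hb, hK⟩ := hK x0 (le_max_left _ _)
  have hev : ∀ᶠ x : ℕ in atTop, eps x < b / 8 ∧ x0 < x := by
    exact (eps_tendsto.eventually_lt_const (by positivity)).and (eventually_gt_atTop x0)
  obtain ⟨x2, hx2⟩ := eventually_atTop.mp hev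
  have hx2' := hx2 x2 le_rfl
  obtain ⟨X, hX, hXB⟩ := harmonic_unbounded x2 (32 * (C + 1) / b)
  have hX0 : 0 < X := by omega
  have hXr : (0 : ℝ) < X := by exact_mod_cast hX0
  have hev2 : ∀ᶠ k : ℕ in atTop, (PP ν (bad C k)).toReal < 1 / (4 * X) ∧
      al ν k ≤ b / (64 * X) * k ∧ 1 ≤ k :=
    (h1.eventually_lt_const (by positivity)).and
      ((al_small ν hA C h1 h2 _ (by positivity)).and (eventually_ge_atTop 1))
  obtain ⟨k, hk1, hk2, hk3⟩ := hev2.exists
  have hk0 : (0 : ℝ) < k := by exact_mod_cast hk3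
  set r := (PP ν (bad C k)).toReal with hr
  have hr0 : 0 ≤ r := ENNReal.toReal_nonneg
  have hreq : PP ν (bad C k) = ENNReal.ofReal r := (ENNReal.ofReal_toReal (measure_ne_top _ _)).symm
  have hX1 : (1 : ℝ) ≤ X := by exact_mod_cast hX0
  have hrX : X * r ≤ 1 / 4 := by
    have := mul_le_mul_of_nonneg_left hk1.le hXr.le
    calc X * r ≤ X * (1 / (4 * X)) := this
      _ = 1 / 4 := by field_simp
  have hr4 : r ≤ 1 / 4 := by nlinarith
  -- the chain is often below `x0`
  have hlow : ∑ i ∈ range k, pr ν i x0 ≤ k / 2 := by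
    have h3 := occ_le ν C k (x0 + 1) (fun v => if x0 < v then x0 + 1 else 0)
      (fun v => by split_ifs <;> omega) (fun v => by split_ifs <;> omega)
    have h4 : ∀ i, Lw ν i (fun f => (((if x0 < f then x0 + 1 else 0 : ℕ)) : ℝ≥0∞)) =
        ENNReal.ofReal ((x0 + 1) * pr ν i x0) := by
      intro i
      rw [ENNReal.ofReal_mul (by positivity), ← pr_eq, ← Lw_const_mul]
      congr 1
      funext n
      split_ifs
      · rw [mul_one, ENNReal.ofReal_add (by positivity) (by norm_num), ENNReal.ofReal_natCast,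
          ENNReal.ofReal_one]
        push_cast
        rfl
      · simp
    simp only [h4] at h3
    rw [← ENNReal.ofReal_sum_of_nonneg fun i _ => mul_nonneg (by positivity) (pr_nonneg ν i x0),
      hreq, ← ENNReal.ofReal_natCast, ← ENNReal.ofReal_natCast, ← ENNReal.ofReal_mul (by positivity),
      ← ENNReal.ofReal_add (by positivity) (by positivity)] at h3
    have h5 := (ENNReal.ofReal_le_ofReal_iff (by positivity)).mp h3
    rw [← mul_sum] at h5
    push_cast at h5
    have h6 : (4 * C : ℝ) ≤ x0 := by exact_mod_cast le_max_right x1 (4 * C)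
    have h7 : ((x0 : ℝ) + 1) * ∑ i ∈ range k, pr ν i x0 ≤ (x0 + 1) * (k / 2) := by
      have h8 : k * ((x0 : ℝ) + 1) * r ≤ k * (x0 + 1) * (1 / 4) :=
        mul_le_mul_of_nonneg_left hr4 (by positivity)
      have h9 : (C : ℝ) * k ≤ (x0 + 1) / 4 * k := mul_le_mul_of_nonneg_right (by linarith) hk0.le
      linarith
    exact le_of_mul_le_mul_left h7 (by positivity)
  -- lower bounds for the tails
  have htail : ∀ x ∈ Ico x2 X, k * (b / 32) * (1 / x) ≤ ∑ i ∈ range k, pr ν i x := by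
    intro x hx
    obtain ⟨hx3, hx4⟩ := mem_Ico.mp hx
    obtain ⟨he, hxx⟩ := hx2 x hx3
    have h3 := drift_sum ν (hK x (by omega)) k
    have hxpos : (0 : ℝ) < x := by exact_mod_cast (by omega : 0 < x)
    have hxX : (x : ℝ) ≤ X := by exact_mod_cast hx4.le
    have h80 : 8 ≤ x0 := hx1.trans (le_max_left _ _)
    have h4 : Lw ν k (fun f => ENNReal.ofReal (tf x0 (4 * x) f)) ≤
        ENNReal.ofReal (8 * x * al ν k) := by
      rw [ENNReal.ofReal_mul (by positivity), ← al_eq ν hA, ← Lw_const_mul]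
      refine Lw_mono ν k fun n => ?_
      rw [← ENNReal.ofReal_natCast n, ← ENNReal.ofReal_mul (by positivity)]
      apply ENNReal.ofReal_le_ofReal
      have := tf_le h80 (by omega : x0 < 4 * x) n
      push_cast at this
      linarith
    have he0 := eps_nonneg x
    have ha0 := al_nonneg ν k
    have hp0 : 0 ≤ ∑ i ∈ range k, pr ν i x := sum_nonneg fun i _ => pr_nonneg ν i x
    have hp1 : 0 ≤ ∑ i ∈ range k, pr ν i x0 := sum_nonneg fun i _ => pr_nonneg ν i x0
    have h5 : ENNReal.ofReal (k * b) ≤ ENNReal.ofReal (8 * x * al ν k + k * eps x +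
        8 * x * ∑ i ∈ range k, pr ν i x + b * ∑ i ∈ range k, pr ν i x0) := by
      rw [ENNReal.ofReal_add (by positivity) (by positivity),
        ENNReal.ofReal_add (by positivity) (by positivity),
        ENNReal.ofReal_add (by positivity) (by positivity)]
      rw [ENNReal.ofReal_mul (p := (k : ℝ)) (q := b) (by positivity),
        ENNReal.ofReal_mul (p := (k : ℝ)) (q := eps x) (by positivity),
        ENNReal.ofReal_mul (p := 8 * (x : ℝ)) (q := ∑ i ∈ range k, pr ν i x) (by positivity),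
        ENNReal.ofReal_mul (p := b) (by positivity), ENNReal.ofReal_natCast,
        ENNReal.ofReal_sum_of_nonneg fun i _ => pr_nonneg ν i x,
        ENNReal.ofReal_sum_of_nonneg fun i _ => pr_nonneg ν i x0]
      simp only [← pr_eq]
      refine h3.trans ?_
      gcongr
    have h6 := (ENNReal.ofReal_le_ofReal_iff (by positivity)).mp h5
    have h7 : 8 * x * al ν k ≤ b / 8 * k := by
      calc 8 * x * al ν k ≤ 8 * X * (b / (64 * X) * k) := by gcongr
        _ = b / 8 * k := by field_simp; norm_num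
    have h8 : k * eps x ≤ k * (b / 8) := by gcongr
    have h9 : b * ∑ i ∈ range k, pr ν i x0 ≤ b * (k / 2) := by gcongr
    have h10 : k * (b / 32) * (1 / x) * (8 * x) ≤ (∑ i ∈ range k, pr ν i x) * (8 * x) := by
      have e1 : k * (b / 32) * (1 / x) * (8 * x) = k * b / 4 := by
        field_simp
        norm_num
      rw [e1]
      linarith
    exact le_of_mul_le_mul_right h10 (by positivity)
  -- upper bound for the sum of the tails
  have hup : ∑ x ∈ Ico x2 X, ∑ i ∈ range k, pr ν i x ≤ C * k + k * X * r := by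
    have hφ : ∀ v : ℕ, ∑ x ∈ Ico x2 X, (if x < v then 1 else 0) = (min v X) - min v x2 := by
      intro v
      rw [← card_filter]
      have : (Ico x2 X).filter (fun x => x < v) = Ico (min v x2) (min v X) := by
        ext y
        simp only [mem_filter, mem_Ico]
        omega
      rw [this, Nat.card_Ico]
    have h3 := occ_le ν C k X (fun v => ∑ x ∈ Ico x2 X, (if x < v then 1 else 0))
      (fun v => by simp only [hφ]; omega) (fun v => by simp only [hφ]; omega)
    have h4 : ∀ i, Lw ν i (fun f => ((∑ x ∈ Ico x2 X, (if x < f then 1 else 0) : ℕ) : ℝ≥0∞)) =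
        ENNReal.ofReal (∑ x ∈ Ico x2 X, pr ν i x) := by
      intro i
      rw [ENNReal.ofReal_sum_of_nonneg fun x _ => pr_nonneg ν i x]
      simp only [← pr_eq]
      unfold Lw
      rw [← lintegral_finsetSum]
      · refine lintegral_congr fun ω => ?_
        push_cast
        rfl
      · exact fun x _ => measurable_G (fun n => if x < n then 1 else 0) _ _
    simp only [h4] at h3
    rw [← ENNReal.ofReal_sum_of_nonneg fun i _ => sum_nonneg fun x _ => pr_nonneg ν i x,
      hreq, ← ENNReal.ofReal_natCast, ← ENNReal.ofReal_natCast, ← ENNReal.ofReal_mul (by positivity),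
      ← ENNReal.ofReal_add (by positivity) (by positivity)] at h3
    have h5 := (ENNReal.ofReal_le_ofReal_iff (by positivity)).mp h3
    rw [sum_comm]
    push_cast at h5
    exact h5
  have h3 := (sum_le_sum htail).trans hup
  rw [← mul_sum] at h3
  have h4 : k * X * r ≤ k * 1 := by
    rw [mul_assoc]
    exact mul_le_mul_of_nonneg_left (by linarith) hk0.le
  have h5 : k * (b / 32 * ∑ x ∈ Ico x2 X, 1 / (x : ℝ)) ≤ k * (C + 1) := by linarith
  have h6 := le_of_mul_le_mul_left h5 hk0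
  rw [div_lt_iff₀ hb] at hXB
  linarith

end Q169.CW
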