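import Pool.Agent.Q169.CW.Law

/-!
The speed of excited random walks with nonnegative drifts.
-/

namespace Q169.CW

open Finset Filter Topology MeasureTheory
open scoped ENNReal

variable (ν : Measure (ℕ → ℝ)) [IsProbabilityMeasure ν]

theorem abs_pos_le (a : ℤ → ℕ → Bool) (n : ℕ) : |pos a n| ≤ n := by
  induction n with
  | zero => simp [pos_zero]
  | succ n ih =>
    rw [pos_succ]
    rw [abs_le] at ih ⊢
    push_cast
    split_ifs <;> omega

/-- Reflect the last step. -/
def flip {n : ℕ} (y : Fin (n + 2) → ℤ) : Fin (n + 2) → ℤ :=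
  Function.update y (Fin.last (n + 1)) (2 * y (Fin.last n).castSucc - y (Fin.last (n + 1)))

theorem flip_castSucc {n : ℕ} (y : Fin (n + 2) → ℤ) (i : Fin (n + 1)) :
    flip y i.castSucc = y i.castSucc := by
  unfold flip
  rw [Function.update_of_ne]
  exact (Fin.castSucc_lt_last i).ne

theorem flip_last {n : ℕ} (y : Fin (n + 2) → ℤ) :
    flip y (Fin.last (n + 1)) = 2 * y (Fin.last n).castSucc - y (Fin.last (n + 1)) := by
  unfold flip
  rw [Function.update_self]

theorem flip_flip {n : ℕ} (y : Fin (n + 2) → ℤ) : flip (flip y) = y := by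
  funext i
  refine Fin.lastCases ?_ (fun i => ?_) i
  · rw [flip_last, flip_castSucc, flip_last]
    ring
  · rw [flip_castSucc, flip_castSucc]

/-- The reflection of the last step as an equivalence. -/
def flipEquiv (n : ℕ) : (Fin (n + 2) → ℤ) ≃ (Fin (n + 2) → ℤ) :=
  ⟨flip, flip, flip_flip, flip_flip⟩

theorem ext_of_le {n : ℕ} (y : Fin (n + 2) → ℤ) {j : ℕ} (hj : j ≤ n) :
    ext (flip y) j = ext y j := by
  unfold ext
  rw [dif_pos (by omega), dif_pos (by omega)]
  exact flip_castSucc y ⟨j, by omega⟩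

theorem ext_last {n : ℕ} (y : Fin (n + 2) → ℤ) : ext y (n + 1) = y (Fin.last (n + 1)) := by
  unfold ext
  rw [dif_pos (by omega)]
  rfl

theorem ext_pred {n : ℕ} (y : Fin (n + 2) → ℤ) : ext y n = y (Fin.last n).castSucc := by
  unfold ext
  rw [dif_pos (by omega)]
  rfl

theorem visits_congr {x x' : ℕ → ℤ} {n : ℕ} (h : ∀ j ≤ n, x j = x' j) : visits x n = visits x' n := by
  unfold visits
  congr 1
  refine filter_congr fun j hj => ?_
  rw [h j (mem_range.mp hj).le, h n le_rfl]

theorem ae_env (hA : ∀ᵐ s ∂ν, Adm s) :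
    ∀ᵐ w ∂(Measure.infinitePi fun _ : ℤ => ν), ∀ z, Adm (w z) := by
  rw [ae_all_iff]
  intro z
  exact (measurePreserving_eval_infinitePi (fun _ : ℤ => ν) z).quasiMeasurePreserving.ae hA

section Process

variable {Ω : Type*} [MeasurableSpace Ω] {P : Measure Ω} [IsProbabilityMeasure P] {X : ℕ → Ω → ℤ}

theorem single_le (hA : ∀ᵐ s ∂ν, Adm s) (hX : IsERW ν P X) (n : ℕ) (y : Fin (n + 2) → ℤ)
    (hy : y (Fin.last (n + 1)) = y (Fin.last n).castSucc - 1) :
    (P.map (Xp X (n + 1))) {y} ≤ (P.map (Xp X (n + 1))) {flip y} := by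
  rw [single_eq ν hX, single_eq ν hX]
  have h0 : flip y 0 = y 0 := flip_castSucc y 0
  rw [h0]
  split_ifs with h
  · refine lintegral_mono_ae ?_
    filter_upwards [ae_env ν hA] with w hw
    rw [prod_range_succ, prod_range_succ]
    have h1 : ∏ j ∈ range n, ENNReal.ofReal (stepProb w (ext y) j) =
        ∏ j ∈ range n, ENNReal.ofReal (stepProb w (ext (flip y)) j) := by
      refine prod_congr rfl fun j hj => ?_
      have hj' := mem_range.mp hj
      unfold stepProb
      rw [ext_of_le y (by omega : j + 1 ≤ n), ext_of_le y (by omega : j ≤ n),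
        visits_congr (x := ext (flip y)) (x' := ext y) fun i hi => ext_of_le y (by omega : i ≤ n)]
    rw [h1]
    refine mul_le_mul' le_rfl (ENNReal.ofReal_le_ofReal ?_)
    unfold stepProb
    rw [ext_of_le y le_rfl,
      visits_congr (x := ext (flip y)) (x' := ext y) fun i hi => ext_of_le y hi, ext_last,
      ext_last, ext_pred, flip_last, if_neg (by omega), if_pos hy, if_pos (by omega)]
    have := (hw (y (Fin.last n).castSucc) (visits (ext y) n)).1
    linarith
  · exact le_rfl

theorem down_le_up (hA : ∀ᵐ s ∂ν, Adm s) (hX : IsERW ν P X) (n : ℕ) :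
    P {ω | X (n + 1) ω = X n ω - 1} ≤ P {ω | X (n + 1) ω = X n ω + 1} := by
  set D : Set (Fin (n + 2) → ℤ) := {y | y (Fin.last (n + 1)) = y (Fin.last n).castSucc - 1} with hD
  set U : Set (Fin (n + 2) → ℤ) := {y | y (Fin.last (n + 1)) = y (Fin.last n).castSucc + 1} with hU
  have hDm : MeasurableSet D := (Set.to_countable D).measurableSet
  have hUm : MeasurableSet U := (Set.to_countable U).measurableSet
  have e1 : P {ω | X (n + 1) ω = X n ω - 1} = (P.map (Xp X (n + 1))) D := by
    rw [Measure.map_apply (measurable_Xp hX.meas _) hDm]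
    rfl
  have e2 : P {ω | X (n + 1) ω = X n ω + 1} = (P.map (Xp X (n + 1))) U := by
    rw [Measure.map_apply (measurable_Xp hX.meas _) hUm]
    rfl
  rw [e1, e2, ← Measure.tsum_indicator_apply_singleton _ _ hDm,
    ← Measure.tsum_indicator_apply_singleton _ _ hUm, ← (flipEquiv n).tsum_eq]
  refine ENNReal.tsum_le_tsum fun y => ?_
  by_cases hy : y ∈ U
  · rw [Set.indicator_of_mem hy]
    have hy' : flipEquiv n y ∈ D := by
      change flip y (Fin.last (n + 1)) = flip y (Fin.last n).castSucc - 1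
      have : y (Fin.last (n + 1)) = y (Fin.last n).castSucc + 1 := hy
      rw [flip_last, flip_castSucc]
      omega
    rw [Set.indicator_of_mem hy']
    have h1 := single_le ν hA hX n (flip y) hy'
    rw [flip_flip] at h1
    exact h1
  · have hy' : flipEquiv n y ∉ D := by
      intro h
      apply hy
      have h1 : flip y (Fin.last (n + 1)) = flip y (Fin.last n).castSucc - 1 := h
      rw [flip_last, flip_castSucc] at h1
      change y (Fin.last (n + 1)) = y (Fin.last n).castSucc + 1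
      omega
    rw [Set.indicator_of_notMem hy']
    exact zero_le

/-- Transfer of sure properties of the paths. -/
theorem ae_path (hA : ∀ᵐ s ∂ν, Adm s) (hX : IsERW ν P X) (n : ℕ) (A : Set (Fin (n + 1) → ℤ))
    (h : ∀ a : ℤ → ℕ → Bool, (fun i : Fin (n + 1) => pos a i) ∈ A) : ∀ᵐ ω ∂P, Xp X n ω ∈ A := by
  have hc := prob_eq ν hX (isERW_coins ν hA) n Aᶜ
  have h0 : Xp (fun n (ω : ℤ → (ℕ → ℝ) × (ℕ → ℝ)) => pos (af ω) n) n ⁻¹' Aᶜ = ∅ := by
    ext ω
    simp only [Set.mem_preimage, Set.mem_compl_iff, Set.mem_empty_iff_false, iff_false, not_not]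
    exact h (af ω)
  rw [h0, measure_empty] at hc
  exact hc

theorem ae_abs (hA : ∀ᵐ s ∂ν, Adm s) (hX : IsERW ν P X) (n : ℕ) : ∀ᵐ ω ∂P, |X n ω| ≤ n :=
  ae_path ν hA hX n {y | |y (Fin.last n)| ≤ n} fun a => abs_pos_le a n

theorem ae_step (hA : ∀ᵐ s ∂ν, Adm s) (hX : IsERW ν P X) (n : ℕ) :
    ∀ᵐ ω ∂P, X (n + 1) ω = X n ω + 1 ∨ X (n + 1) ω = X n ω - 1 :=
  ae_path ν hA hX (n + 1) {y | y (Fin.last (n + 1)) = y (Fin.last n).castSucc + 1 ∨
    y (Fin.last (n + 1)) = y (Fin.last n).castSucc - 1} fun a => by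
      change pos a (n + 1) = pos a n + 1 ∨ pos a (n + 1) = pos a n - 1
      rw [pos_succ]
      split_ifs
      · exact Or.inl rfl
      · exact Or.inr rfl

theorem integrable_X (hA : ∀ᵐ s ∂ν, Adm s) (hX : IsERW ν P X) (n : ℕ) :
    Integrable (fun ω => (X n ω : ℝ)) P := by
  refine Integrable.of_bound (C := n) ?_ ?_
  · exact ((Measurable.of_discrete (f := fun z : ℤ => (z : ℝ))).comp (hX.meas n)).aestronglyMeasurable
  · filter_upwards [ae_abs ν hA hX n] with ω hω
    rw [Real.norm_eq_abs]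
    exact_mod_cast hω

theorem mean_nonneg (hA : ∀ᵐ s ∂ν, Adm s) (hX : IsERW ν P X) (n : ℕ) :
    0 ≤ ∫ ω, (X n ω : ℝ) ∂P := by
  induction n with
  | zero =>
    have : ∀ᵐ ω ∂P, (0 : ℝ) ≤ X 0 ω := by
      filter_upwards [ae_abs ν hA hX 0] with ω hω
      have : X 0 ω = 0 := by
        rw [Nat.cast_zero] at hω
        exact abs_eq_zero.mp (le_antisymm hω (abs_nonneg _))
      rw [this]; simp
    exact integral_nonneg_of_ae this
  | succ n ih =>
    have hUm : MeasurableSet {ω | X (n + 1) ω = X n ω + 1} :=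
      measurableSet_eq_fun (hX.meas _) ((hX.meas n).add_const 1)
    have hDm : MeasurableSet {ω | X (n + 1) ω = X n ω - 1} :=
      measurableSet_eq_fun (hX.meas _) ((hX.meas n).sub_const 1)
    have e1 : ∀ᵐ ω ∂P, (X (n + 1) ω : ℝ) = X n ω +
        ({ω | X (n + 1) ω = X n ω + 1}.indicator (fun _ => (1 : ℝ)) ω -
          {ω | X (n + 1) ω = X n ω - 1}.indicator (fun _ => (1 : ℝ)) ω) := by
      filter_upwards [ae_step ν hA hX n] with ω hω
      rcases hω with h | h
      · have h1 : ω ∈ {ω | X (n + 1) ω = X n ω + 1} := h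
        have h2 : ω ∉ {ω | X (n + 1) ω = X n ω - 1} := by
          intro h'
          have : X (n + 1) ω = X n ω - 1 := h'
          omega
        rw [Set.indicator_of_mem h1, Set.indicator_of_notMem h2, h]
        push_cast
        ring
      · have h1 : ω ∈ {ω | X (n + 1) ω = X n ω - 1} := h
        have h2 : ω ∉ {ω | X (n + 1) ω = X n ω + 1} := by
          intro h'
          have : X (n + 1) ω = X n ω + 1 := h'
          omega
        rw [Set.indicator_of_mem h1, Set.indicator_of_notMem h2, h]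
        push_cast
        ring
    have i1 : Integrable ({ω | X (n + 1) ω = X n ω + 1}.indicator fun _ => (1 : ℝ)) P :=
      (integrable_const 1).indicator hUm
    have i2 : Integrable ({ω | X (n + 1) ω = X n ω - 1}.indicator fun _ => (1 : ℝ)) P :=
      (integrable_const 1).indicator hDm
    have e2 : ∫ ω, ((X n ω : ℝ) + ({ω | X (n + 1) ω = X n ω + 1}.indicator (fun _ => (1 : ℝ)) ω -
          {ω | X (n + 1) ω = X n ω - 1}.indicator (fun _ => (1 : ℝ)) ω)) ∂P =
        ∫ ω, (X n ω : ℝ) ∂P + (∫ ω, {ω | X (n + 1) ω = X n ω + 1}.indicator (fun _ => (1 : ℝ)) ω ∂P -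
          ∫ ω, {ω | X (n + 1) ω = X n ω - 1}.indicator (fun _ => (1 : ℝ)) ω ∂P) := by
      rw [← integral_sub i1 i2]
      exact integral_add (integrable_X ν hA hX n) (i1.sub i2)
    rw [integral_congr_ae e1, e2, integral_indicator_const _ hUm, integral_indicator_const _ hDm]
    have h3 : P.real {ω | X (n + 1) ω = X n ω - 1} ≤ P.real {ω | X (n + 1) ω = X n ω + 1} :=
      ENNReal.toReal_mono (measure_ne_top _ _) (down_le_up ν hA hX n)
    simp only [smul_eq_mul, mul_one]
    linarith

theorem speed_nonneg (hA : ∀ᵐ s ∂ν, Adm s) (hX : IsERW ν P X) {v : ℝ}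
    (hv : ∀ᵐ ω ∂P, Tendsto (fun n => (X n ω : ℝ) / n) atTop (𝓝 v)) : 0 ≤ v := by
  have h1 : Tendsto (fun n : ℕ => ∫ ω, (X n ω : ℝ) / n ∂P) atTop (𝓝 (∫ _, v ∂P)) := by
    refine tendsto_integral_of_dominated_convergence (fun _ => 1) (fun n => ?_)
      (integrable_const 1) (fun n => ?_) hv
    · exact (((Measurable.of_discrete (f := fun z : ℤ => (z : ℝ))).comp
        (hX.meas n)).div_const _).aestronglyMeasurable
    · filter_upwards [ae_abs ν hA hX n] with ω hω
      rw [Real.norm_eq_abs, abs_div, Nat.abs_cast]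
      have : |(X n ω : ℝ)| ≤ n := by exact_mod_cast hω
      exact div_le_one_of_le₀ this (Nat.cast_nonneg n)
  have h2 : ∫ _, v ∂P = v := by simp
  rw [h2] at h1
  refine ge_of_tendsto' h1 fun n => ?_
  rw [integral_div]
  exact div_nonneg (mean_nonneg ν hA hX n) (Nat.cast_nonneg n)

theorem tendsto_zero_of_ae {A : ℕ → Set Ω} (hA : ∀ k, MeasurableSet (A k))
    (h : ∀ᵐ ω ∂P, ∀ᶠ k in atTop, ω ∉ A k) : Tendsto (fun k => P (A k)) atTop (𝓝 0) := by
  have := tendsto_measure_of_ae_tendsto_indicator_of_isFiniteMeasure (μ := P) atTop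
    (A := ∅) MeasurableSet.empty hA (by
      filter_upwards [h] with ω hω
      filter_upwards [hω] with k hk
      simp [hk])
  simpa using this

/-- The main theorem: positive speed for `δ > 2`. -/
theorem speed_pos (hA : ∀ᵐ s ∂ν, Adm s) (hX : IsERW ν P X) (hd : 2 < del ν) {v : ℝ}
    (hv : ∀ᵐ ω ∂P, Tendsto (fun n => (X n ω : ℝ) / n) atTop (𝓝 v)) : 0 < v := by
  by_contra hcon
  push Not at hcon
  obtain ⟨B, p, hp, hfreq⟩ := super ν hA hd
  -- the same probabilities for the process
  have e1 : ∀ k : ℕ, PP ν {ω | ∃ m ≤ B * k, pos (af ω) m = k} =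
      P {ω | ∃ m ≤ B * k, X m ω = k} := by
    intro k
    have h1 := prob_eq ν (isERW_coins ν hA) hX (B * k) {y | ∃ i, y i = k}
    have h2 : Xp (fun n (ω : ℤ → (ℕ → ℝ) × (ℕ → ℝ)) => pos (af ω) n) (B * k) ⁻¹' {y | ∃ i, y i = k} =
        {ω | ∃ m ≤ B * k, pos (af ω) m = k} := by
      ext ω
      constructor
      · rintro ⟨i, hi⟩
        exact ⟨i, by omega, hi⟩
      · rintro ⟨m, hm, h⟩
        exact ⟨⟨m, by omega⟩, h⟩
    have h3 : Xp X (B * k) ⁻¹' {y | ∃ i, y i = k} = {ω | ∃ m ≤ B * k, X m ω = k} := by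
      ext ω
      constructor
      · rintro ⟨i, hi⟩
        exact ⟨i, by omega, hi⟩
      · rintro ⟨m, hm, h⟩
        exact ⟨⟨m, by omega⟩, h⟩
    rw [h2, h3] at h1
    exact h1
  have h1 : Tendsto (fun k : ℕ => P {ω | ∃ m ≤ B * k, X m ω = k}) atTop (𝓝 0) := by
    refine tendsto_zero_of_ae (fun k => ?_) ?_
    · have : {ω | ∃ m ≤ B * k, X m ω = k} = ⋃ m ∈ Set.Iic (B * k), {ω | X m ω = k} := by
        ext ω
        simp
      rw [this]
      exact MeasurableSet.biUnion (Set.to_countable _) fun m _ =>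
        (hX.meas m) (measurableSet_singleton (k : ℤ))
    · filter_upwards [hv] with ω hω
      have h2 : ∀ᶠ n : ℕ in atTop, (X n ω : ℝ) / n < 1 / (B + 1) :=
        hω.eventually_lt_const (lt_of_le_of_lt hcon (by positivity))
      obtain ⟨n0, hn0⟩ := eventually_atTop.mp (h2.and (eventually_ge_atTop 1))
      obtain ⟨K, hK⟩ : ∃ K : ℕ, ∀ m < n0, X m ω < K := by
        obtain ⟨S, hS⟩ : ∃ S, S = ∑ m ∈ range n0, (X m ω).natAbs := ⟨_, rfl⟩
        refine ⟨S + 1, fun m hm => ?_⟩
        have h4 : (X m ω).natAbs ≤ S := by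
          rw [hS]
          exact single_le_sum (f := fun m => (X m ω).natAbs) (fun _ _ => Nat.zero_le _)
            (mem_range.mpr hm)
        omega
      filter_upwards [eventually_ge_atTop (K + 1)] with k hk
      rintro ⟨m, hm, h⟩
      rcases Nat.lt_or_ge m n0 with h3 | h3
      · have := hK m h3
        rw [h] at this
        omega
      · obtain ⟨h4, h5⟩ := hn0 m h3
        rw [h] at h4
        have hk0 : (0 : ℝ) < k := by exact_mod_cast (by omega : 0 < k)
        have hm' : (m : ℝ) ≤ B * k := by exact_mod_cast hm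
        have hm0 : (0 : ℝ) < m := by exact_mod_cast h5
        push_cast at h4
        rw [div_lt_div_iff₀ hm0 (by positivity)] at h4
        nlinarith
  have h2 : ∃ᶠ k : ℕ in atTop, p ≤ P {ω | ∃ m ≤ B * k, X m ω = k} :=
    hfreq.mono fun k hk => by rwa [e1 k] at hk
  have h3 : ∀ᶠ k : ℕ in atTop, P {ω | ∃ m ≤ B * k, X m ω = k} < p :=
    h1.eventually_lt_const (pos_iff_ne_zero.mpr hp)
  obtain ⟨k, hk1, hk2⟩ := (h2.and_eventually h3).exists
  exact absurd hk1 (not_le.mpr hk2)

/-- The main theorem: zero speed for `δ ≤ 2`. -/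
theorem speed_zero (hA : ∀ᵐ s ∂ν, Adm s) (hW : 0 < ν {s | ∀ i, s i < 1}) (hX : IsERW ν P X)
    (hd : del ν ≤ 2) {v : ℝ}
    (hv : ∀ᵐ ω ∂P, Tendsto (fun n => (X n ω : ℝ) / n) atTop (𝓝 v)) : v = 0 := by
  have h0 := speed_nonneg ν hA hX hv
  by_contra hne
  have hv0 : 0 < v := lt_of_le_of_ne h0 (Ne.symm hne)
  obtain ⟨C, hC⟩ := exists_nat_gt (1 / v)
  have hC0 : (0 : ℝ) < C := lt_trans (by positivity) hC
  have hCv : 1 / (C : ℝ) < v := by
    rw [div_lt_iff₀ hC0]
    rw [div_lt_iff₀ hv0] at hC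
    linarith
  have hCn : 0 < C := by exact_mod_cast hC0
  have hCk : Tendsto (fun k : ℕ => C * k) atTop atTop :=
    tendsto_id.const_mul_atTop' hCn
  refine sub ν hA hW hd C ?_ ?_
  · have e1 : ∀ k : ℕ, PP ν (bad C k) = P {ω | X (C * k) ω < k} := by
      intro k
      exact prob_eq ν (isERW_coins ν hA) hX (C * k) {y | y (Fin.last _) < k}
    have h1 : Tendsto (fun k : ℕ => P {ω | X (C * k) ω < k}) atTop (𝓝 0) := by
      refine tendsto_zero_of_ae (fun k => (hX.meas _) (measurableSet_Iio (a := (k : ℤ)))) ?_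
      filter_upwards [hv] with ω hω
      filter_upwards [(hω.comp hCk).eventually_const_lt hCv, eventually_ge_atTop 1] with k hk hk1
      intro h
      have h' : X (C * k) ω < k := h
      have hk0 : (0 : ℝ) < k := by exact_mod_cast hk1
      simp only [Function.comp] at hk
      push_cast at hk
      rw [div_lt_div_iff₀ hC0 (by positivity)] at hk
      have h2 : (X (C * k) ω : ℝ) < k := by exact_mod_cast h'
      nlinarith
    simp only [e1]
    have := (ENNReal.tendsto_toReal ENNReal.zero_ne_top).comp h1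
    rwa [ENNReal.toReal_zero] at this
  · have e1 : ∀ m : ℕ, PP ν {ω | pos (af ω) m = 0} = P {ω | X m ω = 0} := by
      intro m
      exact prob_eq ν (isERW_coins ν hA) hX m {y | y (Fin.last _) = 0}
    have h1 : Tendsto (fun m : ℕ => P {ω | X m ω = 0}) atTop (𝓝 0) := by
      refine tendsto_zero_of_ae (fun m => (hX.meas _) (measurableSet_singleton 0)) ?_
      filter_upwards [hv] with ω hω
      filter_upwards [hω.eventually_const_lt hv0] with m hm
      intro h
      have h' : X m ω = 0 := h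
      rw [h'] at hm
      simp at hm
    have h2 : Tendsto (fun m : ℕ => (P {ω | X m ω = 0}).toReal) atTop (𝓝 0) := by
      have := (ENNReal.tendsto_toReal ENNReal.zero_ne_top).comp h1
      rwa [ENNReal.toReal_zero] at this
    have h3 := (h2.cesaro.comp hCk).const_mul (C : ℝ)
    rw [mul_zero] at h3
    refine h3.congr' ?_
    filter_upwards [eventually_ge_atTop 1] with k hk1
    have hk0 : (0 : ℝ) < k := by exact_mod_cast hk1
    simp only [Function.comp, e1]
    rw [ENNReal.toReal_sum fun m _ => measure_ne_top _ _]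
    push_cast
    field_simp

end Process

end Q169.CW
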