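import Pool.Agent.Q169.CW.Chain2

/-!
Excited random walks: definition by the probabilities of paths, and the realization by coins.
-/

namespace Q169.CW

open Finset Filter Topology MeasureTheory
open scoped ENNReal

/-- The number of visits of the path `x` to `x n` before time `n`. -/
def visits (x : ℕ → ℤ) (n : ℕ) : ℕ := ((range n).filter fun j => x j = x n).card

/-- The probability of the step from `x j` to `x (j + 1)`, in the environment `w`. -/
noncomputable def stepProb (w : ℤ → ℕ → ℝ) (x : ℕ → ℤ) (j : ℕ) : ℝ :=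
  if x (j + 1) = x j + 1 then w (x j) (visits x j)
  else if x (j + 1) = x j - 1 then 1 - w (x j) (visits x j) else 0

/-- The excited random walk with independent stacks of law `ν` (averaged law). -/
structure IsERW {Ω : Type*} [MeasurableSpace Ω] (ν : Measure (ℕ → ℝ)) [IsProbabilityMeasure ν]
    (P : Measure Ω) (X : ℕ → Ω → ℤ) : Prop where
  meas : ∀ n, Measurable (X n)
  law : ∀ (n : ℕ) (x : ℕ → ℤ), x 0 = 0 → P {ω | ∀ j ≤ n, X j ω = x j} =
    ∫⁻ w, ∏ j ∈ range n, ENNReal.ofReal (stepProb w x j) ∂(Measure.infinitePi fun _ : ℤ => ν)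

/-! ### The realization by coins -/

theorem cnt_eq_visits {a : ℤ → ℕ → Bool} {x : ℕ → ℤ} {n : ℕ} (h : ∀ j ≤ n, pos a j = x j) :
    cnt a n (x n) = visits x n := by
  rw [cnt_eq_sum, visits, card_filter]
  refine sum_congr rfl fun m hm => ?_
  rw [h m (mem_range.mp hm).le]

theorem path_iff {a : ℤ → ℕ → Bool} {x : ℕ → ℤ} (hx : x 0 = 0) (n : ℕ) :
    (∀ j ≤ n, pos a j = x j) ↔
      ∀ j < n, x (j + 1) = x j + (if a (x j) (visits x j) then 1 else -1) := by
  induction n with
  | zero =>
    constructor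
    · intro _ j hj; omega
    · intro _ j hj
      obtain rfl : j = 0 := by omega
      rw [pos_zero, hx]
  | succ n ih =>
    have key : (∀ j ≤ n, pos a j = x j) →
        (pos a (n + 1) = x (n + 1) ↔
          x (n + 1) = x n + (if a (x n) (visits x n) then 1 else -1)) := by
      intro h
      rw [pos_succ, h n le_rfl, cnt_eq_visits h]
      exact eq_comm
    constructor
    · intro h j hj
      have h1 : ∀ j ≤ n, pos a j = x j := fun j hj => h j (by omega)
      rcases Nat.lt_or_ge j n with h2 | h2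
      · exact ih.mp h1 j h2
      · obtain rfl : j = n := by omega
        exact (key h1).mp (h (j + 1) le_rfl)
    · intro h j hj
      have h1 : ∀ j ≤ n, pos a j = x j := ih.mpr fun j hj => h j (by omega)
      rcases Nat.lt_or_ge j (n + 1) with h2 | h2
      · exact h1 j (by omega)
      · obtain rfl : j = n + 1 := by omega
        exact (key h1).mpr (h n (by omega))

/-- Replace the coin number `c` at the site `z`. -/
noncomputable def rep (z : ℤ) (c : ℕ) (p : (ℤ → (ℕ → ℝ) × (ℕ → ℝ)) × ℝ) :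
    ℤ → (ℕ → ℝ) × (ℕ → ℝ) :=
  Function.update p.1 z ((p.1 z).1, Function.update (p.1 z).2 c p.2)

variable (ν : Measure (ℕ → ℝ)) [IsProbabilityMeasure ν]

theorem mp_rep (z : ℤ) (c : ℕ) : MeasurePreserving (rep z c) ((PP ν).prod unif) (PP ν) := by
  have h1 : MeasurePreserving (fun p : (ℕ → ℝ) × ℝ => Function.update p.1 c p.2)
      (coin.prod unif) coin := by
    have := mp_update (ι := ℕ) unif unif (T := Prod.snd) measurePreserving_snd c
    exact this
  have h2 : MeasurePreserving
      (fun p : ((ℕ → ℝ) × (ℕ → ℝ)) × ℝ => (p.1.1, Function.update p.1.2 c p.2))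
      ((site ν).prod unif) (site ν) := by
    have e1 := measurePreserving_prodAssoc ν coin unif
    have e2 := (MeasurePreserving.id ν).prod h1
    exact e2.comp e1
  exact mp_update (site ν) unif h2 z

theorem rep_fst (z : ℤ) (c : ℕ) (p : (ℤ → (ℕ → ℝ) × (ℕ → ℝ)) × ℝ) (y : ℤ) :
    (rep z c p y).1 = (p.1 y).1 := by
  unfold rep
  by_cases h : y = z
  · subst h; simp
  · rw [Function.update_of_ne h]

theorem rep_snd_self (z : ℤ) (c : ℕ) (p : (ℤ → (ℕ → ℝ) × (ℕ → ℝ)) × ℝ) :
    (rep z c p z).2 c = p.2 := by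
  unfold rep
  simp

theorem rep_snd_ne (z : ℤ) (c : ℕ) (p : (ℤ → (ℕ → ℝ) × (ℕ → ℝ)) × ℝ) (y : ℤ) (i : ℕ)
    (h : y ≠ z ∨ i ≠ c) : (rep z c p y).2 i = (p.1 y).2 i := by
  unfold rep
  by_cases hy : y = z
  · subst hy
    have hi : i ≠ c := by tauto
    simp [Function.update_of_ne hi]
  · rw [Function.update_of_ne hy]

theorem af_rep_ne (z : ℤ) (c : ℕ) (p : (ℤ → (ℕ → ℝ) × (ℕ → ℝ)) × ℝ) (y : ℤ) (i : ℕ)
    (h : y ≠ z ∨ i ≠ c) : af (rep z c p) y i = af p.1 y i := by
  unfold af ar
  rw [rep_fst, rep_snd_ne z c p y i h]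

/-- The event that the walk follows the path `x` up to time `n`. -/
def Ev (x : ℕ → ℤ) (n : ℕ) : Set (ℤ → (ℕ → ℝ) × (ℕ → ℝ)) := {ω | ∀ j ≤ n, pos (af ω) j = x j}

theorem measurableSet_Ev (x : ℕ → ℤ) (n : ℕ) : MeasurableSet (Ev x n) := by
  have : Ev x n = ⋂ j ∈ Set.Iic n, {ω | pos (af ω) j = x j} := by
    ext ω
    simp [Ev]
  rw [this]
  exact MeasurableSet.biInter (Set.to_countable _) fun j _ =>
    (measurable_pos j) (measurableSet_singleton (x j))

theorem rep_mem_Ev {x : ℕ → ℤ} (hx : x 0 = 0) (n : ℕ)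
    (p : (ℤ → (ℕ → ℝ) × (ℕ → ℝ)) × ℝ) : rep (x n) (visits x n) p ∈ Ev x n ↔ p.1 ∈ Ev x n := by
  unfold Ev
  rw [Set.mem_ofPred_eq, Set.mem_ofPred_eq, path_iff hx, path_iff hx]
  refine forall₂_congr fun j hj => ?_
  rw [af_rep_ne]
  by_cases h : x j = x n
  · right
    unfold visits
    rw [h]
    apply ne_of_lt
    apply Finset.card_lt_card
    refine ⟨?_, ?_⟩
    · intro i hi
      rw [mem_filter, mem_range] at hi ⊢
      exact ⟨by omega, hi.2⟩
    · intro hsub
      have : j ∈ (range j).filter fun i => x i = x n :=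
        hsub (by rw [mem_filter, mem_range]; exact ⟨hj, h⟩)
      rw [mem_filter, mem_range] at this
      omega
  · exact Or.inl h

theorem ae_stack (hA : ∀ᵐ s ∂ν, Adm s) : ∀ᵐ ω ∂(PP ν), ∀ z, Adm (ω z).1 := by
  rw [ae_all_iff]
  intro z
  have h1 : ∀ᵐ x ∂(site ν), Adm x.1 := by
    unfold site
    exact Measure.quasiMeasurePreserving_fst.ae hA
  exact (measurePreserving_eval_infinitePi (fun _ : ℤ => site ν) z).quasiMeasurePreserving.ae h1

/-- Integrate out the current coin. -/
theorem integrate_coin (hA : ∀ᵐ s ∂ν, Adm s) {x : ℕ → ℤ} (hx : x 0 = 0) (n : ℕ)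
    {G : (ℤ → (ℕ → ℝ) × (ℕ → ℝ)) → ℝ≥0∞} (hG : Measurable G)
    (hG' : ∀ p, G (rep (x n) (visits x n) p) = G p.1) :
    ∫⁻ ω, (Ev x (n + 1)).indicator G ω ∂(PP ν) =
      ∫⁻ ω, (Ev x n).indicator
        (fun ω => G ω * ENNReal.ofReal (stepProb (fun z => (ω z).1) x n)) ω ∂(PP ν) := by
  have hmp := mp_rep ν (x n) (visits x n)
  have hm : Measurable ((Ev x (n + 1)).indicator G) := hG.indicator (measurableSet_Ev x (n + 1))
  rw [← hmp.lintegral_comp hm]
  have e1 : ∫⁻ p, (Ev x (n + 1)).indicator G (rep (x n) (visits x n) p) ∂((PP ν).prod unif) =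
      ∫⁻ ω, ∫⁻ t, (Ev x (n + 1)).indicator G (rep (x n) (visits x n) (ω, t)) ∂unif ∂(PP ν) :=
    lintegral_prod _ (hm.comp hmp.measurable).aemeasurable
  rw [e1]
  refine lintegral_congr_ae ?_
  filter_upwards [ae_stack ν hA] with ω hω
  obtain ⟨h1, h2⟩ := hω (x n) (visits x n)
  have hpos : ∀ t : ℝ, rep (x n) (visits x n) (ω, t) ∈ Ev x (n + 1) ↔
      (ω ∈ Ev x n ∧ x (n + 1) = x n + (if t < (ω (x n)).1 (visits x n) then 1 else -1)) := by
    intro t
    have e2 : rep (x n) (visits x n) (ω, t) ∈ Ev x (n + 1) ↔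
        (rep (x n) (visits x n) (ω, t) ∈ Ev x n ∧ x (n + 1) = x n +
          (if af (rep (x n) (visits x n) (ω, t)) (x n) (visits x n) then 1 else -1)) := by
      unfold Ev
      rw [Set.mem_ofPred_eq, Set.mem_ofPred_eq, path_iff hx, path_iff hx]
      constructor
      · intro h
        exact ⟨fun j hj => h j (by omega), h n (by omega)⟩
      · rintro ⟨h3, h4⟩ j hj
        rcases Nat.lt_or_ge j n with h5 | h5
        · exact h3 j h5
        · obtain rfl : j = n := by omega
          exact h4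
    rw [e2, rep_mem_Ev hx]
    have e3 : af (rep (x n) (visits x n) (ω, t)) (x n) (visits x n) =
        decide (t < (ω (x n)).1 (visits x n)) := by
      unfold af ar
      rw [rep_fst, rep_snd_self]
    rw [e3]
    simp only [decide_eq_true_eq]
  by_cases hE : ω ∈ Ev x n
  · rw [Set.indicator_of_mem hE]
    have e4 : ∀ t : ℝ, (Ev x (n + 1)).indicator G (rep (x n) (visits x n) (ω, t)) =
        G ω * (if x (n + 1) = x n + (if t < (ω (x n)).1 (visits x n) then 1 else -1)
          then 1 else 0) := by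
      intro t
      by_cases h : x (n + 1) = x n + (if t < (ω (x n)).1 (visits x n) then 1 else -1)
      · rw [if_pos h, mul_one, Set.indicator_of_mem ((hpos t).mpr ⟨hE, h⟩), hG']
      · rw [if_neg h, mul_zero, Set.indicator_of_notMem]
        intro h'
        exact h ((hpos t).mp h').2
    simp only [e4]
    have hl : MeasurableSet {t : ℝ | t < (ω (x n)).1 (visits x n)} := measurableSet_Iio
    unfold stepProb
    by_cases hu : x (n + 1) = x n + 1
    · rw [if_pos hu]
      have e5 : ∀ t : ℝ, (if x (n + 1) = x n + (if t < (ω (x n)).1 (visits x n) then 1 else -1)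
          then 1 else 0 : ℝ≥0∞) = {t : ℝ | t < (ω (x n)).1 (visits x n)}.indicator (fun _ => 1) t := by
        intro t
        by_cases ht : t < (ω (x n)).1 (visits x n)
        · have ht' : t ∈ {t : ℝ | t < (ω (x n)).1 (visits x n)} := ht
          rw [if_pos ht, if_pos hu, Set.indicator_of_mem ht']
        · have ht' : t ∉ {t : ℝ | t < (ω (x n)).1 (visits x n)} := ht
          rw [if_neg ht, if_neg (by omega), Set.indicator_of_notMem ht']
      simp only [e5]
      rw [lintegral_const_mul _ (measurable_const.indicator hl), lintegral_indicator_const hl,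
        one_mul, unif_lt (by linarith) h2]
    · rw [if_neg hu]
      by_cases hd : x (n + 1) = x n - 1
      · rw [if_pos hd]
        have e5 : ∀ t : ℝ, (if x (n + 1) = x n + (if t < (ω (x n)).1 (visits x n) then 1 else -1)
            then 1 else 0 : ℝ≥0∞) =
            {t : ℝ | t < (ω (x n)).1 (visits x n)}ᶜ.indicator (fun _ => 1) t := by
          intro t
          by_cases ht : t < (ω (x n)).1 (visits x n)
          · have ht' : t ∉ {t : ℝ | t < (ω (x n)).1 (visits x n)}ᶜ := fun h => h ht
            rw [if_pos ht, if_neg (by omega), Set.indicator_of_notMem ht']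
          · have ht' : t ∈ {t : ℝ | t < (ω (x n)).1 (visits x n)}ᶜ := ht
            rw [if_neg ht, if_pos (by omega), Set.indicator_of_mem ht']
        simp only [e5]
        rw [lintegral_const_mul _ (measurable_const.indicator hl.compl),
          lintegral_indicator_const hl.compl, one_mul, unif_ge (by linarith) h2]
      · rw [if_neg hd]
        have e5 : ∀ t : ℝ, (if x (n + 1) = x n + (if t < (ω (x n)).1 (visits x n) then 1 else -1)
            then 1 else 0 : ℝ≥0∞) = 0 := by
          intro t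
          rw [if_neg]
          split_ifs <;> omega
        simp [e5]
  · rw [Set.indicator_of_notMem hE]
    have e4 : ∀ t : ℝ, (Ev x (n + 1)).indicator G (rep (x n) (visits x n) (ω, t)) = 0 := by
      intro t
      rw [Set.indicator_of_notMem]
      intro h'
      exact hE ((hpos t).mp h').1
    simp [e4]

theorem measurable_stepProb (x : ℕ → ℤ) (j : ℕ) :
    Measurable fun w : ℤ → ℕ → ℝ => ENNReal.ofReal (stepProb w x j) := by
  unfold stepProb
  split_ifs <;> fun_prop

/-- Path probabilities of the realization by coins. -/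
theorem path_prob (hA : ∀ᵐ s ∂ν, Adm s) {x : ℕ → ℤ} (hx : x 0 = 0) (n : ℕ)
    {G : (ℤ → ℕ → ℝ) → ℝ≥0∞} (hG : Measurable G) :
    ∫⁻ ω, (Ev x n).indicator (fun ω => G fun z => (ω z).1) ω ∂(PP ν) =
      ∫⁻ ω, G (fun z => (ω z).1) *
        ∏ j ∈ range n, ENNReal.ofReal (stepProb (fun z => (ω z).1) x j) ∂(PP ν) := by
  induction n generalizing G with
  | zero =>
    refine lintegral_congr fun ω => ?_
    have : ω ∈ Ev x 0 := by
      intro j hj
      obtain rfl : j = 0 := by omega
      rw [pos_zero, hx]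
    rw [Set.indicator_of_mem this]
    simp
  | succ n ih =>
    have hfst : Measurable fun ω : ℤ → (ℕ → ℝ) × (ℕ → ℝ) => fun z => (ω z).1 := by fun_prop
    rw [integrate_coin ν hA hx n (G := fun ω => G fun z => (ω z).1) (hG.comp hfst)]
    · rw [ih (G := fun w => G w * ENNReal.ofReal (stepProb w x n))
        (hG.mul (measurable_stepProb x n))]
      refine lintegral_congr fun ω => ?_
      rw [prod_range_succ]
      ring
    · intro p
      simp only [rep_fst]

/-- The realization by coins is an excited random walk. -/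
theorem isERW_coins (hA : ∀ᵐ s ∂ν, Adm s) : IsERW ν (PP ν) fun n ω => pos (af ω) n := by
  refine ⟨measurable_pos, fun n x hx => ?_⟩
  have h1 := path_prob ν hA hx n (G := fun _ => 1) measurable_const
  simp only [one_mul] at h1
  have h2 : ∫⁻ ω, (Ev x n).indicator (fun _ => (1 : ℝ≥0∞)) ω ∂(PP ν) = PP ν (Ev x n) := by
    rw [lintegral_indicator_const (measurableSet_Ev x n), one_mul]
  rw [h2] at h1
  change PP ν (Ev x n) = _
  rw [h1]
  have hfst : MeasurePreserving (fun ω : ℤ → (ℕ → ℝ) × (ℕ → ℝ) => fun z => (ω z).1) (PP ν)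
      (Measure.infinitePi fun _ : ℤ => ν) := by
    refine ⟨by fun_prop, ?_⟩
    unfold PP
    rw [Measure.infinitePi_map_pi (μ := fun _ : ℤ => site ν) (f := fun _ => Prod.fst)
      (fun _ => measurable_fst)]
    congr 1
    funext z
    unfold site
    rw [Measure.map_fst_prod]
    simp
  rw [← hfst.lintegral_comp]
  exact Finset.measurable_fun_prod _ fun j _ => measurable_stepProb x j

section Transfer

variable {Ω Ω' : Type*} [MeasurableSpace Ω] [MeasurableSpace Ω'] {P : Measure Ω} {P' : Measure Ω'}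
  [IsProbabilityMeasure P] [IsProbabilityMeasure P'] {X : ℕ → Ω → ℤ} {X' : ℕ → Ω' → ℤ}

/-- The path up to time `n`. -/
def Xp {Ω : Type*} (X : ℕ → Ω → ℤ) (n : ℕ) (ω : Ω) : Fin (n + 1) → ℤ := fun i => X i ω

/-- The path as a function on all times. -/
def ext {n : ℕ} (y : Fin (n + 1) → ℤ) (j : ℕ) : ℤ := if h : j < n + 1 then y ⟨j, h⟩ else 0

omit [IsProbabilityMeasure P] in
theorem measurable_Xp (hX : ∀ n, Measurable (X n)) (n : ℕ) : Measurable (Xp X n) :=
  measurable_pi_iff.mpr fun _ => hX _

omit [IsProbabilityMeasure P] [MeasurableSpace Ω] in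
theorem Xp_eq_iff (n : ℕ) (y : Fin (n + 1) → ℤ) (ω : Ω) :
    Xp X n ω = y ↔ ∀ j ≤ n, X j ω = ext y j := by
  constructor
  · rintro rfl j hj
    unfold ext
    rw [dif_pos (by omega)]
    rfl
  · intro h
    funext i
    have := h i (by omega)
    unfold ext at this
    rw [dif_pos i.2] at this
    exact this

theorem single_eq (hX : IsERW ν P X) (n : ℕ) (y : Fin (n + 1) → ℤ) :
    (P.map (Xp X n)) {y} = if y 0 = 0 then
      ∫⁻ w, ∏ j ∈ range n, ENNReal.ofReal (stepProb w (ext y) j)
        ∂(Measure.infinitePi fun _ : ℤ => ν) else 0 := by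
  rw [Measure.map_apply (measurable_Xp hX.meas n) (measurableSet_singleton y)]
  have h1 : Xp X n ⁻¹' {y} = {ω | ∀ j ≤ n, X j ω = ext y j} := by
    ext ω
    exact Xp_eq_iff n y ω
  rw [h1]
  have he : ext y 0 = y 0 := by
    unfold ext
    rw [dif_pos (by omega)]
    rfl
  split_ifs with h
  · exact hX.law n (ext y) (he.trans h)
  · have h2 : P {ω | X 0 ω = 0} = 1 := by
      have := hX.law 0 (fun _ => 0) rfl
      simpa using this
    have hms : MeasurableSet {ω | X 0 ω = 0} := (hX.meas 0) (measurableSet_singleton 0)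
    have h3 : P {ω | X 0 ω = 0}ᶜ = 0 := by
      rw [prob_compl_eq_zero_iff hms]
      exact h2
    refine measure_mono_null ?_ h3
    intro ω hω h4
    have h5 : X 0 ω = ext y 0 := hω 0 (by omega)
    rw [he] at h5
    exact h (h5.symm.trans h4)

theorem law_eq (hX : IsERW ν P X) (hX' : IsERW ν P' X') (n : ℕ) :
    P.map (Xp X n) = P'.map (Xp X' n) := by
  refine Measure.ext_of_singleton fun y => ?_
  rw [single_eq ν hX, single_eq ν hX']

theorem prob_eq (hX : IsERW ν P X) (hX' : IsERW ν P' X') (n : ℕ) (A : Set (Fin (n + 1) → ℤ)) :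
    P (Xp X n ⁻¹' A) = P' (Xp X' n ⁻¹' A) := by
  have hA : MeasurableSet A := (Set.to_countable A).measurableSet
  rw [← Measure.map_apply (measurable_Xp hX.meas n) hA,
    ← Measure.map_apply (measurable_Xp hX'.meas n) hA, law_eq ν hX hX']

end Transfer

end Q169.CW
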