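import Mathlib

/-!
The number of failures before the `(n + 1)`-st success in a sequence of independent trials with
success probabilities `s 0, s 1, ...`.
-/

namespace Q169.CW

open Finset Filter Topology

/-- The probability of `t` successes in `m` trials. -/
def pp (s : ℕ → ℝ) : ℕ → ℕ → ℝ
  | 0, t => if t = 0 then 1 else 0
  | m + 1, 0 => (1 - s m) * pp s m 0
  | m + 1, t + 1 => s m * pp s m t + (1 - s m) * pp s m (t + 1)

/-- The probability of `f` failures before the `(n + 1)`-st success. -/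
def qq (s : ℕ → ℝ) (n f : ℕ) : ℝ := s (n + f) * pp s (n + f) n

/-- Stacks with nonnegative drifts. -/
def Adm (s : ℕ → ℝ) : Prop := ∀ i, 1 / 2 ≤ s i ∧ s i ≤ 1

variable {s : ℕ → ℝ}

theorem pp_nonneg (hs : Adm s) (m t : ℕ) : 0 ≤ pp s m t := by
  induction m generalizing t with
  | zero => simp only [pp]; split_ifs <;> norm_num
  | succ m ih =>
    obtain ⟨h1, h2⟩ := hs m
    cases t with
    | zero => exact mul_nonneg (by linarith) (ih 0)
    | succ t => exact add_nonneg (mul_nonneg (by linarith) (ih t)) (mul_nonneg (by linarith) (ih _))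

theorem pp_zero_of_lt (m t : ℕ) (h : m < t) : pp s m t = 0 := by
  induction m generalizing t with
  | zero => simp only [pp]; rw [if_neg (by omega)]
  | succ m ih =>
    cases t with
    | zero => omega
    | succ t => simp only [pp]; rw [ih t (by omega), ih (t + 1) (by omega)]; ring

theorem pp_le (hs : Adm s) (m t : ℕ) : pp s m t ≤ 2 ^ t * (3 / 4) ^ m := by
  induction m generalizing t with
  | zero =>
    simp only [pp]
    split_ifs with h
    · subst h; norm_num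
    · positivity
  | succ m ih =>
    obtain ⟨h1, h2⟩ := hs m
    cases t with
    | zero =>
      simp only [pp]
      have h3 := ih 0
      have h4 := pp_nonneg hs m 0
      have h5 : (0 : ℝ) ≤ (3 / 4) ^ m := by positivity
      calc (1 - s m) * pp s m 0 ≤ (3 / 4) * (2 ^ 0 * (3 / 4) ^ m) := by
            apply mul_le_mul _ h3 h4 (by norm_num)
            linarith
        _ = 2 ^ 0 * (3 / 4) ^ (m + 1) := by ring
    | succ t =>
      simp only [pp]
      have h3 := ih t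
      have h4 := ih (t + 1)
      have h5 : (0 : ℝ) ≤ 2 ^ t * (3 / 4) ^ m := by positivity
      have h6 : s m * pp s m t ≤ s m * (2 ^ t * (3 / 4) ^ m) :=
        mul_le_mul_of_nonneg_left h3 (by linarith)
      have h7 : (1 - s m) * pp s m (t + 1) ≤ (1 - s m) * (2 ^ (t + 1) * (3 / 4) ^ m) :=
        mul_le_mul_of_nonneg_left h4 (by linarith)
      have h8 : s m * (2 ^ t * (3 / 4) ^ m) + (1 - s m) * (2 ^ (t + 1) * (3 / 4) ^ m) =
          (2 - s m) * (2 ^ t * (3 / 4) ^ m) := by ring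
      have h9 : (2 - s m) * (2 ^ t * (3 / 4) ^ m) ≤ (3 / 2) * (2 ^ t * (3 / 4) ^ m) :=
        mul_le_mul_of_nonneg_right (by linarith) h5
      have h10 : (3 / 2 : ℝ) * (2 ^ t * (3 / 4) ^ m) = 2 ^ (t + 1) * (3 / 4) ^ (m + 1) := by ring
      linarith

theorem qq_nonneg (hs : Adm s) (n f : ℕ) : 0 ≤ qq s n f :=
  mul_nonneg (by linarith [(hs (n + f)).1]) (pp_nonneg hs _ _)

theorem qq_le (hs : Adm s) (n f : ℕ) : qq s n f ≤ (3 / 2) ^ n * (3 / 4) ^ f := by
  have h1 := pp_le hs (n + f) n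
  have h2 := pp_nonneg hs (n + f) n
  have h3 : qq s n f ≤ 1 * (2 ^ n * (3 / 4) ^ (n + f)) :=
    mul_le_mul (hs _).2 h1 h2 zero_le_one
  calc qq s n f ≤ 1 * (2 ^ n * (3 / 4) ^ (n + f)) := h3
    _ = (2 * (3 / 4)) ^ n * (3 / 4) ^ f := by rw [mul_pow, pow_add]; ring
    _ = (3 / 2) ^ n * (3 / 4) ^ f := by norm_num

/-- The one-step identity behind optional stopping. -/
theorem step_id (Φ : ℕ → ℝ) (m n : ℕ) :
    ∑ t ∈ range (n + 1), Φ t * pp s (m + 1) t + Φ (n + 1) * (s m * pp s m n) =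
      ∑ t ∈ range (n + 1), pp s m t * (s m * Φ (t + 1) + (1 - s m) * Φ t) := by
  induction n with
  | zero => simp [pp]; ring
  | succ n ih =>
    rw [sum_range_succ, sum_range_succ (fun t => pp s m t * _), ← ih]
    simp only [pp]
    ring

/-- Optional stopping at the `(n + 1)`-st success. -/
theorem stop (Φ : ℕ → ℕ → ℝ) (n m : ℕ) :
    ∑ l ∈ range m, Φ (l + 1) (n + 1) * (s l * pp s l n) +
        ∑ t ∈ range (n + 1), Φ m t * pp s m t =
      Φ 0 0 + ∑ l ∈ range m, ∑ t ∈ range (n + 1),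
        pp s l t * (s l * Φ (l + 1) (t + 1) + (1 - s l) * Φ (l + 1) t - Φ l t) := by
  induction m with
  | zero =>
    simp only [range_zero, sum_empty, zero_add, add_zero]
    rw [sum_eq_single 0]
    · simp [pp]
    · intro t _ ht
      simp [pp, ht]
    · intro h; simp at h
  | succ m ih =>
    rw [sum_range_succ, sum_range_succ (fun l => ∑ t ∈ range (n + 1), pp s l t * _)]
    have h1 := step_id (s := s) (Φ (m + 1)) m n
    have h2 : ∑ t ∈ range (n + 1),
        pp s m t * (s m * Φ (m + 1) (t + 1) + (1 - s m) * Φ (m + 1) t - Φ m t) =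
        ∑ t ∈ range (n + 1), pp s m t * (s m * Φ (m + 1) (t + 1) + (1 - s m) * Φ (m + 1) t) -
          ∑ t ∈ range (n + 1), Φ m t * pp s m t := by
      rw [← sum_sub_distrib]
      exact sum_congr rfl fun t _ => by ring
    rw [h2]
    linarith

theorem stop' (Φ : ℕ → ℕ → ℝ) (n K : ℕ) :
    ∑ f ∈ range K, Φ (n + f + 1) (n + 1) * qq s n f +
        ∑ t ∈ range (n + 1), Φ (n + K) t * pp s (n + K) t =
      Φ 0 0 + ∑ l ∈ range (n + K), ∑ t ∈ range (n + 1),
        pp s l t * (s l * Φ (l + 1) (t + 1) + (1 - s l) * Φ (l + 1) t - Φ l t) := by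
  rw [← stop]
  congr 1
  rw [sum_range_add]
  rw [sum_eq_zero (s := range n), zero_add]
  · rfl
  · intro l hl
    rw [pp_zero_of_lt l n (mem_range.mp hl)]
    ring

/-- Total mass. -/
theorem mass (n K : ℕ) :
    ∑ f ∈ range K, qq s n f + ∑ t ∈ range (n + 1), pp s (n + K) t = 1 := by
  have h := stop' (s := s) (fun _ _ => 1) n K
  simp only [one_mul, mul_one] at h
  rw [h, sum_eq_zero, add_zero]
  intro l _
  exact sum_eq_zero fun t _ => by ring

/-- The remaining mass at time `l`. -/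
def rem (s : ℕ → ℝ) (n l : ℕ) : ℝ := ∑ t ∈ range (n + 1), pp s l t

theorem rem_nonneg (hs : Adm s) (n l : ℕ) : 0 ≤ rem s n l :=
  sum_nonneg fun _ _ => pp_nonneg hs _ _

theorem sum_pp (l : ℕ) : ∀ n, l ≤ n → rem s n l = 1 := by
  intro n hn
  have h := stop (s := s) (fun _ _ => 1) n l
  simp only [one_mul, mul_one] at h
  rw [sum_eq_zero, zero_add] at h
  · unfold rem
    rw [h, sum_eq_zero, add_zero]
    intro l _
    exact sum_eq_zero fun t _ => by ring
  · intro j hj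
    rw [pp_zero_of_lt j n (by have := mem_range.mp hj; omega)]
    ring

theorem rem_le_one (hs : Adm s) (n l : ℕ) : rem s n l ≤ 1 := by
  have h := stop (s := s) (fun _ _ => 1) n l
  simp only [one_mul, mul_one] at h
  have h1 : 0 ≤ ∑ j ∈ range l, s j * pp s j n := sum_nonneg fun j _ =>
    mul_nonneg (by linarith [(hs j).1]) (pp_nonneg hs _ _)
  have h2 : ∑ l ∈ range l, ∑ t ∈ range (n + 1), pp s l t * (s l + (1 - s l) - 1) = 0 :=
    sum_eq_zero fun l _ => sum_eq_zero fun t _ => by ring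
  rw [h2] at h
  unfold rem
  linarith

theorem rem_le (hs : Adm s) (n l : ℕ) : rem s n l ≤ 2 ^ (n + 1) * (3 / 4) ^ l := by
  have h1 : rem s n l ≤ ∑ t ∈ range (n + 1), (2 : ℝ) ^ t * (3 / 4) ^ l :=
    sum_le_sum fun t _ => pp_le hs l t
  rw [← sum_mul] at h1
  have h2 : ∑ t ∈ range (n + 1), (2 : ℝ) ^ t ≤ 2 ^ (n + 1) := by
    rw [geom_sum_eq (by norm_num)]
    have : (0 : ℝ) < 2 ^ (n + 1) := by positivity
    norm_num
  exact h1.trans (mul_le_mul_of_nonneg_right h2 (by positivity))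

/-- The drift. -/
def dd (s : ℕ → ℝ) (l : ℕ) : ℝ := 2 * s l - 1

theorem dd_nonneg (hs : Adm s) (l : ℕ) : 0 ≤ dd s l := by
  have := (hs l).1
  unfold dd
  linarith

theorem dd_le_one (hs : Adm s) (l : ℕ) : dd s l ≤ 1 := by
  have := (hs l).2
  unfold dd
  linarith

/-- First moments with a finite horizon. -/
theorem first (n K : ℕ) :
    ∑ f ∈ range K, (f : ℝ) * qq s n f +
        ∑ t ∈ range (n + 1), ((n + K : ℕ) + n + 1 - 2 * t : ℝ) * pp s (n + K) t =
      n + 1 - ∑ l ∈ range (n + K), dd s l * rem s n l := by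
  have h := stop' (s := s) (fun m t => (m : ℝ) + n + 1 - 2 * t) n K
  have h1 : ∀ f ∈ range K, (((n + f + 1 : ℕ) : ℝ) + n + 1 - 2 * ((n + 1 : ℕ) : ℝ)) * qq s n f =
      (f : ℝ) * qq s n f := fun f _ => by push_cast; ring
  rw [sum_congr rfl h1] at h
  rw [h]
  have h2 : ∑ l ∈ range (n + K), ∑ t ∈ range (n + 1),
      pp s l t * (s l * (((l + 1 : ℕ) : ℝ) + n + 1 - 2 * ((t + 1 : ℕ) : ℝ)) +
        (1 - s l) * (((l + 1 : ℕ) : ℝ) + n + 1 - 2 * t) - ((l : ℝ) + n + 1 - 2 * t)) =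
      - ∑ l ∈ range (n + K), dd s l * rem s n l := by
    rw [← sum_neg_distrib]
    refine sum_congr rfl fun l _ => ?_
    unfold rem
    rw [← mul_neg, ← sum_neg_distrib, mul_sum]
    refine sum_congr rfl fun t _ => ?_
    unfold dd
    push_cast
    ring
  rw [h2]
  push_cast
  ring

/-- The weight in the drift of second moments. -/
def wt (s : ℕ → ℝ) (n l : ℕ) : ℝ := ∑ t ∈ range (n + 1), pp s l t * ((l : ℝ) + n + 1 - 2 * t)

/-- Second moments with a finite horizon. -/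
theorem second (n K : ℕ) :
    ∑ f ∈ range K, (f : ℝ) ^ 2 * qq s n f +
        ∑ t ∈ range (n + 1), (((n + K : ℕ) + n + 1 - 2 * t : ℝ) ^ 2 + 2 * (n + 1 - t)) *
          pp s (n + K) t =
      (n + 1) * (n + 3) - ∑ l ∈ range (n + K), dd s l * (2 * wt s n l + rem s n l) := by
  have h := stop' (s := s) (fun m t => ((m : ℝ) + n + 1 - 2 * t) ^ 2 + 2 * (n + 1 - t)) n K
  have h1 : ∀ f ∈ range K, ((((n + f + 1 : ℕ) : ℝ) + n + 1 - 2 * ((n + 1 : ℕ) : ℝ)) ^ 2 +
      2 * (n + 1 - ((n + 1 : ℕ) : ℝ))) * qq s n f =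
      (f : ℝ) ^ 2 * qq s n f := fun f _ => by push_cast; ring
  rw [sum_congr rfl h1] at h
  rw [h]
  have h2 : ∑ l ∈ range (n + K), ∑ t ∈ range (n + 1),
      pp s l t * (s l * ((((l + 1 : ℕ) : ℝ) + n + 1 - 2 * ((t + 1 : ℕ) : ℝ)) ^ 2 +
          2 * (n + 1 - ((t + 1 : ℕ) : ℝ))) +
        (1 - s l) * ((((l + 1 : ℕ) : ℝ) + n + 1 - 2 * t) ^ 2 + 2 * (n + 1 - (t : ℝ))) -
        (((l : ℝ) + n + 1 - 2 * t) ^ 2 + 2 * (n + 1 - (t : ℝ)))) =
      - ∑ l ∈ range (n + K), dd s l * (2 * wt s n l + rem s n l) := by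
    rw [← sum_neg_distrib]
    refine sum_congr rfl fun l _ => ?_
    unfold rem wt
    rw [mul_sum, ← sum_add_distrib, ← mul_neg, ← sum_neg_distrib, mul_sum]
    refine sum_congr rfl fun t _ => ?_
    unfold dd
    push_cast
    ring
  rw [h2]
  push_cast
  ring

theorem wt_term_nonneg (hs : Adm s) {n l t : ℕ} (ht : t ∈ range (n + 1)) :
    0 ≤ pp s l t * ((l : ℝ) + n + 1 - 2 * t) := by
  rcases Nat.lt_or_ge l t with h | h
  · rw [pp_zero_of_lt l t h, zero_mul]
  · have h1 := mem_range.mp ht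
    refine mul_nonneg (pp_nonneg hs _ _) ?_
    have h2 : (t : ℝ) ≤ l := by exact_mod_cast h
    have h3 : (t : ℝ) ≤ n := by exact_mod_cast (Nat.lt_succ_iff.mp h1)
    linarith

theorem wt_nonneg (hs : Adm s) (n l : ℕ) : 0 ≤ wt s n l :=
  sum_nonneg fun _ ht => wt_term_nonneg hs ht

theorem wt_ge (hs : Adm s) {n l : ℕ} (hl : l ≤ n) : (n : ℝ) + 1 - l ≤ wt s n l := by
  have h1 : ((n : ℝ) + 1 - l) * rem s n l ≤ wt s n l := by
    unfold rem wt
    rw [mul_sum]
    refine sum_le_sum fun t ht => ?_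
    rcases Nat.lt_or_ge l t with h | h
    · rw [pp_zero_of_lt l t h, zero_mul, mul_zero]
    · have h2 : (t : ℝ) ≤ l := by exact_mod_cast h
      rw [mul_comm]
      exact mul_le_mul_of_nonneg_left (by linarith) (pp_nonneg hs _ _)
  rwa [sum_pp l n hl, mul_one] at h1

/-- The weighted drift is bounded by the total drift. -/
theorem third (hs : Adm s) (Dt : ℝ) (hDt : ∀ m, ∑ l ∈ range m, dd s l ≤ Dt) (n K : ℕ) :
    ∑ l ∈ range (n + K), dd s l * wt s n l ≤ Dt * (n + 1) := by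
  have h := stop' (s := s)
    (fun m t => (Dt - ∑ l ∈ range m, dd s l) * ((m : ℝ) + n + 1 - 2 * t)) n K
  have hD : ∀ m, 0 ≤ Dt - ∑ l ∈ range m, dd s l := fun m => by linarith [hDt m]
  have h1 : 0 ≤ ∑ f ∈ range K, (Dt - ∑ l ∈ range (n + f + 1), dd s l) *
      (((n + f + 1 : ℕ) : ℝ) + n + 1 - 2 * ((n + 1 : ℕ) : ℝ)) * qq s n f := by
    refine sum_nonneg fun f _ => mul_nonneg (mul_nonneg (hD _) ?_) (qq_nonneg hs _ _)
    push_cast
    have : (0 : ℝ) ≤ f := Nat.cast_nonneg f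
    linarith
  have h2 : 0 ≤ ∑ t ∈ range (n + 1), (Dt - ∑ l ∈ range (n + K), dd s l) *
      (((n + K : ℕ) : ℝ) + n + 1 - 2 * t) * pp s (n + K) t := by
    refine sum_nonneg fun t ht => ?_
    have h3 := wt_term_nonneg hs (n := n) (l := n + K) ht
    have h4 := mul_nonneg (hD (n + K)) h3
    calc (0 : ℝ) ≤ _ := h4
      _ = _ := by ring
  have h3 : ∑ l ∈ range (n + K), ∑ t ∈ range (n + 1),
      pp s l t * (s l * ((Dt - ∑ j ∈ range (l + 1), dd s j) *
          (((l + 1 : ℕ) : ℝ) + n + 1 - 2 * ((t + 1 : ℕ) : ℝ))) +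
        (1 - s l) * ((Dt - ∑ j ∈ range (l + 1), dd s j) * (((l + 1 : ℕ) : ℝ) + n + 1 - 2 * t)) -
        (Dt - ∑ j ∈ range l, dd s j) * ((l : ℝ) + n + 1 - 2 * t)) =
      - ∑ l ∈ range (n + K), dd s l * wt s n l -
        ∑ l ∈ range (n + K), (Dt - ∑ j ∈ range (l + 1), dd s j) * dd s l * rem s n l := by
    rw [← sum_neg_distrib, ← sum_sub_distrib]
    refine sum_congr rfl fun l _ => ?_
    unfold rem wt
    rw [mul_sum, mul_sum, ← sum_neg_distrib, ← sum_sub_distrib]
    refine sum_congr rfl fun t _ => ?_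
    rw [sum_range_succ]
    unfold dd
    push_cast
    ring
  have h4 : 0 ≤ ∑ l ∈ range (n + K), (Dt - ∑ j ∈ range (l + 1), dd s j) * dd s l * rem s n l :=
    sum_nonneg fun l _ => mul_nonneg (mul_nonneg (hD _) (dd_nonneg hs _)) (rem_nonneg hs _ _)
  rw [h3] at h
  simp only [range_zero, sum_empty, Nat.cast_zero, mul_zero, sub_zero, zero_add] at h
  linarith

end Q169.CW
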