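import Pool.Agent.Q169.CW.Quench

/-!
Expectations of functions of the number of failures before the `(n + 1)`-st success.
-/

namespace Q169.CW

open Finset Filter Topology

variable {s : ℕ → ℝ}

/-- The expectation of `h` of the number of failures before the `(n + 1)`-st success. -/
noncomputable def EE (s : ℕ → ℝ) (n : ℕ) (h : ℕ → ℝ) : ℝ := ∑' f, h f * qq s n f

theorem summable_poly (x : ℝ) : Summable fun f : ℕ => x * (((f : ℝ) + 1) ^ 2 * (3 / 4) ^ f) := by
  have h0 : ‖(3 / 4 : ℝ)‖ < 1 := by rw [Real.norm_eq_abs, abs_of_pos (by norm_num)]; norm_num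
  have h1 := summable_pow_mul_geometric_of_norm_lt_one 2 h0
  have h2 := summable_pow_mul_geometric_of_norm_lt_one 1 h0
  have h3 := summable_pow_mul_geometric_of_norm_lt_one 0 h0
  refine Summable.mul_left _ ?_
  refine ((h1.add (h2.mul_left 2)).add h3).congr fun f => ?_
  ring

theorem summable_qq (hs : Adm s) (n : ℕ) (h : ℕ → ℝ) (C : ℝ) (hh : ∀ f, |h f| ≤ C * (f + 1) ^ 2) :
    Summable fun f => h f * qq s n f := by
  refine Summable.of_norm_bounded (summable_poly (C * (3 / 2) ^ n)) fun f => ?_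
  rw [Real.norm_eq_abs, abs_mul, abs_of_nonneg (qq_nonneg hs n f)]
  have h1 := qq_le hs n f
  have h2 := qq_nonneg hs n f
  have h3 : 0 ≤ C * ((f : ℝ) + 1) ^ 2 := (abs_nonneg _).trans (hh f)
  calc |h f| * qq s n f ≤ (C * ((f : ℝ) + 1) ^ 2) * ((3 / 2) ^ n * (3 / 4) ^ f) :=
        mul_le_mul (hh f) h1 h2 h3
    _ = _ := by ring

theorem rem_tendsto (hs : Adm s) (n : ℕ) :
    Tendsto (fun K : ℕ => (((n + K : ℕ) : ℝ) + n + 1 + 2 * (n + 1)) ^ 2 * rem s n (n + K)) atTop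
      (𝓝 0) := by
  have h0 := (summable_poly ((4 * n + 3) ^ 2 * (2 ^ (n + 1) * (3 / 4) ^ n))).tendsto_atTop_zero
  refine squeeze_zero (fun K => mul_nonneg (by positivity) (rem_nonneg hs _ _)) (fun K => ?_) h0
  have h1 := rem_le hs n (n + K)
  have h2 : (((n + K : ℕ) : ℝ) + n + 1 + 2 * (n + 1)) ^ 2 ≤ (4 * n + 3) ^ 2 * ((K : ℝ) + 1) ^ 2 := by
    rw [← mul_pow]
    apply pow_le_pow_left₀ (by positivity)
    push_cast
    have h3 : (0 : ℝ) ≤ n := Nat.cast_nonneg n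
    have h4 : (0 : ℝ) ≤ K := Nat.cast_nonneg K
    nlinarith [mul_nonneg h3 h4]
  calc (((n + K : ℕ) : ℝ) + n + 1 + 2 * (n + 1)) ^ 2 * rem s n (n + K)
      ≤ ((4 * n + 3) ^ 2 * ((K : ℝ) + 1) ^ 2) * (2 ^ (n + 1) * (3 / 4) ^ (n + K)) :=
        mul_le_mul h2 h1 (rem_nonneg hs _ _) (by positivity)
    _ = _ := by rw [pow_add]; ring

theorem rem_tendsto' (hs : Adm s) (n : ℕ) :
    Tendsto (fun K : ℕ => rem s n (n + K)) atTop (𝓝 0) := by
  refine squeeze_zero (fun K => rem_nonneg hs _ _) (fun K => ?_) (rem_tendsto hs n)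
  have h1 : (1 : ℝ) ≤ (((n + K : ℕ) : ℝ) + n + 1 + 2 * (n + 1)) ^ 2 := by
    have h3 : (0 : ℝ) ≤ n := Nat.cast_nonneg n
    have h4 : (0 : ℝ) ≤ K := Nat.cast_nonneg K
    push_cast
    nlinarith
  have := mul_le_mul_of_nonneg_right h1 (rem_nonneg hs n (n + K))
  rwa [one_mul] at this

theorem EE_one (hs : Adm s) (n : ℕ) : HasSum (fun f => qq s n f) 1 := by
  have hsum : Summable fun f => qq s n f := by
    have := summable_qq hs n (fun _ => 1) 1 (fun f => by
      rw [abs_one, one_mul]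
      have : (0 : ℝ) ≤ f := Nat.cast_nonneg f
      nlinarith)
    simpa using this
  have h1 := hsum.hasSum.tendsto_sum_nat
  have h2 : Tendsto (fun K => ∑ f ∈ range K, qq s n f) atTop (𝓝 (1 - 0)) := by
    refine (tendsto_const_nhds.sub (rem_tendsto' hs n)).congr fun K => ?_
    have := mass (s := s) n K
    unfold rem
    linarith
  rw [sub_zero] at h2
  have h3 := tendsto_nhds_unique h1 h2
  rw [← h3]
  exact hsum.hasSum

theorem sm1 (hs : Adm s) (n : ℕ) : Summable fun f : ℕ => (f : ℝ) * qq s n f :=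
  summable_qq hs n _ 1 fun f => by
    have : (0 : ℝ) ≤ f := Nat.cast_nonneg f
    rw [abs_of_nonneg this]
    nlinarith

theorem sm2 (hs : Adm s) (n : ℕ) : Summable fun f : ℕ => (f : ℝ) ^ 2 * qq s n f :=
  summable_qq hs n _ 1 fun f => by
    have : (0 : ℝ) ≤ f := Nat.cast_nonneg f
    rw [abs_of_nonneg (by positivity)]
    nlinarith

theorem drift_nonneg (hs : Adm s) (n m : ℕ) : 0 ≤ ∑ l ∈ range m, dd s l * rem s n l :=
  sum_nonneg fun _ _ => mul_nonneg (dd_nonneg hs _) (rem_nonneg hs _ _)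

theorem drift_ge (hs : Adm s) (n m : ℕ) (hm : n + 1 ≤ m) :
    ∑ l ∈ range (n + 1), dd s l ≤ ∑ l ∈ range m, dd s l * rem s n l := by
  calc ∑ l ∈ range (n + 1), dd s l = ∑ l ∈ range (n + 1), dd s l * rem s n l := by
        refine sum_congr rfl fun l hl => ?_
        rw [sum_pp l n (by have := mem_range.mp hl; omega), mul_one]
    _ ≤ _ := sum_le_sum_of_subset_of_nonneg (range_mono hm) fun l _ _ =>
        mul_nonneg (dd_nonneg hs _) (rem_nonneg hs _ _)

theorem r1_nonneg (hs : Adm s) (n K : ℕ) : 0 ≤ ∑ t ∈ range (n + 1),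
    ((n + K : ℕ) + n + 1 - 2 * t : ℝ) * pp s (n + K) t := by
  refine sum_nonneg fun t ht => ?_
  have := wt_term_nonneg hs (n := n) (l := n + K) ht
  rwa [mul_comm] at this

theorem r2_nonneg (hs : Adm s) (n K : ℕ) : 0 ≤ ∑ t ∈ range (n + 1),
    (((n + K : ℕ) + n + 1 - 2 * t : ℝ) ^ 2 + 2 * (n + 1 - t)) * pp s (n + K) t := by
  refine sum_nonneg fun t ht => mul_nonneg ?_ (pp_nonneg hs _ _)
  have h1 : (t : ℝ) ≤ n := by exact_mod_cast Nat.lt_succ_iff.mp (mem_range.mp ht)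
  nlinarith [sq_nonneg ((n + K : ℕ) + n + 1 - 2 * t : ℝ)]

theorem r12_le (hs : Adm s) (n K : ℕ) :
    ∑ t ∈ range (n + 1), ((n + K : ℕ) + n + 1 - 2 * t : ℝ) * pp s (n + K) t ≤
        (((n + K : ℕ) : ℝ) + n + 1 + 2 * (n + 1)) ^ 2 * rem s n (n + K) ∧
    ∑ t ∈ range (n + 1), (((n + K : ℕ) + n + 1 - 2 * t : ℝ) ^ 2 + 2 * (n + 1 - t)) *
        pp s (n + K) t ≤ (((n + K : ℕ) : ℝ) + n + 1 + 2 * (n + 1)) ^ 2 * rem s n (n + K) := by
  have h3 : (0 : ℝ) ≤ n := Nat.cast_nonneg n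
  have h4 : (0 : ℝ) ≤ ((n + K : ℕ) : ℝ) := Nat.cast_nonneg _
  constructor
  · unfold rem
    rw [mul_sum]
    refine sum_le_sum fun t ht => mul_le_mul_of_nonneg_right ?_ (pp_nonneg hs _ _)
    have h1 : (t : ℝ) ≤ n := by exact_mod_cast Nat.lt_succ_iff.mp (mem_range.mp ht)
    have h2 : (0 : ℝ) ≤ t := Nat.cast_nonneg t
    nlinarith
  · unfold rem
    rw [mul_sum]
    refine sum_le_sum fun t ht => mul_le_mul_of_nonneg_right ?_ (pp_nonneg hs _ _)
    have h1 : (t : ℝ) ≤ n := by exact_mod_cast Nat.lt_succ_iff.mp (mem_range.mp ht)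
    have h2 : (0 : ℝ) ≤ t := Nat.cast_nonneg t
    nlinarith [mul_nonneg h4 h3, mul_nonneg h2 h4, mul_nonneg h2 h3]

theorem EE1_le (hs : Adm s) (n : ℕ) :
    EE s n (fun f => f) ≤ n + 1 - ∑ l ∈ range (n + 1), dd s l := by
  refine le_of_tendsto (sm1 hs n).hasSum.tendsto_sum_nat ?_
  filter_upwards [eventually_ge_atTop 1] with K hK
  have h1 := first (s := s) n K
  have h2 := r1_nonneg hs n K
  have h3 := drift_ge hs n (n + K) (by omega)
  linarith

theorem EE1_ge (hs : Adm s) (Dt : ℝ) (hDt : ∀ m, ∑ l ∈ range m, dd s l ≤ Dt) (n : ℕ) :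
    n + 1 - Dt ≤ EE s n (fun f => f) := by
  have h0 : Tendsto (fun K : ℕ => ((n : ℝ) + 1 - Dt) -
      (((n + K : ℕ) : ℝ) + n + 1 + 2 * (n + 1)) ^ 2 * rem s n (n + K)) atTop
      (𝓝 ((n : ℝ) + 1 - Dt - 0)) := tendsto_const_nhds.sub (rem_tendsto hs n)
  rw [sub_zero] at h0
  refine le_of_tendsto_of_tendsto' h0 (sm1 hs n).hasSum.tendsto_sum_nat fun K => ?_
  have h1 := first (s := s) n K
  have h2 := (r12_le hs n K).1
  have h3 : ∑ l ∈ range (n + K), dd s l * rem s n l ≤ Dt := by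
    refine le_trans (sum_le_sum fun l _ => ?_) (hDt (n + K))
    have := mul_le_mul_of_nonneg_left (rem_le_one hs n l) (dd_nonneg hs l)
    rwa [mul_one] at this
  linarith

theorem EE2_le (hs : Adm s) (n : ℕ) :
    EE s n (fun f => (f : ℝ) ^ 2) ≤ (n + 1) * (n + 3) := by
  refine le_of_tendsto' (sm2 hs n).hasSum.tendsto_sum_nat fun K => ?_
  have h1 := second (s := s) n K
  have h2 := r2_nonneg hs n K
  have h3 : 0 ≤ ∑ l ∈ range (n + K), dd s l * (2 * wt s n l + rem s n l) :=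
    sum_nonneg fun l _ => mul_nonneg (dd_nonneg hs _)
      (add_nonneg (mul_nonneg (by norm_num) (wt_nonneg hs _ _)) (rem_nonneg hs _ _))
  linarith

theorem EE2_le' (hs : Adm s) (n M : ℕ) (hM : M ≤ n) :
    EE s n (fun f => (f : ℝ) ^ 2) + (2 * n + 3) * ∑ l ∈ range M, dd s l ≤
      (n + 1) * (n + 3) + 2 * M ^ 2 := by
  have key : ∀ K, ∑ f ∈ range K, (f : ℝ) ^ 2 * qq s n f ≤
      (n + 1) * (n + 3) + 2 * M ^ 2 - (2 * n + 3) * ∑ l ∈ range M, dd s l := by
    intro K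
    have h1 := second (s := s) n K
    have h2 := r2_nonneg hs n K
    have h3 : ∑ l ∈ range M, dd s l * (2 * n + 3 - 2 * M) ≤
        ∑ l ∈ range (n + K), dd s l * (2 * wt s n l + rem s n l) := by
      refine le_trans (sum_le_sum fun l hl => ?_)
        (sum_le_sum_of_subset_of_nonneg (range_mono (by omega : M ≤ n + K)) fun l _ _ => ?_)
      · refine mul_le_mul_of_nonneg_left ?_ (dd_nonneg hs _)
        have h4 := mem_range.mp hl
        have h5 := wt_ge hs (n := n) (l := l) (by omega)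
        rw [sum_pp l n (by omega)]
        have h6 : (l : ℝ) ≤ M := by exact_mod_cast h4.le
        linarith
      · exact mul_nonneg (dd_nonneg hs _)
          (add_nonneg (mul_nonneg (by norm_num) (wt_nonneg hs _ _)) (rem_nonneg hs _ _))
    rw [← sum_mul] at h3
    have h4 : ∑ l ∈ range M, dd s l ≤ M := by
      calc ∑ l ∈ range M, dd s l ≤ ∑ l ∈ range M, (1 : ℝ) := sum_le_sum fun l _ => dd_le_one hs l
        _ = M := by simp
    have h5 : (0 : ℝ) ≤ M := Nat.cast_nonneg M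
    have h6 : 2 * (M : ℝ) * ∑ l ∈ range M, dd s l ≤ 2 * M * M :=
      mul_le_mul_of_nonneg_left h4 (by positivity)
    nlinarith
  have := le_of_tendsto' (sm2 hs n).hasSum.tendsto_sum_nat key
  unfold EE
  linarith

theorem EE2_ge (hs : Adm s) (Dt : ℝ) (hDt : ∀ m, ∑ l ∈ range m, dd s l ≤ Dt) (n : ℕ) :
    (n + 1) * (n - 5) - 2 * (n + 1) * Dt + 7 * ∑ l ∈ range (n + 1), dd s l ≤
      EE s n (fun f => (f : ℝ) ^ 2 - 8 * f) := by
  have h0 : Tendsto (fun K : ℕ => (((n : ℝ) + 1) * (n - 5) - 2 * (n + 1) * Dt +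
      7 * ∑ l ∈ range (n + 1), dd s l) -
      (((n + K : ℕ) : ℝ) + n + 1 + 2 * (n + 1)) ^ 2 * rem s n (n + K)) atTop
      (𝓝 ((((n : ℝ) + 1) * (n - 5) - 2 * (n + 1) * Dt +
        7 * ∑ l ∈ range (n + 1), dd s l) - 0)) := tendsto_const_nhds.sub (rem_tendsto hs n)
  rw [sub_zero] at h0
  have hsm : Summable fun f : ℕ => ((f : ℝ) ^ 2 - 8 * f) * qq s n f := by
    refine ((sm2 hs n).sub ((sm1 hs n).mul_left 8)).congr fun f => ?_
    ring
  refine le_of_tendsto_of_tendsto h0 hsm.hasSum.tendsto_sum_nat ?_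
  filter_upwards [eventually_ge_atTop 1] with K hK
  have h1 := second (s := s) n K
  have h1' := first (s := s) n K
  have h2 := (r12_le hs n K).2
  have h2' := r1_nonneg hs n K
  have h3 := third hs Dt hDt n K
  have h4 := drift_ge hs n (n + K) (by omega)
  have h5 : ∑ l ∈ range (n + K), dd s l * (2 * wt s n l + rem s n l) =
      2 * ∑ l ∈ range (n + K), dd s l * wt s n l + ∑ l ∈ range (n + K), dd s l * rem s n l := by
    rw [mul_sum, ← sum_add_distrib]
    exact sum_congr rfl fun l _ => by ring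
  have h6 : ∑ f ∈ range K, ((f : ℝ) ^ 2 - 8 * f) * qq s n f =
      ∑ f ∈ range K, (f : ℝ) ^ 2 * qq s n f - 8 * ∑ f ∈ range K, (f : ℝ) * qq s n f := by
    rw [mul_sum, ← sum_sub_distrib]
    exact sum_congr rfl fun l _ => by ring
  rw [h5] at h1
  rw [h6]
  linarith

/-- The truncation error. -/
noncomputable def eps (x : ℕ) : ℝ := (243 / 512) ^ x * ∑' j : ℕ, (j : ℝ) ^ 2 * (3 / 4) ^ j

theorem eps_nonneg (x : ℕ) : 0 ≤ eps x :=
  mul_nonneg (by positivity) (tsum_nonneg fun _ => by positivity)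

theorem eps_tendsto : Tendsto eps atTop (𝓝 0) := by
  have := (tendsto_pow_atTop_nhds_zero_of_lt_one (r := (243 / 512 : ℝ)) (by norm_num)
    (by norm_num)).mul_const (∑' j : ℕ, (j : ℝ) ^ 2 * (3 / 4) ^ j)
  rwa [zero_mul] at this

theorem smj : Summable fun j : ℕ => (j : ℝ) ^ 2 * (3 / 4) ^ j :=
  summable_pow_mul_geometric_of_norm_lt_one 2
    (by rw [Real.norm_eq_abs, abs_of_pos (by norm_num)]; norm_num)

theorem sm_tail (hs : Adm s) (n a : ℕ) :
    Summable fun f : ℕ => (((f - a : ℕ) : ℝ)) ^ 2 * qq s n f := by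
  refine summable_qq hs n _ 1 fun f => ?_
  have h1 : ((f - a : ℕ) : ℝ) ≤ f := by exact_mod_cast Nat.sub_le f a
  have h2 : (0 : ℝ) ≤ ((f - a : ℕ) : ℝ) := Nat.cast_nonneg _
  rw [abs_of_nonneg (by positivity)]
  nlinarith

theorem tail_le (hs : Adm s) (n x : ℕ) (hn : n ≤ x) :
    EE s n (fun f => (((f - 4 * x : ℕ) : ℝ)) ^ 2) ≤ eps x := by
  unfold EE
  have h1 := (sm_tail hs n (4 * x)).sum_add_tsum_nat_add (4 * x)
  rw [← h1, sum_eq_zero, zero_add]
  · unfold eps
    rw [← tsum_mul_left]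
    refine Summable.tsum_le_tsum (fun j => ?_)
      ((summable_nat_add_iff (4 * x)).mpr (sm_tail hs n (4 * x))) (smj.mul_left _)
    rw [Nat.add_sub_cancel]
    have h2 := qq_le hs n (j + 4 * x)
    have h3 : ((3 : ℝ) / 2) ^ n ≤ (3 / 2) ^ x := pow_le_pow_right₀ (by norm_num) hn
    calc (j : ℝ) ^ 2 * qq s n (j + 4 * x) ≤ (j : ℝ) ^ 2 * ((3 / 2) ^ x * (3 / 4) ^ (j + 4 * x)) := by
          refine mul_le_mul_of_nonneg_left (h2.trans ?_) (by positivity)
          exact mul_le_mul_of_nonneg_right h3 (by positivity)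
      _ = (3 / 2 * (3 / 4) ^ 4) ^ x * ((j : ℝ) ^ 2 * (3 / 4) ^ j) := by
          rw [mul_pow, ← pow_mul, pow_add]; ring
      _ = _ := by norm_num
  · intro f hf
    have := mem_range.mp hf
    rw [Nat.sub_eq_zero_of_le this.le]
    simp

/-- The increments of the test function. -/
noncomputable def inc (x0 a y : ℕ) : ℝ := if y < x0 then 0 else 2 * (min y a : ℕ) - 7

/-- The test function. -/
noncomputable def tf (x0 a x : ℕ) : ℝ := ∑ y ∈ range x, inc x0 a y

section TestFunction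

variable {x0 a : ℕ}

theorem inc_nonneg (h0 : 8 ≤ x0) (ha : x0 < a) (y : ℕ) : 0 ≤ inc x0 a y := by
  unfold inc
  split_ifs with h
  · exact le_rfl
  · have : (8 : ℝ) ≤ (min y a : ℕ) := by
      exact_mod_cast (le_min (by omega) (by omega) : 8 ≤ min y a)
    linarith

theorem inc_le (y : ℕ) : inc x0 a y ≤ 2 * a := by
  unfold inc
  split_ifs with h
  · positivity
  · have : ((min y a : ℕ) : ℝ) ≤ a := by exact_mod_cast min_le_right y a
    linarith

theorem inc_mono (h0 : 8 ≤ x0) (ha : x0 < a) : Monotone (inc x0 a) := by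
  intro y z hyz
  by_cases h : y < x0
  · have h1 : inc x0 a y = 0 := if_pos h
    rw [h1]
    exact inc_nonneg h0 ha z
  · unfold inc
    rw [if_neg h, if_neg (by omega)]
    have : ((min y a : ℕ) : ℝ) ≤ (min z a : ℕ) := by exact_mod_cast min_le_min_right a hyz
    linarith

theorem tf_nonneg (h0 : 8 ≤ x0) (ha : x0 < a) (x : ℕ) : 0 ≤ tf x0 a x :=
  sum_nonneg fun y _ => inc_nonneg h0 ha y

theorem tf_le (h0 : 8 ≤ x0) (ha : x0 < a) (x : ℕ) : tf x0 a x ≤ 2 * a * x := by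
  calc tf x0 a x ≤ ∑ y ∈ range x, (2 * a : ℝ) := sum_le_sum fun y _ => inc_le y
    _ = 2 * a * x := by rw [sum_const, card_range, nsmul_eq_mul]; ring

theorem tf_eq_zero {x : ℕ} (hx : x ≤ x0) : tf x0 a x = 0 :=
  sum_eq_zero fun y hy => by
    unfold inc
    rw [if_pos (by have := mem_range.mp hy; omega)]

theorem tf_succ (x : ℕ) : tf x0 a (x + 1) = tf x0 a x + inc x0 a x := sum_range_succ _ _

theorem tf_mono (h0 : 8 ≤ x0) (ha : x0 < a) : Monotone (tf x0 a) :=
  monotone_nat_of_le_succ fun x => by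
    rw [tf_succ]
    linarith [inc_nonneg h0 ha x]

theorem tf_one_le (h0 : 8 ≤ x0) (ha : x0 < a) {x : ℕ} (hx : x0 + 1 ≤ x) : 1 ≤ tf x0 a x := by
  refine le_trans ?_ (tf_mono h0 ha hx)
  rw [tf_succ, tf_eq_zero le_rfl, zero_add]
  unfold inc
  rw [if_neg (by omega), min_eq_left ha.le]
  have : (8 : ℝ) ≤ x0 := by exact_mod_cast h0
  linarith

theorem tf_tangent (h0 : 8 ≤ x0) (ha : x0 < a) (n x : ℕ) :
    tf x0 a n + inc x0 a n * ((x : ℝ) - n) ≤ tf x0 a x := by
  rcases le_total n x with h | h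
  · obtain ⟨j, rfl⟩ := Nat.exists_eq_add_of_le h
    induction j with
    | zero => simp
    | succ j ih =>
      rw [← add_assoc, tf_succ]
      have h1 := ih (by omega)
      have h2 := inc_mono h0 ha (by omega : n ≤ n + j)
      push_cast at h1 ⊢
      nlinarith
  · obtain ⟨j, rfl⟩ := Nat.exists_eq_add_of_le h
    have key : ∀ i, i ≤ j → tf x0 a (x + i) ≤ tf x0 a x + inc x0 a (x + j) * i := by
      intro i
      induction i with
      | zero => simp
      | succ i ih =>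
        intro hi
        rw [← add_assoc, tf_succ]
        have h1 := ih (by omega)
        have h2 := inc_mono h0 ha (by omega : x + i ≤ x + j)
        push_cast
        nlinarith
    have := key j le_rfl
    push_cast
    nlinarith

theorem tf_upper (x : ℕ) (hx : x0 ≤ x) :
    tf x0 a x ≤ ((x : ℝ) ^ 2 - 8 * x) - ((x0 : ℝ) ^ 2 - 8 * x0) := by
  induction x, hx using Nat.le_induction with
  | base => rw [tf_eq_zero le_rfl]; linarith
  | succ x hx ih =>
    rw [tf_succ]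
    unfold inc
    rw [if_neg (by omega)]
    have : ((min x a : ℕ) : ℝ) ≤ x := by exact_mod_cast min_le_left x a
    push_cast at this ⊢
    nlinarith

theorem tf_lower (h0 : 8 ≤ x0) (ha : x0 < a) (x : ℕ) :
    ((x : ℝ) ^ 2 - 8 * x) - ((x0 : ℝ) ^ 2 - 8 * x0) - ((x - a : ℕ) : ℝ) ^ 2 ≤ tf x0 a x := by
  rcases le_total x x0 with h | h
  · rw [tf_eq_zero h, Nat.sub_eq_zero_of_le (by omega)]
    have h1 : (x : ℝ) ≤ x0 := by exact_mod_cast h
    have h2 : (8 : ℝ) ≤ x0 := by exact_mod_cast h0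
    have h3 : (0 : ℝ) ≤ x := Nat.cast_nonneg x
    push_cast
    nlinarith
  · induction x, h using Nat.le_induction with
    | base =>
      rw [tf_eq_zero le_rfl, Nat.sub_eq_zero_of_le (by omega)]
      simp
    | succ x hx ih =>
      rw [tf_succ]
      unfold inc
      rw [if_neg (by omega)]
      rcases Nat.lt_or_ge x a with h | h
      · rw [min_eq_left h.le, Nat.sub_eq_zero_of_le (by omega)]
        rw [Nat.sub_eq_zero_of_le (by omega)] at ih
        push_cast at ih ⊢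
        nlinarith
      · rw [min_eq_right h, Nat.cast_sub (by omega)]
        rw [Nat.cast_sub h] at ih
        push_cast at ih ⊢
        nlinarith

theorem sm_tf (hs : Adm s) (h0 : 8 ≤ x0) (ha : x0 < a) (n : ℕ) :
    Summable fun f => tf x0 a f * qq s n f := by
  refine summable_qq hs n _ (2 * a) fun f => ?_
  rw [abs_of_nonneg (tf_nonneg h0 ha f)]
  have h1 := tf_le h0 ha f
  have h2 : (0 : ℝ) ≤ f := Nat.cast_nonneg f
  have h3 : (0 : ℝ) ≤ a := Nat.cast_nonneg a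
  nlinarith [mul_nonneg h3 h2, mul_nonneg h3 (sq_nonneg (f : ℝ))]

theorem EE_tf_nonneg (hs : Adm s) (h0 : 8 ≤ x0) (ha : x0 < a) (n : ℕ) :
    0 ≤ EE s n (tf x0 a) :=
  tsum_nonneg fun f => mul_nonneg (tf_nonneg h0 ha f) (qq_nonneg hs n f)

theorem EE_tf_le (hs : Adm s) (h0 : 8 ≤ x0) (ha : x0 < a) (n : ℕ) :
    EE s n (tf x0 a) ≤ 2 * a * (n + 1) := by
  calc EE s n (tf x0 a) ≤ ∑' f : ℕ, 2 * a * ((f : ℝ) * qq s n f) := by
        refine Summable.tsum_le_tsum (fun f => ?_) (sm_tf hs h0 ha n) ((sm1 hs n).mul_left _)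
        rw [← mul_assoc]
        exact mul_le_mul_of_nonneg_right (tf_le h0 ha f) (qq_nonneg hs n f)
    _ = 2 * a * EE s n (fun f => f) := tsum_mul_left
    _ ≤ 2 * a * (n + 1) := by
        refine mul_le_mul_of_nonneg_left ?_ (by positivity)
        have h1 := EE1_le hs n
        have h2 : 0 ≤ ∑ l ∈ range (n + 1), dd s l := sum_nonneg fun l _ => dd_nonneg hs l
        linarith

/-- The drift of the test function in the middle range. -/
theorem EE_tf_mid (hs : Adm s) (Dt : ℝ) (hDt : ∀ m, ∑ l ∈ range m, dd s l ≤ Dt)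
    (h0 : 8 ≤ x0) {x : ℕ} (ha : x0 < 4 * x) (n : ℕ) (hn : n ≤ x) :
    (n + 1) * (n - 5) - 2 * (n + 1) * Dt + 7 * ∑ l ∈ range (n + 1), dd s l -
      ((x0 : ℝ) ^ 2 - 8 * x0) - eps x ≤ EE s n (tf x0 (4 * x)) := by
  have h1 := EE2_ge hs Dt hDt n
  have h2 := tail_le hs n x hn
  have hsm : Summable fun f : ℕ => ((f : ℝ) ^ 2 - 8 * f) * qq s n f := by
    refine ((sm2 hs n).sub ((sm1 hs n).mul_left 8)).congr fun f => ?_
    ring
  have h3 : EE s n (fun f => (f : ℝ) ^ 2 - 8 * f) - ((x0 : ℝ) ^ 2 - 8 * x0) -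
      EE s n (fun f => (((f - 4 * x : ℕ) : ℝ)) ^ 2) ≤ EE s n (tf x0 (4 * x)) := by
    have h4 : EE s n (fun f => (f : ℝ) ^ 2 - 8 * f) - ((x0 : ℝ) ^ 2 - 8 * x0) -
        EE s n (fun f => (((f - 4 * x : ℕ) : ℝ)) ^ 2) =
        ∑' f : ℕ, (((f : ℝ) ^ 2 - 8 * f) * qq s n f - ((x0 : ℝ) ^ 2 - 8 * x0) * qq s n f -
          (((f - 4 * x : ℕ) : ℝ)) ^ 2 * qq s n f) := by
      have h5 := (EE_one hs n)
      rw [Summable.tsum_sub (hsm.sub (h5.summable.mul_left _)) (sm_tail hs n _),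
        Summable.tsum_sub hsm (h5.summable.mul_left _), tsum_mul_left, h5.tsum_eq, mul_one]
      rfl
    rw [h4]
    refine Summable.tsum_le_tsum (fun f => ?_)
      ((hsm.sub ((EE_one hs n).summable.mul_left _)).sub (sm_tail hs n _)) (sm_tf hs h0 ha n)
    rw [← sub_mul, ← sub_mul]
    exact mul_le_mul_of_nonneg_right (tf_lower h0 ha f) (qq_nonneg hs n f)
  linarith

/-- The drift of the test function in general. -/
theorem EE_tf_gen (hs : Adm s) (Dt : ℝ) (hDt : ∀ m, ∑ l ∈ range m, dd s l ≤ Dt)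
    (h0 : 8 ≤ x0) (ha : x0 < a) (n : ℕ) :
    tf x0 a n + inc x0 a n * (1 - Dt) ≤ EE s n (tf x0 a) := by
  have h1 := EE1_ge hs Dt hDt n
  have h2 : tf x0 a n + inc x0 a n * (EE s n (fun f => f) - n) ≤ EE s n (tf x0 a) := by
    have h4 : tf x0 a n + inc x0 a n * (EE s n (fun f => f) - n) =
        ∑' f : ℕ, ((tf x0 a n - inc x0 a n * n) * qq s n f + inc x0 a n * ((f : ℝ) * qq s n f)) := by
      have h5 := (EE_one hs n)
      rw [Summable.tsum_add (h5.summable.mul_left _) ((sm1 hs n).mul_left _), tsum_mul_left,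
        h5.tsum_eq, tsum_mul_left]
      unfold EE
      ring
    rw [h4]
    refine Summable.tsum_le_tsum (fun f => ?_)
      (((EE_one hs n).summable.mul_left _).add ((sm1 hs n).mul_left _)) (sm_tf hs h0 ha n)
    rw [← mul_assoc, ← add_mul]
    refine mul_le_mul_of_nonneg_right ?_ (qq_nonneg hs n f)
    have := tf_tangent h0 ha n f
    linarith
  have h3 : inc x0 a n * (1 - Dt) ≤ inc x0 a n * (EE s n (fun f => f) - n) :=
    mul_le_mul_of_nonneg_left (by linarith) (inc_nonneg h0 ha n)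
  linarith

end TestFunction

end Q169.CW
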