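import Pool.Agent.Q169.CW.Walk
import Pool.Agent.Q169.CW.Quench2

/-!
Resampling a coordinate of a product measure, and the law of the number of failures before the
`(n + 1)`-st success.
-/

namespace Q169.CW

open Finset Filter Topology MeasureTheory
open scoped ENNReal

section General

variable {ι X Y : Type*} [DecidableEq ι] [MeasurableSpace X] [MeasurableSpace Y]

/-- Modifying one coordinate by a measure preserving map. -/
theorem mp_update (μ : Measure X) [IsProbabilityMeasure μ] (ρ : Measure Y)
    [IsProbabilityMeasure ρ] {T : X × Y → X} (hT : MeasurePreserving T (μ.prod ρ) μ) (z : ι) :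
    MeasurePreserving (fun p : (ι → X) × Y => Function.update p.1 z (T (p.1 z, p.2)))
      ((Measure.infinitePi fun _ : ι => μ).prod ρ) (Measure.infinitePi fun _ : ι => μ) := by
  have hm : Measurable (fun p : (ι → X) × Y => Function.update p.1 z (T (p.1 z, p.2))) := by
    refine measurable_pi_iff.mpr fun i => ?_
    by_cases hi : i = z
    · subst hi
      simp only [Function.update_self]
      exact hT.measurable.comp (by fun_prop)
    · simp only [Function.update_of_ne hi]
      fun_prop
  refine ⟨hm, Measure.eq_infinitePi _ fun s t ht => ?_⟩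
  have hms : MeasurableSet (Set.pi (s : Set ι) t) :=
    MeasurableSet.pi s.countable_toSet fun i _ => ht i
  rw [Measure.map_apply hm hms, Measure.prod_apply_symm (hm hms)]
  by_cases hz : z ∈ s
  · have h1 : ∀ y : Y, (fun x => (x, y)) ⁻¹' ((fun p : (ι → X) × Y =>
        Function.update p.1 z (T (p.1 z, p.2))) ⁻¹' (Set.pi (s : Set ι) t)) =
        Set.pi (s : Set ι) (Function.update t z {x | T (x, y) ∈ t z}) := by
      intro y
      ext x
      simp only [Set.mem_preimage, Set.mem_pi]
      refine forall₂_congr fun i _ => ?_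
      by_cases hi : i = z
      · subst hi; simp
      · simp [Function.update_of_ne hi]
    have h2 : ∀ y : Y, MeasurableSet {x | T (x, y) ∈ t z} := fun y =>
      (hT.measurable.comp (by fun_prop : Measurable fun x : X => (x, y))) (ht z)
    have h3 : ∀ y : Y, (Measure.infinitePi fun _ : ι => μ)
        (Set.pi (s : Set ι) (Function.update t z {x | T (x, y) ∈ t z})) =
        (∏ i ∈ s.erase z, μ (t i)) * μ {x | T (x, y) ∈ t z} := by
      intro y
      rw [Measure.infinitePi_pi]
      · rw [← Finset.prod_erase_mul s _ hz, Function.update_self]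
        congr 1
        refine Finset.prod_congr rfl fun i hi => ?_
        rw [Function.update_of_ne (Finset.ne_of_mem_erase hi)]
      · intro i _
        by_cases hi : i = z
        · subst hi; simpa using h2 y
        · rw [Function.update_of_ne hi]; exact ht i
    simp only [h1, h3]
    rw [lintegral_const_mul']
    · have h4 : ∫⁻ y, μ {x | T (x, y) ∈ t z} ∂ρ = (μ.prod ρ) (T ⁻¹' t z) := by
        rw [Measure.prod_apply_symm (hT.measurable (ht z))]
        rfl
      rw [h4, hT.measure_preimage (ht z).nullMeasurableSet, Finset.prod_erase_mul s _ hz]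
    · exact ENNReal.prod_ne_top fun i _ => measure_ne_top _ _
  · have h1 : ∀ y : Y, (fun x => (x, y)) ⁻¹' ((fun p : (ι → X) × Y =>
        Function.update p.1 z (T (p.1 z, p.2))) ⁻¹' (Set.pi (s : Set ι) t)) =
        Set.pi (s : Set ι) t := by
      intro y
      ext x
      simp only [Set.mem_preimage, Set.mem_pi]
      refine forall₂_congr fun i hi => ?_
      have : i ≠ z := by rintro rfl; exact hz hi
      simp [Function.update_of_ne this]
    simp only [h1]
    rw [Measure.infinitePi_pi _ fun i _ => ht i]
    simp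

/-- Resampling one coordinate. -/
theorem lintegral_update (μ : Measure X) [IsProbabilityMeasure μ] (z : ι)
    {g : (ι → X) → ℝ≥0∞} (hg : Measurable g) :
    ∫⁻ a, g a ∂(Measure.infinitePi fun _ : ι => μ) =
      ∫⁻ a, ∫⁻ x, g (Function.update a z x) ∂μ ∂(Measure.infinitePi fun _ : ι => μ) := by
  have h := mp_update μ μ (T := Prod.snd) measurePreserving_snd z
  rw [← h.lintegral_comp hg]
  exact lintegral_prod _ (hg.comp h.measurable).aemeasurable

/-- A set that does not depend on one coordinate is independent of this coordinate. -/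
theorem indep_coord (μ : Measure X) [IsProbabilityMeasure μ] (z : ι) {E : Set (ι → X)}
    (hE : MeasurableSet E) (hE' : ∀ a x, Function.update a z x ∈ E ↔ a ∈ E) {B : Set X}
    (hB : MeasurableSet B) :
    (Measure.infinitePi fun _ : ι => μ) (E ∩ {a | a z ∈ B}) =
      (Measure.infinitePi fun _ : ι => μ) E * μ B := by
  have h := mp_update μ μ (T := Prod.snd) measurePreserving_snd z
  have hm : MeasurableSet (E ∩ {a : ι → X | a z ∈ B}) :=
    hE.inter ((measurable_pi_apply z) hB)
  rw [← h.measure_preimage hm.nullMeasurableSet, ← Measure.prod_prod]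
  congr 1
  ext p
  simp [hE']

end General

/-- The arrows given by coins. -/
noncomputable def ar (s u : ℕ → ℝ) : ℕ → Bool := fun i => decide (u i < s i)

theorem ar_eq_true {s u : ℕ → ℝ} {i : ℕ} : ar s u i = true ↔ u i < s i := by
  unfold ar
  rw [decide_eq_true_iff]

theorem measurable_ar : Measurable fun x : (ℕ → ℝ) × (ℕ → ℝ) => ar x.1 x.2 := by
  refine measurable_pi_iff.mpr fun i => ?_
  refine measurable_to_bool ?_
  have : (fun x : (ℕ → ℝ) × (ℕ → ℝ) => ar x.1 x.2 i) ⁻¹' {true} = {x | x.2 i < x.1 i} := by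
    ext x
    simp [ar_eq_true]
  rw [this]
  exact measurableSet_lt (by fun_prop) (by fun_prop)

theorem measurable_tr (m : ℕ) : Measurable fun b : ℕ → Bool => tr b m := by
  induction m with
  | zero => exact measurable_const
  | succ m ih =>
    have h : Measurable fun b : ℕ → Bool => (if b m then 1 else 0 : ℕ) :=
      (Measurable.of_discrete (f := fun c : Bool => (if c then 1 else 0 : ℕ))).comp
        (measurable_pi_apply m)
    exact ih.add h

theorem measurable_fl (m : ℕ) : Measurable fun b : ℕ → Bool => fl b m := by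
  induction m with
  | zero => exact measurable_const
  | succ m ih =>
    have h : Measurable fun b : ℕ → Bool => (if b m then 0 else 1 : ℕ) :=
      (Measurable.of_discrete (f := fun c : Bool => (if c then 0 else 1 : ℕ))).comp
        (measurable_pi_apply m)
    exact ih.add h

theorem measurable_NN (n : ℕ) : Measurable fun b : ℕ → Bool => NN b n := by
  refine measurable_to_countable' fun m => ?_
  have h : (fun b : ℕ → Bool => NN b n) ⁻¹' {m} =
      {b | n < tr b m} ∩ (⋂ j ∈ Set.Iio m, {b | n < tr b j}ᶜ) ∪
        (⋂ j, {b | n < tr b j}ᶜ) ∩ {_b | m = 0} := by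
    ext b
    simp only [Set.mem_preimage, Set.mem_singleton_iff, Set.mem_union, Set.mem_inter_iff,
      Set.mem_ofPred_eq, Set.mem_iInter, Set.mem_Iio, Set.mem_compl_iff]
    constructor
    · intro h
      by_cases hne : ∃ j, n < tr b j
      · left
        refine ⟨?_, fun j hj => ?_⟩
        · rw [← h]
          exact Nat.sInf_mem (s := {m | n < tr b m}) hne
        · rw [← h] at hj
          exact Nat.notMem_of_lt_sInf (s := {m | n < tr b m}) hj
      · push Not at hne
        right
        refine ⟨fun j => not_lt.mpr (hne j), ?_⟩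
        rw [← h]
        unfold NN
        have : {m | n < tr b m} = ∅ := by
          ext j
          simp [hne j]
        rw [this, Nat.sInf_empty]
    · rintro (⟨h1, h2⟩ | ⟨h1, h2⟩)
      · apply le_antisymm
        · exact Nat.sInf_le h1
        · by_contra hlt
          push Not at hlt
          exact h2 _ hlt (Nat.sInf_mem (s := {m | n < tr b m}) ⟨m, h1⟩)
      · unfold NN
        have : {m | n < tr b m} = ∅ := by
          ext j
          simpa using h1 j
        rw [this, Nat.sInf_empty, h2]
  rw [h]
  have hs : ∀ j, MeasurableSet {b : ℕ → Bool | n < tr b j} := fun j =>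
    (measurable_tr j) (measurableSet_Ioi (a := n))
  exact ((hs m).inter (MeasurableSet.biInter (Set.to_countable _) fun j _ => (hs j).compl)).union
    ((MeasurableSet.iInter fun j => (hs j).compl).inter (MeasurableSet.const _))

theorem measurable_FF (n : ℕ) : Measurable fun b : ℕ → Bool => FF b n := by
  have h : Measurable fun p : ℕ × (ℕ → Bool) => fl p.2 p.1 :=
    measurable_from_prod_countable_right fun m => measurable_fl m
  exact h.comp ((measurable_NN n).prodMk measurable_id)

theorem measurable_FF2 : Measurable fun p : ℕ × (ℕ → Bool) => FF p.2 p.1 :=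
  measurable_from_prod_countable_right fun m => measurable_FF m

/-- The uniform distribution. -/
noncomputable def unif : Measure ℝ := volume.restrict (Set.Ioc 0 1)

instance : IsProbabilityMeasure unif := ⟨by simp [unif]⟩

theorem unif_lt {x : ℝ} (h0 : 0 ≤ x) (h1 : x ≤ 1) : unif {t | t < x} = ENNReal.ofReal x := by
  have hl : MeasurableSet {t : ℝ | t < x} := measurableSet_Iio
  unfold unif
  rw [Measure.restrict_apply hl]
  have : {t | t < x} ∩ Set.Ioc 0 1 = Set.Ioo 0 x := by
    ext t
    simp only [Set.mem_inter_iff, Set.mem_ofPred_eq, Set.mem_Ioc, Set.mem_Ioo]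
    constructor
    · rintro ⟨h2, h3, _⟩; exact ⟨h3, h2⟩
    · rintro ⟨h2, h3⟩; exact ⟨h3, h2, by linarith⟩
  rw [this, Real.volume_Ioo, sub_zero]

theorem unif_ge {x : ℝ} (h0 : 0 ≤ x) (h1 : x ≤ 1) : unif {t | t < x}ᶜ = ENNReal.ofReal (1 - x) := by
  have hl : MeasurableSet {t : ℝ | t < x} := measurableSet_Iio
  rw [prob_compl_eq_one_sub hl, unif_lt h0 h1, ENNReal.ofReal_sub _ h0,
    ENNReal.ofReal_one]

/-- The coins at one site. -/
noncomputable def coin : Measure (ℕ → ℝ) := Measure.infinitePi fun _ : ℕ => unif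

instance : IsProbabilityMeasure coin := by unfold coin; infer_instance

theorem tr_update (s u : ℕ → ℝ) (m : ℕ) (x : ℝ) :
    ∀ j ≤ m, tr (ar s (Function.update u m x)) j = tr (ar s u) j := by
  intro j
  induction j with
  | zero => intro _; rfl
  | succ j ih =>
    intro hj
    simp only [tr]
    rw [ih (by omega)]
    have : ar s (Function.update u m x) j = ar s u j := by
      unfold ar
      rw [Function.update_of_ne (by omega)]
    rw [this]

variable {s : ℕ → ℝ}

theorem measurable_ar' (s : ℕ → ℝ) : Measurable fun u : ℕ → ℝ => ar s u :=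
  measurable_ar.comp (by fun_prop : Measurable fun u : ℕ → ℝ => (s, u))

theorem coin_tr (hs : Adm s) (m t : ℕ) :
    coin {u | tr (ar s u) m = t} = ENNReal.ofReal (pp s m t) := by
  have hmeas : ∀ m t, MeasurableSet {u : ℕ → ℝ | tr (ar s u) m = t} := fun m t =>
    ((measurable_tr m).comp (measurable_ar' s)) (measurableSet_singleton t)
  induction m generalizing t with
  | zero =>
    simp only [tr, pp]
    split_ifs with h
    · subst h; simp
    · have : {u : ℕ → ℝ | 0 = t} = ∅ := by ext u; simp; omega
      rw [this]; simp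
  | succ m ih =>
    obtain ⟨h1, h2⟩ := hs m
    have hinv : ∀ t, ∀ (a : ℕ → ℝ) (x : ℝ), Function.update a m x ∈ {u | tr (ar s u) m = t} ↔
        a ∈ {u | tr (ar s u) m = t} := by
      intro t a x
      simp only [Set.mem_ofPred_eq, tr_update s a m x m le_rfl]
    have hl : MeasurableSet {t : ℝ | t < s m} := measurableSet_Iio
    cases t with
    | zero =>
      have h3 : {u | tr (ar s u) (m + 1) = 0} =
          {u | tr (ar s u) m = 0} ∩ {u : ℕ → ℝ | u m ∈ {t : ℝ | t < s m}ᶜ} := by
        ext u
        simp only [tr, Set.mem_ofPred_eq, Set.mem_inter_iff, Set.mem_compl_iff]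
        by_cases h : u m < s m
        · rw [if_pos (ar_eq_true.mpr h)]; simp [h]
        · rw [if_neg (by rw [ar_eq_true]; exact h)]; simp [h]
      rw [h3, coin, indep_coord unif m (hmeas m 0) (hinv 0) hl.compl, unif_ge (by linarith) h2]
      have := ih 0
      rw [coin] at this
      rw [this, ← ENNReal.ofReal_mul (pp_nonneg hs _ _)]
      simp only [pp]
      rw [mul_comm]
    | succ t =>
      have h3 : {u | tr (ar s u) (m + 1) = t + 1} =
          {u | tr (ar s u) m = t} ∩ {u : ℕ → ℝ | u m ∈ {t : ℝ | t < s m}} ∪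
          {u | tr (ar s u) m = t + 1} ∩ {u : ℕ → ℝ | u m ∈ {t : ℝ | t < s m}ᶜ} := by
        ext u
        simp only [tr, Set.mem_ofPred_eq, Set.mem_inter_iff, Set.mem_compl_iff, Set.mem_union]
        by_cases h : u m < s m
        · rw [if_pos (ar_eq_true.mpr h)]; simp [h]
        · rw [if_neg (by rw [ar_eq_true]; exact h)]; simp [h]
      have hdisj : Disjoint ({u | tr (ar s u) m = t} ∩ {u : ℕ → ℝ | u m ∈ {t : ℝ | t < s m}})
          ({u | tr (ar s u) m = t + 1} ∩ {u : ℕ → ℝ | u m ∈ {t : ℝ | t < s m}ᶜ}) := by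
        rw [Set.disjoint_left]
        rintro u ⟨_, h4⟩ ⟨_, h5⟩
        exact h5 h4
      rw [h3, measure_union hdisj ((hmeas m (t + 1)).inter ((measurable_pi_apply m) hl.compl)),
        coin, indep_coord unif m (hmeas m t) (hinv t) hl,
        indep_coord unif m (hmeas m (t + 1)) (hinv (t + 1)) hl.compl, unif_ge (by linarith) h2,
        unif_lt (by linarith) h2]
      have e1 := ih t
      have e2 := ih (t + 1)
      rw [coin] at e1 e2
      rw [e1, e2, ← ENNReal.ofReal_mul (pp_nonneg hs _ _), ← ENNReal.ofReal_mul (pp_nonneg hs _ _),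
        ← ENNReal.ofReal_add (mul_nonneg (pp_nonneg hs _ _) (by linarith))
          (mul_nonneg (pp_nonneg hs _ _) (by linarith))]
      simp only [pp]
      congr 1
      ring

/-- The event that the `(n + 1)`-st success comes after `f` failures. -/
def BB (s : ℕ → ℝ) (n f : ℕ) : Set (ℕ → ℝ) :=
  {u | tr (ar s u) (n + f) = n} ∩ {u | u (n + f) ∈ {t : ℝ | t < s (n + f)}}

theorem measurableSet_BB (n f : ℕ) : MeasurableSet (BB s n f) :=
  (((measurable_tr _).comp (measurable_ar' s)) (measurableSet_singleton n)).inter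
    ((measurable_pi_apply _) measurableSet_Iio)

theorem coin_BB (hs : Adm s) (n f : ℕ) : coin (BB s n f) = ENNReal.ofReal (qq s n f) := by
  obtain ⟨h1, h2⟩ := hs (n + f)
  unfold BB
  have h3 := coin_tr hs (n + f) n
  rw [coin] at h3 ⊢
  have hl : MeasurableSet {t : ℝ | t < s (n + f)} := measurableSet_Iio
  rw [indep_coord unif (n + f) _ _ hl, unif_lt (by linarith) h2, h3,
    ← ENNReal.ofReal_mul (pp_nonneg hs _ _)]
  · unfold qq
    rw [mul_comm]
  · exact ((measurable_tr _).comp (measurable_ar' s)) (measurableSet_singleton n)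
  · intro a x
    simp only [Set.mem_ofPred_eq, tr_update s a (n + f) x (n + f) le_rfl]

theorem FF_of_BB {n f : ℕ} {u : ℕ → ℝ} (h : u ∈ BB s n f) : FF (ar s u) n = f :=
  FF_eq_of h.1 (ar_eq_true.mpr h.2)

theorem ae_BB (hs : Adm s) (n : ℕ) : ∀ᵐ u ∂coin, u ∈ ⋃ f, BB s n f := by
  have h1 : coin (⋃ f, BB s n f) = 1 := by
    rw [measure_iUnion]
    · simp only [coin_BB hs]
      rw [← ENNReal.ofReal_tsum_of_nonneg (fun f => qq_nonneg hs n f) (EE_one hs n).summable,
        (EE_one hs n).tsum_eq, ENNReal.ofReal_one]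
    · intro f g hfg
      rw [Function.onFun, Set.disjoint_left]
      intro u hu hu'
      exact hfg ((FF_of_BB hu).symm.trans (FF_of_BB hu'))
    · exact fun f => measurableSet_BB n f
  rw [ae_iff]
  have h2 : {u | ¬ u ∈ ⋃ f, BB s n f} = (⋃ f, BB s n f)ᶜ := rfl
  rw [h2, prob_compl_eq_one_sub (MeasurableSet.iUnion fun f => measurableSet_BB n f), h1, tsub_self]

theorem ae_rich (hs : Adm s) : ∀ᵐ u ∂coin, ∀ n, ∃ m, n < tr (ar s u) m := by
  rw [ae_all_iff]
  intro n
  filter_upwards [ae_BB hs n] with u hu
  obtain ⟨f, hf⟩ := Set.mem_iUnion.mp hu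
  refine ⟨n + f + 1, ?_⟩
  have h1 : tr (ar s u) (n + f) = n := hf.1
  have h2 : ar s u (n + f) = true := ar_eq_true.mpr hf.2
  simp only [tr, h1, h2, if_true]
  omega

/-- Expectations of functions of the number of failures. -/
theorem lintegral_FF (hs : Adm s) (n : ℕ) (G : ℕ → ℝ≥0∞) :
    ∫⁻ u, G (FF (ar s u) n) ∂coin = ∑' f, G f * ENNReal.ofReal (qq s n f) := by
  have h1 : ∫⁻ u, G (FF (ar s u) n) ∂coin =
      ∫⁻ u, ∑' f, (BB s n f).indicator (fun _ => G f) u ∂coin := by
    refine lintegral_congr_ae ?_
    filter_upwards [ae_BB hs n] with u hu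
    obtain ⟨f, hf⟩ := Set.mem_iUnion.mp hu
    rw [tsum_eq_single f, Set.indicator_of_mem hf, FF_of_BB hf]
    intro g hg
    rw [Set.indicator_of_notMem]
    intro hg'
    exact hg ((FF_of_BB hg').symm.trans (FF_of_BB hf))
  rw [h1, lintegral_tsum]
  · refine tsum_congr fun f => ?_
    rw [lintegral_indicator_const (measurableSet_BB n f), coin_BB hs]
  · exact fun f => (measurable_const.indicator (measurableSet_BB n f)).aemeasurable

theorem lintegral_FF_real (hs : Adm s) (n : ℕ) (h : ℕ → ℝ) (h0 : ∀ f, 0 ≤ h f)
    (hsm : Summable fun f => h f * qq s n f) :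
    ∫⁻ u, ENNReal.ofReal (h (FF (ar s u) n)) ∂coin = ENNReal.ofReal (EE s n h) := by
  rw [lintegral_FF hs n fun f => ENNReal.ofReal (h f)]
  unfold EE
  rw [ENNReal.ofReal_tsum_of_nonneg (fun f => mul_nonneg (h0 f) (qq_nonneg hs n f)) hsm]
  exact tsum_congr fun f => (ENNReal.ofReal_mul (h0 f)).symm

end Q169.CW
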