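import Mathlib

/-!
Walks on the integers driven by arrays of arrows: deterministic facts.
-/

namespace Q169.CW

open Finset

/-- The number of `true`s among the first `m` entries. -/
def tr (b : ℕ → Bool) : ℕ → ℕ
  | 0 => 0
  | m + 1 => tr b m + (if b m then 1 else 0)

/-- The number of `false`s among the first `m` entries. -/
def fl (b : ℕ → Bool) : ℕ → ℕ
  | 0 => 0
  | m + 1 => fl b m + (if b m then 0 else 1)

theorem tr_add_fl (b : ℕ → Bool) (m : ℕ) : tr b m + fl b m = m := by
  induction m with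
  | zero => rfl
  | succ m ih =>
    simp only [tr, fl]
    split_ifs <;> omega

theorem fl_mono (b : ℕ → Bool) : Monotone (fl b) :=
  monotone_nat_of_le_succ fun m => by simp only [fl]; omega

theorem tr_mono (b : ℕ → Bool) : Monotone (tr b) :=
  monotone_nat_of_le_succ fun m => by simp only [tr]; omega

/-- The number of draws needed to see `n + 1` times `true`. -/
noncomputable def NN (b : ℕ → Bool) (n : ℕ) : ℕ := sInf {m | n < tr b m}

/-- The number of `false`s before the `(n + 1)`-st `true`. -/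
noncomputable def FF (b : ℕ → Bool) (n : ℕ) : ℕ := fl b (NN b n)

theorem FF_le_fl {b : ℕ → Bool} {n m : ℕ} (h : n < tr b m) : FF b n ≤ fl b m :=
  fl_mono b (Nat.sInf_le h)

theorem tr_NN {b : ℕ → Bool} {n : ℕ} (h : ∃ m, n < tr b m) : tr b (NN b n) = n + 1 := by
  have h1 : n < tr b (NN b n) := Nat.sInf_mem (s := {m | n < tr b m}) h
  have h2 : ∀ m, m < NN b n → tr b m ≤ n := fun m hm => by
    have := Nat.notMem_of_lt_sInf (s := {m | n < tr b m}) hm
    simpa using this
  obtain ⟨N, hN⟩ : ∃ N, NN b n = N := ⟨_, rfl⟩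
  rw [hN] at h1 h2 ⊢
  cases N with
  | zero => simp [tr] at h1
  | succ N =>
    have h3 := h2 N (Nat.lt_succ_self N)
    simp only [tr] at h1 ⊢
    split_ifs at h1 ⊢ <;> omega

theorem NN_eq {b : ℕ → Bool} {n : ℕ} (h : ∃ m, n < tr b m) : NN b n = FF b n + n + 1 := by
  have h1 := tr_add_fl b (NN b n)
  rw [tr_NN h] at h1
  unfold FF
  omega

theorem FF_eq_of {b : ℕ → Bool} {n f : ℕ} (h : tr b (n + f) = n) (hb : b (n + f) = true) :
    FF b n = f := by
  have h1 : tr b (n + f + 1) = n + 1 := by simp [tr, h, hb]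
  have h2 : NN b n = n + f + 1 := by
    apply le_antisymm
    · exact Nat.sInf_le (by simp [h1])
    · by_contra hlt
      push Not at hlt
      have h3 : n < tr b (NN b n) :=
        Nat.sInf_mem (s := {m | n < tr b m}) ⟨n + f + 1, by simp [h1]⟩
      have h4 := tr_mono b (Nat.lt_succ_iff.mp hlt)
      omega
  have h3 := NN_eq (b := b) (n := n) ⟨n + f + 1, by omega⟩
  omega

/-- The state of the walk: position and numbers of visits. -/
def st (a : ℤ → ℕ → Bool) : ℕ → ℤ × (ℤ → ℕ)
  | 0 => (0, fun _ => 0)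
  | n + 1 =>
    ((st a n).1 + (if a (st a n).1 ((st a n).2 (st a n).1) then 1 else -1),
      Function.update (st a n).2 (st a n).1 ((st a n).2 (st a n).1 + 1))

/-- The position of the walk. -/
def pos (a : ℤ → ℕ → Bool) (n : ℕ) : ℤ := (st a n).1

/-- The number of visits before time `n`. -/
def cnt (a : ℤ → ℕ → Bool) (n : ℕ) : ℤ → ℕ := (st a n).2

variable {a : ℤ → ℕ → Bool}

theorem pos_zero : pos a 0 = 0 := rfl

theorem cnt_zero (z : ℤ) : cnt a 0 z = 0 := rfl

theorem pos_succ (n : ℕ) :
    pos a (n + 1) = pos a n + (if a (pos a n) (cnt a n (pos a n)) then 1 else -1) := rfl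

theorem cnt_succ (n : ℕ) :
    cnt a (n + 1) = Function.update (cnt a n) (pos a n) (cnt a n (pos a n) + 1) := rfl

theorem cnt_succ_apply (n : ℕ) (z : ℤ) :
    cnt a (n + 1) z = cnt a n z + (if pos a n = z then 1 else 0) := by
  rw [cnt_succ]
  by_cases h : pos a n = z
  · subst h; simp
  · rw [Function.update_of_ne (Ne.symm h), if_neg h, add_zero]

theorem cnt_eq_sum (n : ℕ) (z : ℤ) :
    cnt a n z = ∑ m ∈ range n, (if pos a m = z then 1 else 0) := by
  induction n with
  | zero => rfl
  | succ n ih => rw [cnt_succ_apply, ih, sum_range_succ]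

theorem balance (n : ℕ) (j : ℤ) :
    (tr (a j) (cnt a n j) : ℤ) - fl (a (j + 1)) (cnt a n (j + 1)) =
      (if 0 ≤ j ∧ j < pos a n then 1 else 0) - (if pos a n ≤ j ∧ j < 0 then 1 else 0) := by
  induction n with
  | zero =>
    rw [cnt_zero, cnt_zero, pos_zero]
    simp only [tr, fl]
    split_ifs <;> omega
  | succ n ih =>
    rw [cnt_succ_apply, cnt_succ_apply, pos_succ]
    by_cases h1 : pos a n = j
    · subst h1
      have h2 : pos a n ≠ pos a n + 1 := by omega
      rw [if_pos rfl, if_neg h2, add_zero]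
      simp only [tr]
      cases hb : a (pos a n) (cnt a n (pos a n)) <;> simp only [Bool.false_eq_true, if_false,
        if_true] <;> split_ifs at ih ⊢ <;> push_cast <;> omega
    · by_cases h2 : pos a n = j + 1
      · rw [if_neg h1, add_zero, if_pos h2]
        simp only [fl]
        rw [h2] at ih ⊢
        cases hb : a (j + 1) (cnt a n (j + 1)) <;> simp only [Bool.false_eq_true, if_false,
          if_true] <;> split_ifs at ih ⊢ <;> push_cast <;> omega
      · rw [if_neg h1, if_neg h2, add_zero, add_zero, ih]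
        cases hb : a (pos a n) (cnt a n (pos a n)) <;> simp only [Bool.false_eq_true, if_false,
          if_true] <;> split_ifs <;> omega

theorem sum_cnt_le (S : Finset ℤ) (n : ℕ) : ∑ z ∈ S, cnt a n z ≤ n := by
  induction n with
  | zero => simp [cnt_zero]
  | succ n ih =>
    have h : ∑ z ∈ S, cnt a (n + 1) z = ∑ z ∈ S, cnt a n z + (if pos a n ∈ S then 1 else 0) := by
      rw [← Finset.sum_ite_eq S (pos a n) (fun _ => 1), ← sum_add_distrib]
      exact sum_congr rfl fun z _ => cnt_succ_apply n z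
    rw [h]
    split_ifs <;> omega

theorem sum_cnt_eq {S : Finset ℤ} {n : ℕ} (hS : ∀ m < n, pos a m ∈ S) :
    ∑ z ∈ S, cnt a n z = n := by
  induction n with
  | zero => simp [cnt_zero]
  | succ n ih =>
    have h : ∑ z ∈ S, cnt a (n + 1) z = ∑ z ∈ S, cnt a n z + (if pos a n ∈ S then 1 else 0) := by
      rw [← Finset.sum_ite_eq S (pos a n) (fun _ => 1), ← sum_add_distrib]
      exact sum_congr rfl fun z _ => cnt_succ_apply n z
    rw [h, ih fun m hm => hS m (by omega), if_pos (hS n (by omega))]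

/-- The chain of the numbers of down-steps read from the site `k - 1` downwards. -/
noncomputable def ch (a : ℤ → ℕ → Bool) (k : ℤ) : ℕ → ℕ
  | 0 => 0
  | i + 1 => FF (a (k - 1 - i)) (ch a k i)

theorem ch_lt_tr {k n : ℕ} (hk : (k : ℤ) ≤ pos a n) : ∀ i < k,
    ch a k i < tr (a ((k : ℤ) - 1 - i)) (cnt a n ((k : ℤ) - 1 - i)) := by
  intro i
  induction i with
  | zero =>
    intro hi
    have h := balance (a := a) n ((k : ℤ) - 1)
    rw [if_pos (by omega), if_neg (by omega)] at h
    simp only [ch, Nat.cast_zero, sub_zero]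
    omega
  | succ i ih =>
    intro hi
    have h1 := ih (by omega)
    have h2 : ch a k (i + 1) ≤ fl (a ((k : ℤ) - 1 - i)) (cnt a n ((k : ℤ) - 1 - i)) := FF_le_fl h1
    have h := balance (a := a) n ((k : ℤ) - 1 - (i + 1 : ℕ))
    rw [if_pos (by push_cast; omega), if_neg (by push_cast; omega)] at h
    have h3 : (k : ℤ) - 1 - (i + 1 : ℕ) + 1 = (k : ℤ) - 1 - i := by push_cast; ring
    rw [h3] at h
    omega

theorem ch_le_fl {k n : ℕ} (hk : (k : ℤ) ≤ pos a n) {i : ℕ} (hi : i < k) :
    ch a k (i + 1) ≤ fl (a ((k : ℤ) - 1 - i)) (cnt a n ((k : ℤ) - 1 - i)) :=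
  FF_le_fl (ch_lt_tr hk i hi)

theorem fl_le (b : ℕ → Bool) (m : ℕ) : fl b m ≤ m := by
  have := tr_add_fl b m
  omega

theorem sum_ch_le {k n : ℕ} (hk : (k : ℤ) ≤ pos a n) : ∑ i ∈ range k, ch a k (i + 1) ≤ n := by
  have hinj : Set.InjOn (fun i : ℕ => (k : ℤ) - 1 - i) (range k : Finset ℕ) := by
    intro x _ y _ h
    simp only at h
    omega
  calc ∑ i ∈ range k, ch a k (i + 1)
      ≤ ∑ i ∈ range k, cnt a n ((k : ℤ) - 1 - i) := by
        refine sum_le_sum fun i hi => ?_
        exact (ch_le_fl hk (mem_range.mp hi)).trans (fl_le _ _)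
    _ = ∑ z ∈ (range k).image (fun i : ℕ => (k : ℤ) - 1 - i), cnt a n z :=
        (sum_image hinj).symm
    _ ≤ n := sum_cnt_le _ _

theorem ch_le_cnt {k n : ℕ} (hk : (k : ℤ) ≤ pos a n) : ch a k k ≤ cnt a n 0 := by
  cases k with
  | zero => simp [ch]
  | succ k =>
    have h := ch_le_fl hk (Nat.lt_succ_self k)
    have h2 : ((k + 1 : ℕ) : ℤ) - 1 - k = 0 := by push_cast; ring
    rw [h2] at h
    exact h.trans (fl_le _ _)

theorem hits {k : ℕ} (hk : 1 ≤ k) (hrich : ∀ z n, ∃ m, n < tr (a z) m) (h0 : ch a k k = 0) :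
    ∃ m ≤ k + 2 * ∑ i ∈ range k, ch a k i, pos a m = k := by
  set T : ℕ := k + 2 * ∑ i ∈ range k, ch a k i with hT
  by_contra hcon
  push Not at hcon
  set S : Finset ℤ := (range k).image (fun i : ℕ => (k : ℤ) - 1 - i) with hS
  have hmemS : ∀ z : ℤ, z ∈ S ↔ 0 ≤ z ∧ z < k := by
    intro z
    rw [hS, mem_image]
    constructor
    · rintro ⟨i, hi, rfl⟩
      have := mem_range.mp hi
      omega
    · rintro ⟨h1, h2⟩
      exact ⟨((k : ℤ) - 1 - z).toNat, mem_range.mpr (by omega), by omega⟩
  have hinj : Set.InjOn (fun i : ℕ => (k : ℤ) - 1 - i) (range k : Finset ℕ) := by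
    intro x _ y _ h
    simp only at h
    omega
  set cap : ℕ → ℕ := fun i => NN (a ((k : ℤ) - 1 - i)) (ch a k i) with hcap
  have hcap_eq : ∀ i, cap i = ch a k (i + 1) + ch a k i + 1 := fun i => NN_eq (hrich _ _)
  have hcap_tr : ∀ i : ℕ, tr (a ((k : ℤ) - 1 - i)) (cap i) = ch a k i + 1 := fun i => tr_NN (hrich _ _)
  have hcap_fl : ∀ i : ℕ, fl (a ((k : ℤ) - 1 - i)) (cap i) = ch a k (i + 1) := fun i => rfl
  have hsum : ∑ i ∈ range k, cap i = T := by
    have h1 : ∑ i ∈ range k, ch a k (i + 1) = ∑ i ∈ range k, ch a k i := by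
      have h2 := sum_range_succ (ch a k) k
      have h3 := sum_range_succ' (ch a k) k
      rw [h0] at h2
      simp only [ch] at h3 h2
      simp only [ch]
      omega
    simp only [hcap_eq]
    rw [sum_add_distrib, sum_add_distrib, h1, sum_const, card_range, hT]
    simp
    ring
  -- the caps are respected
  have hstep : ∀ n, (∀ m ≤ n, pos a m ∈ S) → (∀ i < k, cnt a n ((k : ℤ) - 1 - i) ≤ cap i) →
      ∀ i < k, cnt a (n + 1) ((k : ℤ) - 1 - i) ≤ cap i := by
    intro n h1 h2 i hi
    rw [cnt_succ_apply]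
    by_cases hp : pos a n = (k : ℤ) - 1 - i
    · rw [if_pos hp]
      by_contra hlt
      have heq : cnt a n ((k : ℤ) - 1 - i) = cap i := le_antisymm (h2 i hi) (by omega)
      have hb := balance (a := a) n ((k : ℤ) - 1 - i)
      rw [if_neg (by omega), if_neg (by omega), heq, hcap_tr] at hb
      cases i with
      | zero =>
        have h5 : (k : ℤ) - 1 - (0 : ℕ) + 1 = k := by push_cast; ring
        rw [h5] at hb
        have h6 : cnt a n k = 0 := by
          rw [cnt_eq_sum]
          refine sum_eq_zero fun m hm => ?_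
          rw [if_neg]
          intro h7
          have h8 := (hmemS _).mp (h1 m (le_of_lt (mem_range.mp hm)))
          omega
        rw [h6] at hb
        simp only [fl, ch] at hb
        omega
      | succ i =>
        have h5 : (k : ℤ) - 1 - (i + 1 : ℕ) + 1 = (k : ℤ) - 1 - i := by push_cast; ring
        rw [h5] at hb
        have h6 := fl_mono (a ((k : ℤ) - 1 - i)) (h2 i (by omega))
        rw [hcap_fl] at h6
        omega
    · rw [if_neg hp, add_zero]
      exact h2 i hi
  have hmain : ∀ n ≤ T, (∀ m ≤ n, pos a m ∈ S) ∧ ∀ i < k, cnt a n ((k : ℤ) - 1 - i) ≤ cap i := by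
    intro n
    induction n with
    | zero =>
      intro _
      refine ⟨fun m hm => ?_, fun i _ => by rw [cnt_zero]; exact Nat.zero_le _⟩
      obtain rfl : m = 0 := by omega
      rw [hmemS, pos_zero]
      omega
    | succ n ih =>
      intro hn
      obtain ⟨h1, h2⟩ := ih (by omega)
      have h3 := hstep n h1 h2
      refine ⟨fun m hm => ?_, h3⟩
      rcases Nat.lt_or_ge m (n + 1) with h4 | h4
      · exact h1 m (by omega)
      · obtain rfl : m = n + 1 := by omega
        have h5 := (hmemS _).mp (h1 n le_rfl)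
        have h6 := hcon (n + 1) hn
        have h7 : pos a (n + 1) ≠ -1 := by
          intro h7
          have hb := balance (a := a) (n + 1) (-1)
          rw [h7, if_neg (by omega), if_pos (by omega)] at hb
          have h8 := h3 (k - 1) (by omega)
          have h9 : (k : ℤ) - 1 - (k - 1 : ℕ) = 0 := by omega
          have h10 := hcap_fl (k - 1)
          rw [h9] at h8 h10
          have h11 := fl_mono (a 0) h8
          rw [h10, Nat.sub_add_cancel hk, h0] at h11
          simp only [Int.reduceNeg, neg_add_cancel] at hb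
          omega
        rw [hmemS]
        rw [pos_succ] at h6 h7 ⊢
        split_ifs at h6 h7 ⊢ <;> omega
  obtain ⟨h1, h2⟩ := hmain T le_rfl
  have h3 := hstep T h1 h2
  have h4 : ∑ z ∈ S, cnt a (T + 1) z = T + 1 := sum_cnt_eq fun m hm => h1 m (by omega)
  rw [hS, sum_image hinj] at h4
  have h5 : ∑ i ∈ range k, cnt a (T + 1) ((k : ℤ) - 1 - i) ≤ ∑ i ∈ range k, cap i :=
    sum_le_sum fun i hi => h3 i (mem_range.mp hi)
  rw [hsum] at h5
  omega

end Q169.CW
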